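import Pool.Agent.ALT.Base3

/-! module ALT-S1 -/

namespace Pool.Agent.ALT

open Equiv Finset

theorem avg_mono_aux {n : ℕ} {f g : Multiset ℕ → ℝ}
    (h : ∀ μ : Multiset ℕ, μ.sum = n → (∀ i ∈ μ, 0 < i) → f μ ≤ g μ) : avg n f ≤ avg n g := by
  rw [← avC_c_zero, ← avC_c_zero]
  exact avC_mono (by simp) h

theorem avg_add_aux (n : ℕ) (f g : Multiset ℕ → ℝ) :
    avg n (fun μ => f μ + g μ) = avg n f + avg n g := by
  rw [← avC_c_zero, ← avC_c_zero, ← avC_c_zero]
  exact avC_add n 0 f g

theorem avg_rec_aux (n : ℕ) (f : Multiset ℕ → ℝ) :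
    (n : ℝ) * avg n f = ∑ l ∈ Icc 1 n, avg (n - l) (fun μ => f (l ::ₘ μ)) := by
  rw [← avC_c_zero, avC_rec]
  refine Finset.sum_congr rfl fun l _ => ?_
  rw [zero_mul, avC_c_zero]

theorem avg_zero_aux (n : ℕ) : avg n (fun _ => 0) = 0 := by
  unfold avg
  simp

theorem sub_cons {d s l : ℕ} {μ : Multiset ℕ} (h : Sub d s (l ::ₘ μ)) :
    Sub d s μ ∨ ((d ∣ l ∧ l ≤ s) ∧ Sub d (s - l) μ) := by
  obtain ⟨ν, hν, hd, hs⟩ := h
  by_cases hl : l ∈ ν
  · right
    have h1 : l ::ₘ ν.erase l = ν := Multiset.cons_erase hl
    have h2 : l + (ν.erase l).sum = s := by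
      rw [← Multiset.sum_cons, h1, hs]
    refine ⟨⟨hd l hl, by omega⟩, ν.erase l, ?_, fun i hi => hd i (Multiset.mem_of_mem_erase hi), by omega⟩
    rwa [Multiset.erase_le_iff_le_cons]
  · left
    exact ⟨ν, (Multiset.le_cons_of_notMem hl).1 hν, hd, hs⟩

theorem sum_le_of_le {μ ν : Multiset ℕ} (h : ν ≤ μ) : ν.sum ≤ μ.sum := by
  obtain ⟨ρ, rfl⟩ := Multiset.le_iff_exists_add.1 h
  rw [Multiset.sum_add]
  omega

theorem avg_ind_sub_of_lt {d s m : ℕ} (h : m < s) : avg m (ind (Sub d s)) = 0 := by
  apply le_antisymm
  · rw [← avg_zero_aux m]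
    refine avg_mono_aux fun μ hs _ => ?_
    rw [ind_neg]
    rintro ⟨ν, hν, -, hsum⟩
    have := sum_le_of_le hν
    omega
  · rw [← avg_zero_aux m]
    exact avg_mono_aux fun μ _ _ => ind_nonneg _ _

theorem avg_ind_le_one (p : Multiset ℕ → Prop) (m : ℕ) : avg m (ind p) ≤ 1 := by
  rw [← avg_one m]
  exact avg_mono_aux fun μ _ _ => ind_le_one _ _

/-- the probability of a sub-collection of cycles of lengths divisible by `d` and total length
`d t` (`t ≥ 1`) is at most `1/d` -/
theorem avg_sub_le {d t m : ℕ} (hd : 1 ≤ d) (ht : 1 ≤ t) :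
    avg m (ind (Sub d (d * t))) ≤ 1 / d := by
  have hd0 : (0 : ℝ) < d := by exact_mod_cast hd
  have hdinv : (0 : ℝ) ≤ 1 / d := by positivity
  have hd1 : (1 : ℝ) / d ≤ 1 := by
    rw [div_le_one hd0]
    exact_mod_cast hd
  induction m using Nat.strong_induction_on generalizing t with
  | _ m ih =>
    by_cases hm : m < d * t
    · rw [avg_ind_sub_of_lt hm]
      exact hdinv
    · push Not at hm
      have hm0 : 0 < m := lt_of_lt_of_le (Nat.mul_pos hd ht) hm
      have key : (m : ℝ) * avg m (ind (Sub d (d * t))) ≤ m * (1 / d) := by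
        rw [avg_rec_aux]
        have hstep : ∀ l ∈ Icc 1 m, avg (m - l) (fun μ => ind (Sub d (d * t)) (l ::ₘ μ)) ≤
            (if l ≤ m - d * t then (1 / d : ℝ) else 0) +
            (if d ∣ l ∧ l ≤ d * t then (if l = d * t then (1 : ℝ) else 1 / d) else 0) := by
          intro l hl
          rw [Finset.mem_Icc] at hl
          have h1 : avg (m - l) (fun μ => ind (Sub d (d * t)) (l ::ₘ μ)) ≤
              avg (m - l) (fun μ => ind (Sub d (d * t)) μ +
                (if d ∣ l ∧ l ≤ d * t then (1 : ℝ) else 0) * ind (Sub d (d * t - l)) μ) := by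
            refine avg_mono_aux fun μ _ _ => ?_
            by_cases h : Sub d (d * t) (l ::ₘ μ)
            · rw [ind_pos h]
              rcases sub_cons h with h2 | ⟨h2, h3⟩
              · rw [ind_pos h2]
                have h4 : (0 : ℝ) ≤ (if d ∣ l ∧ l ≤ d * t then (1 : ℝ) else 0) *
                    ind (Sub d (d * t - l)) μ := by
                  apply mul_nonneg _ (ind_nonneg _ _)
                  split_ifs <;> norm_num
                linarith
              · rw [if_pos h2, ind_pos h3]
                have := ind_nonneg (Sub d (d * t)) μ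
                linarith
            · rw [ind_neg h]
              apply add_nonneg (ind_nonneg _ _)
              apply mul_nonneg _ (ind_nonneg _ _)
              split_ifs <;> norm_num
          refine h1.trans ?_
          rw [avg_add_aux]
          apply add_le_add
          · show avg (m - l) (ind (Sub d (d * t))) ≤ _
            split_ifs with h2
            · exact ih (m - l) (by omega) ht
            · rw [avg_ind_sub_of_lt (by omega)]
          · split_ifs with h2 h3
            · simp only [one_mul]
              exact avg_ind_le_one _ _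
            · simp only [one_mul]
              show avg (m - l) (ind (Sub d (d * t - l))) ≤ _
              obtain ⟨⟨j, rfl⟩, h4⟩ := h2
              have hjt : j ≤ t := Nat.le_of_mul_le_mul_left h4 hd
              have hjt' : j ≠ t := fun h => h3 (by rw [h])
              rw [← Nat.mul_sub]
              exact ih (m - d * j) (by omega) (by omega)
            · simp only [zero_mul]
              rw [avg_zero_aux]
        refine (Finset.sum_le_sum hstep).trans ?_
        rw [Finset.sum_add_distrib]
        have hA : ∑ l ∈ Icc 1 m, (if l ≤ m - d * t then (1 / d : ℝ) else 0) ≤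
            ((m - d * t : ℕ) : ℝ) * (1 / d) := by
          rw [← Finset.sum_filter, Finset.sum_const, nsmul_eq_mul]
          apply mul_le_mul_of_nonneg_right _ hdinv
          have : (Icc 1 m).filter (fun l => l ≤ m - d * t) ⊆ Icc 1 (m - d * t) := by
            intro l hl
            rw [Finset.mem_filter, Finset.mem_Icc] at hl
            rw [Finset.mem_Icc]
            omega
          have h2 := Finset.card_le_card this
          rw [Nat.card_Icc] at h2
          exact_mod_cast (by omega : _ ≤ m - d * t)
        have hB : ∑ l ∈ Icc 1 m, (if d ∣ l ∧ l ≤ d * t then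
            (if l = d * t then (1 : ℝ) else 1 / d) else 0) ≤ ((t : ℝ) - 1) * (1 / d) + 1 := by
          rw [← Finset.sum_filter]
          have hsub : (Icc 1 m).filter (fun l => d ∣ l ∧ l ≤ d * t) ⊆
              (Icc 1 t).image (fun j => d * j) := by
            intro l hl
            rw [Finset.mem_filter, Finset.mem_Icc] at hl
            obtain ⟨h1, ⟨j, rfl⟩, h3⟩ := hl
            rw [Finset.mem_image]
            refine ⟨j, ?_, rfl⟩
            rw [Finset.mem_Icc]
            refine ⟨?_, Nat.le_of_mul_le_mul_left h3 hd⟩
            by_contra hj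
            have : j = 0 := by omega
            subst this
            omega
          have h1 : ∑ l ∈ (Icc 1 m).filter (fun l => d ∣ l ∧ l ≤ d * t),
              (if l = d * t then (1 : ℝ) else 1 / d) ≤
              ∑ l ∈ (Icc 1 t).image (fun j => d * j), (if l = d * t then (1 : ℝ) else 1 / d) := by
            refine Finset.sum_le_sum_of_subset_of_nonneg hsub fun l _ _ => ?_
            split_ifs
            · norm_num
            · exact hdinv
          refine h1.trans ?_
          rw [Finset.sum_image (by
            intro x _ y _ hxy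
            exact Nat.eq_of_mul_eq_mul_left hd hxy)]
          have h2 : ∀ j ∈ Icc 1 t, (if d * j = d * t then (1 : ℝ) else 1 / d) =
              1 / d + (if j = t then (1 - 1 / d : ℝ) else 0) := by
            intro j _
            by_cases hj : j = t
            · subst hj
              rw [if_pos rfl, if_pos rfl]
              ring
            · rw [if_neg hj, if_neg fun h => hj (Nat.eq_of_mul_eq_mul_left hd h)]
              ring
          rw [Finset.sum_congr rfl h2, Finset.sum_add_distrib, Finset.sum_const, Nat.card_Icc,
            Finset.sum_ite_eq', if_pos (Finset.mem_Icc.2 ⟨ht, le_rfl⟩), Nat.add_sub_cancel,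
            nsmul_eq_mul]
          apply le_of_eq
          ring
        refine (add_le_add hA hB).trans ?_
        have hcast : ((m - d * t : ℕ) : ℝ) = m - d * t := by
          rw [Nat.cast_sub hm]
          push_cast
          ring
        rw [hcast]
        have ht1 : (1 : ℝ) ≤ t := by exact_mod_cast ht
        have h3 : ((m : ℝ) - d * t) * (1 / d) = m * (1 / d) - t := by
          field_simp
        rw [h3]
        nlinarith
      exact le_of_mul_le_mul_left key (by exact_mod_cast hm0)

end Pool.Agent.ALT
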