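import Pool.Agent.ALT.Defs

/-! terms of the lower bound for imprimitive groups -/

namespace Pool.Agent.ALT

open Finset

/-- the term of the cycle length `l` -/
noncomputable def term (a b l : ℕ) : ℝ :=
  (1 / l : ℝ) * (1 - ∑ e ∈ (Ico 1 a).filter (fun e => e ∣ l ∧ l / e ≤ b), 2 / ((l / e : ℕ) : ℝ))

/-- all admissible lengths -/
def lens (a b : ℕ) : Finset ℕ :=
  (Icc 1 (a * b)).filter (fun l => a * b < 2 * l ∧ l + 2 ≤ a * b ∧ ¬ a ∣ l)

/-- the extra term for `l = n - 1` -/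
noncomputable def extra (a b : ℕ) : ℝ :=
  if Even (a * b) then 2 / ((a * b - 1 : ℕ) : ℝ) else 0

/-- the event used for imprimitive groups: some cycle length `l > n/2` violates `Blk` -/
def NotBlk (a b : ℕ) (μ : Multiset ℕ) : Prop :=
  ∃ l ∈ μ, a * b < 2 * l ∧ ¬ Blk a b l (μ.erase l)

end Pool.Agent.ALT
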