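import Pool.Agent.ALT.BC1
import Pool.Agent.ALT.BDefs

/-! module ALT-S2: counting for imprimitive groups -/

namespace Pool.Agent.ALT

open Equiv Finset

/-- a cycle of length more than half is the only one of such a length -/
theorem bc2_unique {n l l' : ℕ} {μ : Multiset ℕ} (hs : μ.sum = n) (hl : l ∈ μ)
    (h1 : n < 2 * l) (h2 : n < 2 * l') : l' ∉ μ.erase l := by
  intro h
  obtain ⟨ν, hν⟩ := Multiset.exists_cons_of_mem hl
  subst hν
  rw [Multiset.erase_cons_head] at h
  obtain ⟨ρ, hρ⟩ := Multiset.exists_cons_of_mem h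
  subst hρ
  rw [Multiset.sum_cons, Multiset.sum_cons] at hs
  omega

theorem bc2_pointwise {a b : ℕ} (L : Finset ℕ) (hL : ∀ l ∈ L, a * b < 2 * l)
    (μ : Multiset ℕ) (hs : μ.sum = a * b) :
    ∑ l ∈ L, (μ.count l : ℝ) * (1 - ind (Blk a b l) (μ.erase l)) ≤ ind (NotBlk a b) μ := by
  by_cases h : ∃ l ∈ L, l ∈ μ
  · obtain ⟨l, hlL, hlμ⟩ := h
    have hn : a * b < 2 * l := hL l hlL
    rw [Finset.sum_eq_single_of_mem l hlL]
    · have hc : μ.count l = 1 := by
        have h1 := bc2_unique hs hlμ hn hn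
        rw [← Multiset.count_eq_zero, Multiset.count_erase_self] at h1
        have h2 : 0 < μ.count l := Multiset.count_pos.2 hlμ
        omega
      rw [hc, Nat.cast_one, one_mul]
      by_cases hB : Blk a b l (μ.erase l)
      · rw [ind_pos hB, sub_self]
        exact ind_nonneg _ _
      · rw [ind_neg hB, sub_zero, ind_pos (show NotBlk a b μ from ⟨l, hlμ, hn, hB⟩)]
    · intro l' hl' hne
      have h1 := bc2_unique hs hlμ hn (hL l' hl')
      have h2 : μ.count l' = 0 := by
        rw [← Multiset.count_erase_of_ne hne, Multiset.count_eq_zero]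
        exact h1
      rw [h2, Nat.cast_zero, zero_mul]
  · push Not at h
    rw [Finset.sum_eq_zero]
    · exact ind_nonneg _ _
    · intro l hl
      rw [Multiset.count_eq_zero.2 (h l hl), Nat.cast_zero, zero_mul]

theorem bc2_abs (l : ℕ) : |(1 : ℝ) * (-1) ^ (l + 1)| ≤ 1 := by
  rw [one_mul, abs_pow, abs_neg, abs_one, one_pow]

theorem bc2_blk_le {a b l : ℕ} (hl : 1 ≤ l) (hal : ¬ a ∣ l) (μ : Multiset ℕ) :
    ind (Blk a b l) μ ≤ ∑ e ∈ (Ico 1 a).filter (fun e => e ∣ l ∧ l / e ≤ b),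
      ind (Sub (l / e) ((l / e) * (a - e))) μ := by
  by_cases h : Blk a b l μ
  · obtain ⟨d, e, hde, hea, hdb, hS⟩ := h
    have he0 : 1 ≤ e := by
      rcases Nat.eq_zero_or_pos e with h | h
      · subst h; omega
      · exact h
    have hela : e ≠ a := by
      rintro rfl
      exact hal (Dvd.intro_left d hde)
    have hd : l / e = d := by
      rw [← hde]
      exact Nat.mul_div_cancel _ he0
    have hmem : e ∈ (Ico 1 a).filter (fun e => e ∣ l ∧ l / e ≤ b) := by
      rw [Finset.mem_filter, Finset.mem_Ico]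
      refine ⟨⟨he0, by omega⟩, Dvd.intro_left d hde, by omega⟩
    have h1 : ind (Sub (l / e) ((l / e) * (a - e))) μ = 1 := by
      rw [hd]
      exact ind_pos hS
    calc ind (Blk a b l) μ ≤ 1 := ind_le_one _ _
      _ = ind (Sub (l / e) ((l / e) * (a - e))) μ := h1.symm
      _ ≤ _ := Finset.single_le_sum (f := fun e => ind (Sub (l / e) ((l / e) * (a - e))) μ)
          (fun i _ => ind_nonneg _ _) hmem
  · rw [ind_neg h]
    exact Finset.sum_nonneg fun _ _ => ind_nonneg _ _

theorem bc2_term_le {a b l : ℕ} (hl : 1 ≤ l) (hal : ¬ a ∣ l) (h2 : l + 2 ≤ a * b) :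
    term a b l ≤ avC (a * b) 1
      (fun μ => (μ.count l : ℝ) * (1 - ind (Blk a b l) (μ.erase l))) := by
  have e1 := avC_count (n := a * b) (l := l) hl (by omega) 1
    (fun μ => 1 - ind (Blk a b l) μ)
  rw [e1, avC_sub (a * b - l) _ (fun _ => 1) (fun μ => ind (Blk a b l) μ),
    avC_one (by omega)]
  unfold term
  have hl' : (0 : ℝ) < l := by exact_mod_cast hl
  have key : avC (a * b - l) (1 * (-1) ^ (l + 1)) (fun μ => ind (Blk a b l) μ) ≤
      ∑ e ∈ (Ico 1 a).filter (fun e => e ∣ l ∧ l / e ≤ b), 2 / ((l / e : ℕ) : ℝ) := by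
    refine le_trans (avC_mono (bc2_abs l) fun μ _ _ => bc2_blk_le (b := b) hl hal μ) ?_
    rw [avC_sum]
    refine Finset.sum_le_sum fun e he => ?_
    rw [Finset.mem_filter, Finset.mem_Ico] at he
    obtain ⟨⟨he1, he2⟩, he3, -⟩ := he
    have hd : 1 ≤ l / e := Nat.div_pos (Nat.le_of_dvd hl he3) he1
    refine le_trans (avC_le_two (bc2_abs l) fun μ _ _ => ind_nonneg _ _) ?_
    have := avg_sub_le (d := l / e) (t := a - e) (m := a * b - l) hd (by omega)
    calc 2 * avg (a * b - l) (ind (Sub (l / e) (l / e * (a - e)))) ≤ 2 * (1 / ((l / e : ℕ) : ℝ)) :=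
          mul_le_mul_of_nonneg_left this (by norm_num)
      _ = 2 / ((l / e : ℕ) : ℝ) := by ring
  rw [div_mul_eq_mul_div, one_mul]
  exact div_le_div_of_nonneg_right (by linarith) hl'.le

theorem bc2_not_blk {a b : ℕ} (ha : 2 ≤ a) (hb : 2 ≤ b) : ¬ Blk a b (a * b - 1) {1} := by
  rintro ⟨d, e, hde, hea, hdb, ν, hν, hdiv, hsum⟩
  have hab : a * 2 ≤ a * b := Nat.mul_le_mul_left a hb
  have hd0 : 0 < d := by
    rcases Nat.eq_zero_or_pos d with h | h
    · subst h; rw [zero_mul] at hde; omega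
    · exact h
  rcases Multiset.le_singleton.1 hν with rfl | rfl
  · rw [Multiset.sum_zero] at hsum
    have h1 : a - e = 0 := by
      rcases Nat.mul_eq_zero.1 hsum.symm with h | h
      · omega
      · exact h
    have h2 : e = a := by omega
    subst h2
    have h3 : e ∣ e * b - 1 := Dvd.intro_left d hde
    have h4 : e ∣ e * b := Dvd.intro _ rfl
    have h5 : e ∣ 1 := by
      have := Nat.dvd_sub h4 h3
      rwa [show e * b - (e * b - 1) = 1 by omega] at this
    have := Nat.le_of_dvd one_pos h5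
    omega
  · have h1 : d ∣ 1 := hdiv 1 (Multiset.mem_singleton_self 1)
    have h2 : d = 1 := Nat.dvd_one.1 h1
    subst h2
    rw [Multiset.sum_singleton] at hsum
    omega

theorem bc2_extra {a b : ℕ} (ha : 2 ≤ a) (hb : 2 ≤ b) (hab : 6 ≤ a * b) (hev : Even (a * b)) :
    avC (a * b) 1 (fun μ => (μ.count (a * b - 1) : ℝ) *
      (1 - ind (Blk a b (a * b - 1)) (μ.erase (a * b - 1)))) = 2 / ((a * b - 1 : ℕ) : ℝ) := by
  have e1 := avC_count (n := a * b) (l := a * b - 1) (by omega) (by omega) 1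
    (fun μ => 1 - ind (Blk a b (a * b - 1)) μ)
  rw [e1, show a * b - (a * b - 1) = 1 by omega, avC_one', ind_neg (bc2_not_blk ha hb),
    show a * b - 1 + 1 = a * b by omega, hev.neg_one_pow]
  norm_num

/-- lower bound; `L` is any set of lengths in `(n/2, n-2]` not divisible by `a` -/
theorem notBlk_ge {a b : ℕ} (ha : 2 ≤ a) (hb : 2 ≤ b) (hab : 6 ≤ a * b) (L : Finset ℕ)
    (hL : ∀ l ∈ L, a * b < 2 * l ∧ l + 2 ≤ a * b ∧ ¬ a ∣ l) :
    ∑ l ∈ L, term a b l + extra a b ≤ avC (a * b) 1 (ind (NotBlk a b)) := by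
  have hterm : ∑ l ∈ L, term a b l ≤ ∑ l ∈ L, avC (a * b) 1
      (fun μ => (μ.count l : ℝ) * (1 - ind (Blk a b l) (μ.erase l))) := by
    refine Finset.sum_le_sum fun l hl => ?_
    obtain ⟨h1, h2, h3⟩ := hL l hl
    exact bc2_term_le (by omega) h3 h2
  unfold extra
  by_cases hev : Even (a * b)
  · rw [if_pos hev, ← bc2_extra ha hb hab hev]
    have hnot : a * b - 1 ∉ L := by
      intro h
      have := (hL _ h).2.1
      omega
    have h1 : avC (a * b) 1 (fun μ => ∑ l ∈ insert (a * b - 1) L,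
        (μ.count l : ℝ) * (1 - ind (Blk a b l) (μ.erase l))) ≤
        avC (a * b) 1 (ind (NotBlk a b)) := by
      refine avC_mono (by simp) fun μ hμ _ => bc2_pointwise _ ?_ μ hμ
      intro l hl
      rcases Finset.mem_insert.1 hl with rfl | hl
      · omega
      · exact (hL l hl).1
    rw [avC_sum (insert (a * b - 1) L) (a * b) 1
      (fun l μ => (μ.count l : ℝ) * (1 - ind (Blk a b l) (μ.erase l))),
      Finset.sum_insert hnot] at h1
    linarith
  · rw [if_neg hev, add_zero]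
    have h1 : avC (a * b) 1 (fun μ => ∑ l ∈ L,
        (μ.count l : ℝ) * (1 - ind (Blk a b l) (μ.erase l))) ≤
        avC (a * b) 1 (ind (NotBlk a b)) :=
      avC_mono (by simp) fun μ hμ _ => bc2_pointwise _ (fun l hl => (hL l hl).1) μ hμ
    rw [avC_sum L (a * b) 1
      (fun l μ => (μ.count l : ℝ) * (1 - ind (Blk a b l) (μ.erase l)))] at h1
    linarith

end Pool.Agent.ALT
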