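import Pool.Agent.ALT.BDefs

/-! module ALT-I1: lower bounds of the sum of terms -/

namespace Pool.Agent.ALT

open Finset

noncomputable def hh (b : ℕ) : ℝ := ∑ d ∈ (Ico 1 b).filter (fun d => b < 2 * d), 1 / (d : ℝ)

noncomputable def s2 (b : ℕ) : ℝ := ∑ d ∈ (Icc 1 b).filter (fun d => b < 2 * d), 1 / (d : ℝ) ^ 2

theorem hh_nonneg (b : ℕ) : 0 ≤ hh b := by
  unfold hh
  exact Finset.sum_nonneg (fun d _ => by positivity)

private theorem log_step_upper {d : ℕ} (hd : 1 ≤ d) :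
    1 / ((d + 1 : ℕ) : ℝ) ≤ Real.log ((d + 1 : ℕ) : ℝ) - Real.log (d : ℝ) := by
  have hd0 : (0 : ℝ) < d := by exact_mod_cast hd
  have h1 : (0 : ℝ) < ((d + 1 : ℕ) : ℝ) := by positivity
  have h2 := Real.log_le_sub_one_of_pos (div_pos hd0 h1)
  rw [Real.log_div hd0.ne' h1.ne'] at h2
  have h3 : (d : ℝ) / ((d + 1 : ℕ) : ℝ) - 1 = - (1 / ((d + 1 : ℕ) : ℝ)) := by
    field_simp
    push_cast
    ring
  rw [h3] at h2
  linarith

private theorem log_step_lower {d : ℕ} (hd : 1 ≤ d) :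
    Real.log ((d + 1 : ℕ) : ℝ) - Real.log (d : ℝ) ≤ 1 / (d : ℝ) := by
  have hd0 : (0 : ℝ) < d := by exact_mod_cast hd
  have h1 : (0 : ℝ) < ((d + 1 : ℕ) : ℝ) := by positivity
  have h2 := Real.log_le_sub_one_of_pos (div_pos h1 hd0)
  rw [Real.log_div h1.ne' hd0.ne'] at h2
  have h3 : ((d + 1 : ℕ) : ℝ) / (d : ℝ) - 1 = 1 / (d : ℝ) := by
    field_simp
    push_cast
    ring
  rw [h3] at h2
  exact h2

private theorem sum_upper (m : ℕ) (hm : 1 ≤ m) (k : ℕ) (hk : m ≤ k) :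
    ∑ d ∈ Ico (m + 1) (k + 1), 1 / (d : ℝ) ≤ Real.log k - Real.log m := by
  induction k, hk using Nat.le_induction with
  | base => simp
  | succ k hk ih =>
    rw [Finset.sum_Ico_succ_top (by omega)]
    have := log_step_upper (d := k) (by omega)
    linarith

private theorem sum_lower (m : ℕ) (hm : 1 ≤ m) (k : ℕ) (hk : m ≤ k) :
    Real.log k - Real.log m ≤ ∑ d ∈ Ico m k, 1 / (d : ℝ) := by
  induction k, hk using Nat.le_induction with
  | base => simp
  | succ k hk ih =>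
    rw [Finset.sum_Ico_succ_top (by omega)]
    have := log_step_lower (d := k) (by omega)
    linarith

theorem hh_le (b : ℕ) : hh b ≤ Real.log 2 := by
  unfold hh
  have hlog : 0 ≤ Real.log 2 := Real.log_nonneg (by norm_num)
  rcases Nat.lt_or_ge b 2 with hb | hb
  · have : (Ico 1 b).filter (fun d => b < 2 * d) = ∅ := by
      ext d
      simp only [mem_filter, mem_Ico, notMem_empty, iff_false]
      omega
    rw [this, sum_empty]
    exact hlog
  · have hset : (Ico 1 b).filter (fun d => b < 2 * d) = Ico (b / 2 + 1) ((b - 1) + 1) := by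
      ext d
      simp only [mem_filter, mem_Ico]
      omega
    rw [hset]
    have h1 := sum_upper (b / 2) (by omega) (b - 1) (by omega)
    refine h1.trans ?_
    have hp : (0 : ℝ) < ((b / 2 : ℕ) : ℝ) := by
      have : 1 ≤ b / 2 := by omega
      exact_mod_cast this
    have hp2 : (0 : ℝ) < ((b - 1 : ℕ) : ℝ) := by
      have : 1 ≤ b - 1 := by omega
      exact_mod_cast this
    have h2 : ((b - 1 : ℕ) : ℝ) ≤ 2 * ((b / 2 : ℕ) : ℝ) := by
      have : b - 1 ≤ 2 * (b / 2) := by omega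
      exact_mod_cast this
    have h3 := Real.log_le_log hp2 h2
    rw [Real.log_mul (by norm_num) hp.ne'] at h3
    linarith

/-- the set of all lengths, multiples of `a` included -/
private theorem sumM_lower {n : ℕ} (hn : 6 ≤ n) :
    Real.log 2 - 2 / ((n : ℝ) - 1)
      ≤ ∑ l ∈ (Icc 1 n).filter (fun l => n < 2 * l ∧ l + 2 ≤ n), 1 / (l : ℝ) +
        (if Even n then 2 / ((n - 1 : ℕ) : ℝ) else 0) := by
  have hset : (Icc 1 n).filter (fun l => n < 2 * l ∧ l + 2 ≤ n) = Ico (n / 2 + 1) (n - 1) := by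
    ext d
    simp only [mem_filter, mem_Ico, mem_Icc]
    omega
  rw [hset]
  have h1 := sum_lower (n / 2 + 1) (by omega) (n - 1) (by omega)
  have hcast : ((n - 1 : ℕ) : ℝ) = (n : ℝ) - 1 := by
    rw [Nat.cast_sub (by omega)]
    simp
  rcases Nat.even_or_odd n with he | ho
  · rw [if_pos he, hcast]
    rw [hcast] at h1
    obtain ⟨m, hm⟩ := he
    have hm2 : n / 2 = m := by omega
    rw [hm2] at h1
    have hm3 : 3 ≤ m := by omega
    have hm3' : (3 : ℝ) ≤ m := by exact_mod_cast hm3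
    have hnm : (n : ℝ) = 2 * m := by rw [hm]; push_cast; ring
    have hpos : (0 : ℝ) < (n : ℝ) - 1 := by rw [hnm]; linarith
    -- log(2(m+1)) - log(2m-1) ≤ 3/(2m-1)
    have hA : (0 : ℝ) < 2 * ((m : ℝ) + 1) := by positivity
    have h2 := Real.log_le_sub_one_of_pos (div_pos hA hpos)
    rw [Real.log_div hA.ne' hpos.ne', Real.log_mul (by norm_num) (by positivity)] at h2
    have h3 : 2 * ((m : ℝ) + 1) / ((n : ℝ) - 1) - 1 = 3 / ((n : ℝ) - 1) := by
      rw [hnm] at hpos ⊢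
      field_simp
      ring
    rw [h3] at h2
    have h4 : ((m + 1 : ℕ) : ℝ) = (m : ℝ) + 1 := by push_cast; ring
    rw [h4] at h1
    have h5 : 3 / ((n : ℝ) - 1) ≤ 4 / ((n : ℝ) - 1) := by
      apply div_le_div_of_nonneg_right _ hpos.le
      norm_num
    have h6 : 4 / ((n : ℝ) - 1) = 2 / ((n : ℝ) - 1) + 2 / ((n : ℝ) - 1) := by ring
    rw [hm2]
    linarith
  · have hne : ¬ Even n := Nat.not_even_iff_odd.mpr ho
    rw [if_neg hne, hcast.symm]
    obtain ⟨m, hm⟩ := ho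
    have hm2 : n / 2 = m := by omega
    rw [hm2] at h1 ⊢
    have hn1 : n - 1 = 2 * m := by omega
    rw [hn1] at h1 ⊢
    have hm3 : 3 ≤ m := by omega
    have hm3' : (3 : ℝ) ≤ m := by exact_mod_cast hm3
    have hm0 : (0 : ℝ) < m := by linarith
    have h7 := log_step_lower (d := m) (by omega)
    have h8 : (((2 * m : ℕ)) : ℝ) = 2 * (m : ℝ) := by push_cast; ring
    rw [h8] at h1 ⊢
    rw [Real.log_mul (by norm_num) hm0.ne'] at h1
    have h9 : 2 / (2 * (m : ℝ)) = 1 / (m : ℝ) := by field_simp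
    rw [h9]
    linarith

private theorem sum_multiples {a b : ℕ} (ha : 1 ≤ a) :
    ∑ l ∈ (Icc 1 (a * b)).filter (fun l => (a * b < 2 * l ∧ l + 2 ≤ a * b) ∧ a ∣ l), 1 / (l : ℝ)
      ≤ hh b / a := by
  have h1 : ∑ l ∈ (Icc 1 (a * b)).filter (fun l => (a * b < 2 * l ∧ l + 2 ≤ a * b) ∧ a ∣ l),
      1 / (l : ℝ) = ∑ l ∈ (Icc 1 (a * b)).filter
        (fun l => (a * b < 2 * l ∧ l + 2 ≤ a * b) ∧ a ∣ l),
        (fun d : ℕ => 1 / (d : ℝ) / a) (l / a) := by
    refine sum_congr rfl fun l hl => ?_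
    simp only [mem_filter, mem_Icc] at hl
    obtain ⟨d, rfl⟩ := hl.2.2
    rw [Nat.mul_div_cancel_left d (by omega)]
    push_cast
    rw [div_div, mul_comm]
  rw [h1]
  rw [← Finset.sum_image (f := fun d : ℕ => 1 / (d : ℝ) / a) (g := fun l => l / a)]
  · unfold hh
    rw [Finset.sum_div]
    refine Finset.sum_le_sum_of_subset_of_nonneg ?_ (fun d _ _ => by positivity)
    intro d hd
    simp only [mem_image, mem_filter, mem_Icc, mem_Ico] at hd ⊢
    obtain ⟨l, ⟨hl1, ⟨hl2, hl3⟩, c, rfl⟩, rfl⟩ := hd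
    rw [Nat.mul_div_cancel_left c (by omega)]
    refine ⟨⟨?_, ?_⟩, ?_⟩
    · rcases Nat.eq_zero_or_pos c with h | h
      · subst h; simp at hl1
      · exact h
    · have : a * c < a * b := by omega
      exact Nat.lt_of_mul_lt_mul_left this
    · have : a * b < a * (2 * c) := by
        calc a * b < 2 * (a * c) := hl2
          _ = a * (2 * c) := by ring
      exact Nat.lt_of_mul_lt_mul_left this
  · intro x hx y hy hxy
    simp only [coe_filter, Set.mem_ofPred_eq] at hx hy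
    obtain ⟨c, rfl⟩ := hx.2.2
    obtain ⟨c', rfl⟩ := hy.2.2
    simp only at hxy
    rw [Nat.mul_div_cancel_left c (by omega), Nat.mul_div_cancel_left c' (by omega)] at hxy
    rw [hxy]

/-- Part 1 of the estimate. -/
private theorem part1 {a b : ℕ} (ha : 2 ≤ a) (hab : 6 ≤ a * b) :
    Real.log 2 - 2 / ((a * b : ℝ) - 1) - hh b / a
      ≤ ∑ l ∈ lens a b, 1 / (l : ℝ) + extra a b := by
  have h1 := sumM_lower hab
  have h2 := sum_multiples (a := a) (b := b) (by omega)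
  have h3 : ∑ l ∈ (Icc 1 (a * b)).filter (fun l => a * b < 2 * l ∧ l + 2 ≤ a * b), 1 / (l : ℝ)
      = ∑ l ∈ (Icc 1 (a * b)).filter (fun l => (a * b < 2 * l ∧ l + 2 ≤ a * b) ∧ a ∣ l),
          1 / (l : ℝ) + ∑ l ∈ lens a b, 1 / (l : ℝ) := by
    rw [← Finset.sum_filter_add_sum_filter_not
      ((Icc 1 (a * b)).filter (fun l => a * b < 2 * l ∧ l + 2 ≤ a * b)) (fun l => a ∣ l)]
    congr 1
    · rw [filter_filter]
    · rw [filter_filter]
      refine Finset.sum_congr ?_ (fun _ _ => rfl)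
      unfold lens
      ext l
      simp only [mem_filter, mem_Icc]
      tauto
  unfold extra
  push_cast at h1
  rw [h3] at h1
  linarith

/-- Part 2: the sum of the corrections as a sum over pairs. -/
private theorem part2 {a b : ℕ} :
    ∑ l ∈ lens a b, (1 / (l : ℝ)) *
        ∑ e ∈ (Ico 1 a).filter (fun e => e ∣ l ∧ l / e ≤ b), 2 / ((l / e : ℕ) : ℝ)
      ≤ ∑ p ∈ ((Icc 1 b) ×ˢ (Ico 1 a)).filter (fun p => a * b < 2 * (p.1 * p.2)),
          2 / ((p.1 : ℝ) ^ 2 * (p.2 : ℝ)) := by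
  have h0 : ∀ l ∈ lens a b, (1 / (l : ℝ)) *
        ∑ e ∈ (Ico 1 a).filter (fun e => e ∣ l ∧ l / e ≤ b), 2 / ((l / e : ℕ) : ℝ)
      = ∑ e ∈ (Ico 1 a).filter (fun e => e ∣ l ∧ l / e ≤ b),
          (fun p : ℕ × ℕ => 2 / ((p.1 : ℝ) ^ 2 * (p.2 : ℝ))) (l / e, e) := by
    intro l hl
    rw [Finset.mul_sum]
    refine sum_congr rfl fun e he => ?_
    simp only [mem_filter, mem_Ico] at he
    obtain ⟨⟨he1, he2⟩, ⟨d, rfl⟩, he4⟩ := he
    rw [Nat.mul_div_cancel_left d (by omega)]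
    have hl' : 1 ≤ e * d := by
      unfold lens at hl
      simp only [mem_filter, mem_Icc] at hl
      exact hl.1.1
    have hd : 0 < d := Nat.pos_of_mul_pos_left (by omega : 0 < e * d)
    have hd' : (0 : ℝ) < d := by exact_mod_cast hd
    have he' : (0 : ℝ) < e := by exact_mod_cast he1
    push_cast
    field_simp
  rw [Finset.sum_congr rfl h0, Finset.sum_sigma']
  rw [← Finset.sum_image (f := fun p : ℕ × ℕ => 2 / ((p.1 : ℝ) ^ 2 * (p.2 : ℝ)))
    (g := fun x : (_ : ℕ) × ℕ => (x.1 / x.2, x.2))]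
  · refine Finset.sum_le_sum_of_subset_of_nonneg ?_ (fun p _ _ => by positivity)
    rintro ⟨d, e⟩ hp
    simp only [mem_image, mem_sigma, mem_filter, mem_Icc, mem_Ico, lens, mem_product,
      Prod.mk.injEq] at hp ⊢
    obtain ⟨⟨l, e'⟩, ⟨⟨⟨hl1, hl2⟩, hl3, hl4, hl5⟩, ⟨he1, he2⟩, ⟨c, hc⟩, he4⟩, hd, he⟩ := hp
    simp only at hl1 hl2 hl3 hl4 hl5 he1 he2 hc he4 hd he
    subst he
    subst hc
    rw [Nat.mul_div_cancel_left c (by omega)] at hd he4
    subst hd
    have hc0 : 0 < c := Nat.pos_of_mul_pos_left (by omega : 0 < e' * c)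
    refine ⟨⟨⟨hc0, he4⟩, he1, he2⟩, ?_⟩
    rw [mul_comm c e']
    exact hl3
  · rintro ⟨l, e⟩ hx ⟨l', e'⟩ hy hxy
    simp only [coe_sigma, Set.mem_sigma_iff, mem_coe, mem_filter, mem_Ico] at hx hy
    simp only [Prod.mk.injEq] at hxy
    obtain ⟨h1, h2⟩ := hxy
    subst h2
    obtain ⟨c, rfl⟩ := hx.2.2.1
    obtain ⟨c', rfl⟩ := hy.2.2.1
    rw [Nat.mul_div_cancel_left c (by omega), Nat.mul_div_cancel_left c' (by omega)] at h1
    rw [h1]

private theorem sum_term {a b : ℕ} :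
    ∑ l ∈ lens a b, term a b l = ∑ l ∈ lens a b, 1 / (l : ℝ) -
      ∑ l ∈ lens a b, (1 / (l : ℝ)) *
        ∑ e ∈ (Ico 1 a).filter (fun e => e ∣ l ∧ l / e ≤ b), 2 / ((l / e : ℕ) : ℝ) := by
  rw [← Finset.sum_sub_distrib]
  refine sum_congr rfl fun l _ => ?_
  unfold term
  ring

theorem term_lower {a b : ℕ} (ha : 2 ≤ a) (hb : 2 ≤ b) (hab : 6 ≤ a * b) :
    Real.log 2 - 2 / ((a * b : ℝ) - 1) - hh b / a - 2 * s2 b * hh a
      ≤ ∑ l ∈ lens a b, term a b l + extra a b := by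
  have h1 := part1 ha hab
  have h2 := part2 (a := a) (b := b)
  rw [sum_term]
  have h3 : ∑ p ∈ ((Icc 1 b) ×ˢ (Ico 1 a)).filter (fun p => a * b < 2 * (p.1 * p.2)),
          2 / ((p.1 : ℝ) ^ 2 * (p.2 : ℝ)) ≤ 2 * s2 b * hh a := by
    have h4 : 2 * s2 b * hh a = ∑ p ∈ ((Icc 1 b).filter (fun d => b < 2 * d)) ×ˢ
        ((Ico 1 a).filter (fun d => a < 2 * d)), 2 / ((p.1 : ℝ) ^ 2 * (p.2 : ℝ)) := by
      unfold s2 hh
      rw [mul_assoc, Finset.sum_mul_sum, Finset.mul_sum, Finset.sum_product]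
      refine sum_congr rfl fun d _ => ?_
      rw [Finset.mul_sum]
      refine sum_congr rfl fun e _ => ?_
      rw [div_eq_mul_inv 2, mul_inv, one_div, one_div]
    rw [h4]
    refine Finset.sum_le_sum_of_subset_of_nonneg ?_ (fun p _ _ => by positivity)
    rintro ⟨d, e⟩ hp
    simp only [mem_filter, mem_product, mem_Icc, mem_Ico] at hp ⊢
    obtain ⟨⟨⟨hd1, hd2⟩, he1, he2⟩, h5⟩ := hp
    refine ⟨⟨⟨hd1, hd2⟩, ?_⟩, ⟨he1, he2⟩, ?_⟩
    · by_contra h
      push Not at h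
      have : 2 * (d * e) ≤ a * b := by
        calc 2 * (d * e) = (2 * d) * e := by ring
          _ ≤ b * a := Nat.mul_le_mul h he2.le
          _ = a * b := by ring
      omega
    · by_contra h
      push Not at h
      have : 2 * (d * e) ≤ a * b := by
        calc 2 * (d * e) = (2 * e) * d := by ring
          _ ≤ a * b := Nat.mul_le_mul h hd2
      omega
  linarith

/-- the case `b = 3` -/
theorem term_lower_three {a : ℕ} (ha : 2 ≤ a) :
    Real.log 2 - 2 / ((3 * a : ℝ) - 1) - 1 / (2 * a) - (1 / 6 + 2 / 9 * hh a)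
      ≤ ∑ l ∈ lens a 3, term a 3 l + extra a 3 := by
  have ha0 : (0 : ℝ) < a := by
    have : 0 < a := by omega
    exact_mod_cast this
  have h1 := part1 (a := a) (b := 3) ha (by omega)
  have h2 := part2 (a := a) (b := 3)
  rw [sum_term]
  have hhh : hh 3 = 1 / 2 := by
    unfold hh
    have : (Ico 1 3).filter (fun d => 3 < 2 * d) = {2} := by decide
    rw [this]
    simp
  have h3 : ∑ p ∈ ((Icc 1 3) ×ˢ (Ico 1 a)).filter (fun p : ℕ × ℕ => a * 3 < 2 * (p.1 * p.2)),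
          2 / ((p.1 : ℝ) ^ 2 * (p.2 : ℝ)) ≤ 1 / 6 + 2 / 9 * hh a := by
    have h4 : ∑ p ∈ ((Icc 1 3) ×ˢ (Ico 1 a)).filter (fun p : ℕ × ℕ => a * 3 < 2 * (p.1 * p.2)),
          2 / ((p.1 : ℝ) ^ 2 * (p.2 : ℝ)) =
        ∑ e ∈ (Ico 1 a).filter (fun e => a * 3 < 2 * (2 * e)), 2 / ((2 : ℝ) ^ 2 * (e : ℝ)) +
        ∑ e ∈ (Ico 1 a).filter (fun e => a * 3 < 2 * (3 * e)), 2 / ((3 : ℝ) ^ 2 * (e : ℝ)) := by
      rw [Finset.sum_filter, Finset.sum_product]
      have hI : Icc 1 3 = ({1, 2, 3} : Finset ℕ) := by decide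
      rw [hI, Finset.sum_insert (by decide), Finset.sum_insert (by decide),
        Finset.sum_singleton]
      have hz : ∑ y ∈ Ico 1 a, (if a * 3 < 2 * (((1, y) : ℕ × ℕ).1 * ((1, y) : ℕ × ℕ).2) then
          2 / ((((1, y) : ℕ × ℕ).1 : ℝ) ^ 2 * (((1, y) : ℕ × ℕ).2 : ℝ)) else 0) = 0 := by
        refine Finset.sum_eq_zero fun y hy => ?_
        simp only [mem_Ico] at hy
        rw [if_neg]
        simp only [one_mul]
        omega
      rw [hz, zero_add, ← Finset.sum_filter, ← Finset.sum_filter]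
      norm_num
    rw [h4]
    have h5 : ∑ e ∈ (Ico 1 a).filter (fun e => a * 3 < 2 * (3 * e)),
        2 / ((3 : ℝ) ^ 2 * (e : ℝ)) = 2 / 9 * hh a := by
      unfold hh
      rw [Finset.mul_sum]
      refine Finset.sum_congr ?_ fun e _ => ?_
      · ext e
        simp only [mem_filter, mem_Ico]
        omega
      · rw [div_mul_div_comm, mul_one]
        norm_num
    have h6 : ∑ e ∈ (Ico 1 a).filter (fun e => a * 3 < 2 * (2 * e)),
        2 / ((2 : ℝ) ^ 2 * (e : ℝ)) ≤ 1 / 6 := by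
      have hset : (Ico 1 a).filter (fun e => a * 3 < 2 * (2 * e)) = Ico (3 * a / 4 + 1) a := by
        ext e
        simp only [mem_filter, mem_Ico]
        omega
      rw [hset]
      have hcard : (((Ico (3 * a / 4 + 1) a).card : ℕ) : ℝ) ≤ ((a : ℝ) - 1) / 4 := by
        rw [Nat.card_Ico]
        have : 4 * (a - (3 * a / 4 + 1)) + 1 ≤ a := by omega
        have h' : (4 : ℝ) * ((a - (3 * a / 4 + 1) : ℕ) : ℝ) + 1 ≤ a := by exact_mod_cast this
        linarith
      calc ∑ e ∈ Ico (3 * a / 4 + 1) a, 2 / ((2 : ℝ) ^ 2 * (e : ℝ))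
          ≤ ∑ _e ∈ Ico (3 * a / 4 + 1) a, 2 / (3 * (a : ℝ)) := by
            refine Finset.sum_le_sum fun e he => ?_
            simp only [mem_Ico] at he
            have h7 : 3 * a ≤ 4 * e := by omega
            have h8 : (3 : ℝ) * a ≤ 4 * e := by exact_mod_cast h7
            apply div_le_div_of_nonneg_left (by norm_num) (by positivity)
            norm_num
            exact h8
        _ = ((Ico (3 * a / 4 + 1) a).card : ℝ) * (2 / (3 * (a : ℝ))) := by
            rw [Finset.sum_const, nsmul_eq_mul]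
        _ ≤ (((a : ℝ) - 1) / 4) * (2 / (3 * (a : ℝ))) :=
            mul_le_mul_of_nonneg_right hcard (by positivity)
        _ ≤ 1 / 6 := by
            rw [div_mul_div_comm, div_le_div_iff₀ (by positivity) (by norm_num)]
            nlinarith
    rw [h5]
    linarith
  have h9 : (1 : ℝ) / 2 / a = 1 / (2 * a) := by rw [div_div]
  rw [hhh, h9] at h1
  have h10 : (a : ℝ) * ((3 : ℕ) : ℝ) - 1 = 3 * a - 1 := by push_cast; ring
  rw [h10] at h1
  linarith

end Pool.Agent.ALT
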