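import Pool.Agent.ALT.BI1

/-! module ALT-I2: the inequality for imprimitive groups -/

namespace Pool.Agent.ALT

open Finset

/-- rational version of `term` -/
def BI2_termQ (a b l : ℕ) : ℚ :=
  (1 / l : ℚ) * (1 - ∑ e ∈ (Ico 1 a).filter (fun e => e ∣ l ∧ l / e ≤ b), 2 / ((l / e : ℕ) : ℚ))

/-- rational version of `extra` -/
def BI2_extraQ (a b : ℕ) : ℚ :=
  if Even (a * b) then 2 / ((a * b - 1 : ℕ) : ℚ) else 0

theorem BI2_term_cast (a b l : ℕ) : term a b l = (BI2_termQ a b l : ℝ) := by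
  unfold term BI2_termQ
  push_cast
  rfl

theorem BI2_extra_cast (a b : ℕ) : extra a b = (BI2_extraQ a b : ℝ) := by
  unfold extra BI2_extraQ
  split_ifs <;> push_cast <;> rfl

theorem BI2_tot_cast (a b : ℕ) : ∑ l ∈ lens a b, term a b l + extra a b =
    ((∑ l ∈ lens a b, BI2_termQ a b l + BI2_extraQ a b : ℚ) : ℝ) := by
  push_cast
  rw [BI2_extra_cast]
  congr 1
  exact Finset.sum_congr rfl fun l _ => BI2_term_cast a b l

theorem BI2_table : ∀ a ∈ Icc 2 15, ∀ b ∈ Icc 2 15, 6 ≤ a * b → ¬ (a = 3 ∧ b = 3) →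
    ¬ (a = 5 ∧ b = 3) →
    (7 / 25 : ℚ) ≤ ∑ l ∈ lens a b, BI2_termQ a b l + BI2_extraQ a b := by
  decide +kernel

/-- finite table -/
theorem term_table {a b : ℕ} (ha : 2 ≤ a) (hb : 2 ≤ b) (ha' : a ≤ 15) (hb' : b ≤ 15)
    (hab : 6 ≤ a * b) (h33 : ¬ (a = 3 ∧ b = 3)) (h53 : ¬ (a = 5 ∧ b = 3)) :
    (7 / 25 : ℝ) ≤ ∑ l ∈ lens a b, term a b l + extra a b := by
  rw [BI2_tot_cast]
  have h := BI2_table a (Finset.mem_Icc.2 ⟨ha, ha'⟩) b (Finset.mem_Icc.2 ⟨hb, hb'⟩) hab h33 h53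
  have h' : ((7 / 25 : ℚ) : ℝ) ≤
      ((∑ l ∈ lens a b, BI2_termQ a b l + BI2_extraQ a b : ℚ) : ℝ) := Rat.cast_le.2 h
  refine le_trans (le_of_eq ?_) h'
  norm_num

theorem BI2_hh_two : hh 2 = 0 := by
  unfold hh
  have : (Ico 1 2).filter (fun d => 2 < 2 * d) = ∅ := by decide
  rw [this, Finset.sum_empty]

theorem BI2_hh_three : hh 3 = 1 / 2 := by
  unfold hh
  have : (Ico 1 3).filter (fun d => 3 < 2 * d) = {2} := by decide
  rw [this, Finset.sum_singleton]
  norm_num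

theorem BI2_s2_two : s2 2 = 1 / 4 := by
  unfold s2
  have : (Icc 1 2).filter (fun d => 2 < 2 * d) = {2} := by decide
  rw [this, Finset.sum_singleton]
  norm_num

theorem BI2_s2_nonneg (b : ℕ) : 0 ≤ s2 b :=
  Finset.sum_nonneg fun _ _ => by positivity

/-- rational version of `s2` -/
def BI2_s2Q (b : ℕ) : ℚ := ∑ d ∈ (Icc 1 b).filter (fun d => b < 2 * d), 1 / (d : ℚ) ^ 2

theorem BI2_s2_cast (b : ℕ) : s2 b = (BI2_s2Q b : ℝ) := by
  unfold s2 BI2_s2Q
  push_cast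
  rfl

theorem BI2_s2_mid_table : ∀ b ∈ Icc 4 15, BI2_s2Q b ≤ 2137 / 10000 := by
  decide +kernel

theorem BI2_s2_mid {b : ℕ} (h4 : 4 ≤ b) (h15 : b ≤ 15) : s2 b ≤ 2137 / 10000 := by
  rw [BI2_s2_cast]
  have h := BI2_s2_mid_table b (Finset.mem_Icc.2 ⟨h4, h15⟩)
  have h' : (BI2_s2Q b : ℝ) ≤ ((2137 / 10000 : ℚ) : ℝ) := Rat.cast_le.2 h
  refine le_trans h' (le_of_eq ?_)
  norm_num

theorem BI2_s2_large {b : ℕ} (h16 : 16 ≤ b) : s2 b ≤ 663 / 10000 := by
  have hf : (Icc 1 b).filter (fun d => b < 2 * d) = Ioc (b / 2) b := by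
    ext d
    rw [Finset.mem_filter, Finset.mem_Icc, Finset.mem_Ioc]
    omega
  have h1 : s2 b ≤ ((b / 2 : ℕ) : ℝ)⁻¹ - (b : ℝ)⁻¹ := by
    unfold s2
    rw [hf]
    refine le_trans (le_of_eq ?_) (sum_Ioc_inv_sq_le_sub (by omega) (by omega))
    exact Finset.sum_congr rfl fun d _ => one_div _
  obtain ⟨m, hm⟩ : ∃ m : ℕ, m = b / 2 := ⟨_, rfl⟩
  rw [← hm] at h1
  have hm8 : 8 ≤ m := by omega
  have hbm : b ≤ 2 * m + 1 := by omega
  have hm8' : (8 : ℝ) ≤ m := by exact_mod_cast hm8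
  have hbm' : (b : ℝ) ≤ 2 * m + 1 := by exact_mod_cast hbm
  have hb0 : (0 : ℝ) < b := by
    have : 0 < b := by omega
    exact_mod_cast this
  have h2 : (2 * (m : ℝ) + 1)⁻¹ ≤ (b : ℝ)⁻¹ := inv_anti₀ hb0 hbm'
  have h3 : (m : ℝ)⁻¹ - (2 * (m : ℝ) + 1)⁻¹ ≤ 9 / 136 := by
    have hm0 : (0 : ℝ) < m := by linarith
    have hm1 : (0 : ℝ) < 2 * (m : ℝ) + 1 := by linarith
    have : (m : ℝ)⁻¹ - (2 * (m : ℝ) + 1)⁻¹ = ((m : ℝ) + 1) / (m * (2 * m + 1)) := by
      field_simp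
      ring
    rw [this, div_le_div_iff₀ (by positivity) (by norm_num)]
    nlinarith
  linarith

theorem term_large {a b : ℕ} (ha : 2 ≤ a) (hb : 2 ≤ b) (h : 16 ≤ a ∨ 16 ≤ b) :
    (7 / 25 : ℝ) ≤ ∑ l ∈ lens a b, term a b l + extra a b := by
  have hL1 := Real.log_two_gt_d9
  have hL2 := Real.log_two_lt_d9
  have hab : 6 ≤ a * b := by
    rcases h with h | h
    · nlinarith
    · nlinarith
  have hlow := term_lower ha hb hab
  have hha0 := hh_nonneg a
  have hha := hh_le a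
  have hhb0 := hh_nonneg b
  have hhb := hh_le b
  have hs0 := BI2_s2_nonneg b
  have ha' : (2 : ℝ) ≤ a := by exact_mod_cast ha
  have hb' : (2 : ℝ) ≤ b := by exact_mod_cast hb
  have ha0 : (0 : ℝ) < a := by linarith
  have hD : ∀ c : ℝ, 0 < c → c ≤ (a : ℝ) * b - 1 → 2 / ((a : ℝ) * b - 1) ≤ 2 / c :=
    fun c hc h => div_le_div_of_nonneg_left (by norm_num) hc h
  have hE : ∀ c : ℝ, 0 < c → c ≤ (a : ℝ) → hh b / a ≤ Real.log 2 / c := fun c hc h =>
    div_le_div₀ (by linarith) hhb hc h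
  by_cases hb16 : 16 ≤ b
  · refine le_trans ?_ hlow
    have hs := BI2_s2_large hb16
    have hb16' : (16 : ℝ) ≤ b := by exact_mod_cast hb16
    by_cases ha2 : a = 2
    · have h1 := hD 31 (by norm_num) (by nlinarith)
      have h2 := hE 2 (by norm_num) ha'
      have h3 : hh a = 0 := by rw [ha2]; exact BI2_hh_two
      rw [h3]
      linarith
    by_cases ha3 : a = 3
    · have h3a : (3 : ℝ) ≤ a := by rw [ha3]; norm_num
      have h1 := hD 47 (by norm_num) (by nlinarith)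
      have h2 := hE 3 (by norm_num) h3a
      have h3 : hh a = 1 / 2 := by rw [ha3]; exact BI2_hh_three
      rw [h3]
      linarith
    · have ha4 : (4 : ℝ) ≤ a := by
        have : 4 ≤ a := by omega
        exact_mod_cast this
      have h1 := hD 63 (by norm_num) (by nlinarith)
      have h2 := hE 4 (by norm_num) ha4
      have h3 : s2 b * hh a ≤ 663 / 10000 * Real.log 2 := mul_le_mul hs hha hha0 (by norm_num)
      linarith
  · have ha16 : 16 ≤ a := by
      rcases h with h | h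
      · exact h
      · exact absurd h hb16
    have ha16' : (16 : ℝ) ≤ a := by exact_mod_cast ha16
    by_cases hb2 : b = 2
    · refine le_trans ?_ hlow
      have h1 := hD 31 (by norm_num) (by nlinarith)
      have h2 : hh b = 0 := by rw [hb2]; exact BI2_hh_two
      have h3 : s2 b = 1 / 4 := by rw [hb2]; exact BI2_s2_two
      rw [h2, h3, zero_div]
      linarith
    by_cases hb3 : b = 3
    · subst hb3
      refine le_trans ?_ (term_lower_three ha)
      have h1 : 2 / ((3 * a : ℝ) - 1) ≤ 2 / 47 :=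
        div_le_div_of_nonneg_left (by norm_num) (by norm_num) (by linarith)
      have h2 : 1 / (2 * (a : ℝ)) ≤ 1 / 32 :=
        div_le_div_of_nonneg_left (by norm_num) (by norm_num) (by linarith)
      linarith
    · refine le_trans ?_ hlow
      have hb4 : 4 ≤ b := by omega
      have hb4' : (4 : ℝ) ≤ b := by exact_mod_cast hb4
      have hs := BI2_s2_mid hb4 (by omega)
      have h1 := hD 63 (by norm_num) (by nlinarith)
      have h2 := hE 16 (by norm_num) ha16'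
      have h3 : s2 b * hh a ≤ 2137 / 10000 * Real.log 2 := mul_le_mul hs hha hha0 (by norm_num)
      linarith

end Pool.Agent.ALT
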