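import Pool.Agent.ALT.Base3

/-! module ALT-X: degree 15, blocks of size 5 -/

namespace Pool.Agent.ALT

open Equiv Finset

/-- several parts cannot exceed the sum -/
theorem sum_ge_of_count {μ : Multiset ℕ} {i j : ℕ} (hij : i ≠ j) :
    μ.count i * i + μ.count j * j ≤ μ.sum := by
  have h : Multiset.replicate (μ.count i) i + Multiset.replicate (μ.count j) j ≤ μ := by
    rw [Multiset.le_iff_count]
    intro a
    rw [Multiset.count_add, Multiset.count_replicate, Multiset.count_replicate]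
    by_cases h1 : i = a
    · subst h1
      rw [if_pos rfl, if_neg (Ne.symm hij)]
      omega
    · rw [if_neg h1]
      by_cases h2 : j = a
      · subst h2
        rw [if_pos rfl]
        omega
      · rw [if_neg h2]
        omega
  obtain ⟨ν, hν⟩ := Multiset.le_iff_exists_add.1 h
  have := congrArg Multiset.sum hν
  rw [Multiset.sum_add, Multiset.sum_add, Multiset.sum_replicate, Multiset.sum_replicate,
    smul_eq_mul, smul_eq_mul] at this
  omega

theorem special53 :
    (7 / 25 : ℝ) ≤ avC 15 1 (ind (fun μ => 7 ∈ μ ∨ 11 ∈ μ ∨ 13 ∈ μ)) := by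
  have key : avC 15 1 (fun μ => ((μ.count 11 : ℝ) * (fun _ => (1:ℝ)) (μ.erase 11)
        + (μ.count 13 : ℝ) * (fun _ => (1:ℝ)) (μ.erase 13))
        + ((μ.count 7 : ℝ) * (fun ν => 1 - (1 / 2) * ((ν.count 7 : ℝ) *
          (fun _ => (1:ℝ)) (ν.erase 7))) (μ.erase 7)))
      ≤ avC 15 1 (ind (fun μ => 7 ∈ μ ∨ 11 ∈ μ ∨ 13 ∈ μ)) := by
    apply avC_mono (by simp)
    intro μ hs hpos
    have h1 := sum_ge_of_count (μ := μ) (i := 7) (j := 11) (by norm_num)
    have h2 := sum_ge_of_count (μ := μ) (i := 7) (j := 13) (by norm_num)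
    have h3 := sum_ge_of_count (μ := μ) (i := 11) (j := 13) (by norm_num)
    rw [hs] at h1 h2 h3
    have e : (μ.erase 7).count 7 = μ.count 7 - 1 := Multiset.count_erase_self ..
    simp only [e, mul_one]
    have c7 : μ.count 7 ≤ 2 := by omega
    have c11 : μ.count 11 ≤ 1 := by omega
    have c13 : μ.count 13 ≤ 1 := by omega
    by_cases hP : 7 ∈ μ ∨ 11 ∈ μ ∨ 13 ∈ μ
    · rw [ind_pos hP]
      generalize μ.count 7 = x at *
      generalize μ.count 11 = y at *
      generalize μ.count 13 = z at *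
      interval_cases x <;> interval_cases y <;> interval_cases z <;> first | omega | norm_num
    · rw [ind_neg hP]
      push Not at hP
      obtain ⟨p1, p2, p3⟩ := hP
      rw [← Multiset.count_eq_zero] at p1 p2 p3
      rw [p1, p2, p3]
      norm_num
  refine le_trans ?_ key
  rw [avC_add, avC_add]
  have a11 := avC_count (n := 15) (l := 11) (by norm_num) (by norm_num) 1 (fun _ => (1:ℝ))
  have a13 := avC_count (n := 15) (l := 13) (by norm_num) (by norm_num) 1 (fun _ => (1:ℝ))
  have a7 := avC_count (n := 15) (l := 7) (by norm_num) (by norm_num) 1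
    (fun ν => 1 - (1 / 2) * ((ν.count 7 : ℝ) * (fun _ => (1:ℝ)) (ν.erase 7)))
  rw [a11, a13, a7]
  have e1 : (1 : ℝ) * (-1) ^ (11 + 1) = 1 := by norm_num
  have e2 : (1 : ℝ) * (-1) ^ (13 + 1) = 1 := by norm_num
  have e3 : (1 : ℝ) * (-1) ^ (7 + 1) = 1 := by norm_num
  have b7 := avC_count (n := 8) (l := 7) (by norm_num) (by norm_num) 1 (fun _ => (1:ℝ))
  have b8 : avC (15 - 7) 1 (fun ν => 1 - (1 / 2) * ((ν.count 7 : ℝ) *
      (fun _ => (1:ℝ)) (ν.erase 7))) = 1 - (1 / 2) * (2 / 7) := by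
    rw [avC_sub, avC_mul_left, avC_one (by norm_num), show 15 - 7 = 8 by norm_num, b7, e3,
      show 8 - 7 = 1 by norm_num, avC_one']
    norm_num
  rw [e1, e2, e3, b8, avC_one (by norm_num), avC_one (by norm_num)]
  norm_num

end Pool.Agent.ALT
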