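import Pool.Agent.ALT.Defs

/-! module ALT-B1: cycle types and their number -/

namespace Pool.Agent.ALT

open Equiv Finset

theorem pt_sum {n : ℕ} (σ : Perm (Fin n)) : (pt σ).sum = n := by
  exact σ.partition.parts_sum.trans (Fintype.card_fin n)

theorem pt_pos {n : ℕ} (σ : Perm (Fin n)) : ∀ i ∈ pt σ, 0 < i := by
  intro i hi
  exact σ.partition.parts_pos hi

theorem pt_eq {n : ℕ} (σ : Perm (Fin n)) :
    pt σ = σ.cycleType + Multiset.replicate (n - σ.support.card) 1 := by
  have h := Perm.parts_partition (σ := σ)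
  have h2 : Fintype.card (Fin n) = n := Fintype.card_fin n
  unfold pt
  rw [h]
  simp only [Fintype.card_fin]

theorem sg_pt {n : ℕ} (σ : Perm (Fin n)) :
    sg (pt σ) = (((Perm.sign σ : ℤˣ) : ℤ) : ℝ) := by
  have h := Perm.sign_of_cycleType σ
  rw [h]
  unfold sg
  rw [pt_eq, Multiset.sum_add, Multiset.card_add, Multiset.sum_replicate, Multiset.card_replicate]
  have : σ.cycleType.sum + (n - σ.support.card) • 1 +
      (Multiset.card σ.cycleType + (n - σ.support.card)) =
      (σ.cycleType.sum + Multiset.card σ.cycleType) + 2 * (n - σ.support.card) := by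
    simp only [smul_eq_mul, mul_one]
    ring
  rw [this, pow_add, pow_mul]
  simp

theorem pt_conj {n : ℕ} (σ τ : Perm (Fin n)) : pt (τ * σ * τ⁻¹) = pt σ := by
  have h : IsConj σ (τ * σ * τ⁻¹) := isConj_iff.2 ⟨τ, rfl⟩
  have h2 := (Perm.partition_eq_of_isConj.1 h)
  unfold pt
  rw [h2]

theorem pt_filter {n : ℕ} (σ : Perm (Fin n)) :
    (pt σ).filter (fun i => 2 ≤ i) = σ.cycleType :=
  Perm.filter_parts_partition_eq_cycleType

/-- a multiset of positive integers is its part `≥ 2` plus ones -/
theorem eq_filter_add_ones (μ : Multiset ℕ) (h0 : ∀ i ∈ μ, 0 < i) :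
    μ = μ.filter (fun i => 2 ≤ i) + Multiset.replicate (μ.count 1) 1 := by
  ext i
  rw [Multiset.count_add, Multiset.count_filter, Multiset.count_replicate]
  by_cases h1 : i = 1
  · subst h1; simp
  · by_cases h2 : 2 ≤ i
    · rw [if_pos h2, if_neg (by omega)]; simp
    · have : i = 0 := by omega
      subst this
      rw [if_neg h2, if_neg (by omega)]
      rw [Multiset.count_eq_zero]
      intro h
      exact absurd (h0 0 h) (by omega)

theorem ones_count (μ : Multiset ℕ) (h0 : ∀ i ∈ μ, 0 < i) :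
    μ.sum = (μ.filter (fun i => 2 ≤ i)).sum + μ.count 1 := by
  have h := congrArg Multiset.sum (eq_filter_add_ones μ h0)
  rw [Multiset.sum_add, Multiset.sum_replicate] at h
  simpa using h

theorem pt_eq_iff {n : ℕ} (μ : Multiset ℕ) (h0 : ∀ i ∈ μ, 0 < i) (hs : μ.sum = n)
    (σ : Perm (Fin n)) :
    pt σ = μ ↔ σ.cycleType = μ.filter (fun i => 2 ≤ i) := by
  constructor
  · intro h
    rw [← h, pt_filter]
  · intro h
    rw [eq_filter_add_ones μ h0, eq_filter_add_ones (pt σ) (pt_pos σ), pt_filter, h]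
    congr 2
    have h1 := ones_count μ h0
    have h2 := ones_count (pt σ) (pt_pos σ)
    rw [pt_sum, pt_filter, h] at h2
    rw [hs] at h1
    omega

theorem prod_filter_two (μ : Multiset ℕ) (h0 : ∀ i ∈ μ, 0 < i) :
    (μ.filter (fun i => 2 ≤ i)).prod = μ.prod := by
  have h := congrArg Multiset.prod (eq_filter_add_ones μ h0)
  rw [Multiset.prod_add, Multiset.prod_replicate, one_pow, mul_one] at h
  exact h.symm

theorem fact_filter_two (μ : Multiset ℕ) (h0 : ∀ i ∈ μ, 0 < i) :
    (μ.count 1).factorial * (∏ i ∈ (μ.filter (fun i => 2 ≤ i)).toFinset,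
      ((μ.filter (fun i => 2 ≤ i)).count i).factorial) =
    ∏ i ∈ μ.toFinset, (μ.count i).factorial := by
  have h1 : ∏ i ∈ (μ.filter (fun i => 2 ≤ i)).toFinset,
      ((μ.filter (fun i => 2 ≤ i)).count i).factorial =
      ∏ i ∈ μ.toFinset.filter (fun i => 2 ≤ i), (μ.count i).factorial := by
    rw [Multiset.toFinset_filter]
    apply Finset.prod_congr rfl
    intro i hi
    rw [Multiset.count_filter, if_pos (Finset.mem_filter.1 hi).2]
  rw [h1]
  have h2 := Finset.prod_filter_mul_prod_filter_not μ.toFinset (fun i => 2 ≤ i)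
    (fun i => (μ.count i).factorial)
  rw [← h2, mul_comm]
  congr 1
  by_cases h : 1 ∈ μ
  · have : μ.toFinset.filter (fun i => ¬ 2 ≤ i) = {1} := by
      ext i
      simp only [Finset.mem_filter, Multiset.mem_toFinset, Finset.mem_singleton]
      constructor
      · rintro ⟨h3, h4⟩
        have := h0 i h3
        omega
      · rintro rfl
        exact ⟨h, by omega⟩
    rw [this, Finset.prod_singleton]
  · have h4 : μ.toFinset.filter (fun i => ¬ 2 ≤ i) = ∅ := by
      rw [Finset.filter_eq_empty_iff]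
      intro i hi
      rw [Multiset.mem_toFinset] at hi
      have h5 := h0 i hi
      have : i ≠ 1 := fun h6 => h (h6 ▸ hi)
      omega
    rw [h4, Finset.prod_empty, Multiset.count_eq_zero.2 h]
    rfl

/-- number of permutations with given cycle type -/
theorem card_pt {n : ℕ} (μ : Multiset ℕ) (h0 : ∀ i ∈ μ, 0 < i) (hs : μ.sum = n) :
    ((univ.filter (fun σ : Perm (Fin n) => pt σ = μ)).card : ℝ) = n.factorial * wt μ := by
  have h1 : univ.filter (fun σ : Perm (Fin n) => pt σ = μ) =
      univ.filter (fun σ : Perm (Fin n) => σ.cycleType = μ.filter (fun i => 2 ≤ i)) := by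
    apply Finset.filter_congr
    intro σ _
    exact pt_eq_iff μ h0 hs σ
  rw [h1]
  have h2 := Perm.card_of_cycleType_mul_eq (Fin n) (μ.filter (fun i => 2 ≤ i))
  have h3 := ones_count μ h0
  rw [Fintype.card_fin, if_pos, prod_filter_two μ h0] at h2
  · have h4 : n - (μ.filter (fun i => 2 ≤ i)).sum = μ.count 1 := by omega
    rw [h4] at h2
    have h5 := fact_filter_two μ h0
    have h6 : (univ.filter (fun σ : Perm (Fin n) =>
        σ.cycleType = μ.filter (fun i => 2 ≤ i))).card *
        (μ.prod * ∏ i ∈ μ.toFinset, (μ.count i).factorial) = n.factorial := by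
      rw [← h5, ← h2]
      ring
    have h7 : ((univ.filter (fun σ : Perm (Fin n) =>
        σ.cycleType = μ.filter (fun i => 2 ≤ i))).card : ℝ) *
        ((μ.prod : ℝ) * ∏ i ∈ μ.toFinset, ((μ.count i).factorial : ℝ)) = n.factorial := by
      exact_mod_cast h6
    unfold wt
    have hp : (0 : ℝ) < (μ.prod : ℝ) * ∏ i ∈ μ.toFinset, ((μ.count i).factorial : ℝ) := by
      apply mul_pos
      · have : 0 < μ.prod := Multiset.prod_pos (fun a ha => h0 a ha)
        exact_mod_cast this
      · apply Finset.prod_pos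
        intro i _
        exact_mod_cast Nat.factorial_pos _
    rw [← h7, mul_assoc, mul_one_div_cancel hp.ne', mul_one]
  · refine ⟨by omega, ?_⟩
    intro a ha
    exact (Multiset.mem_filter.1 ha).2

theorem avg_eq_sum_wt (n : ℕ) (f : Multiset ℕ → ℝ) :
    avg n f = ∑ p : n.Partition, f p.parts * wt p.parts := by
  unfold avg
  let P : Perm (Fin n) → n.Partition := fun σ =>
    ⟨pt σ, fun {i} hi => pt_pos σ i hi, pt_sum σ⟩
  have h1 : ∑ σ : Perm (Fin n), f (pt σ) =
      ∑ p : n.Partition, ∑ σ ∈ univ.filter (fun σ : Perm (Fin n) => P σ = p), f (pt σ) :=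
    (Finset.sum_fiberwise _ _ _).symm
  rw [h1, Finset.sum_div]
  apply Finset.sum_congr rfl
  intro p _
  have h2 : univ.filter (fun σ : Perm (Fin n) => P σ = p) =
      univ.filter (fun σ : Perm (Fin n) => pt σ = p.parts) := by
    apply Finset.filter_congr
    intro σ _
    rw [Nat.Partition.ext_iff]
  have h3 : ∑ σ ∈ univ.filter (fun σ : Perm (Fin n) => P σ = p), f (pt σ) =
      ((univ.filter (fun σ : Perm (Fin n) => pt σ = p.parts)).card : ℝ) * f p.parts := by
    rw [h2, Finset.sum_congr rfl (g := fun _ => f p.parts), Finset.sum_const, nsmul_eq_mul]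
    intro σ hσ
    rw [(Finset.mem_filter.1 hσ).2]
  rw [h3, card_pt p.parts (fun i hi => p.parts_pos hi) p.parts_sum]
  have : (n.factorial : ℝ) ≠ 0 := by exact_mod_cast (Nat.factorial_pos n).ne'
  field_simp

end Pool.Agent.ALT
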