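import Pool.Agent.ALT.Base1

/-! module ALT-B2: the basic identity -/

namespace Pool.Agent.ALT

open Equiv Finset

private theorem b2_prod_eq (μ : Multiset ℕ) (s : Finset ℕ) (h : μ.toFinset ⊆ s) :
    ∏ i ∈ μ.toFinset, ((μ.count i).factorial : ℝ) = ∏ i ∈ s, ((μ.count i).factorial : ℝ) := by
  refine Finset.prod_subset h fun i _ hi => ?_
  rw [Multiset.mem_toFinset] at hi
  rw [Multiset.count_eq_zero_of_notMem hi, Nat.factorial_zero, Nat.cast_one]

private theorem b2_wt_cons {l : ℕ} (hl : 1 ≤ l) (μ : Multiset ℕ) :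
    ((μ.count l : ℝ) + 1) * wt (l ::ₘ μ) = wt μ / l := by
  have hl0 : (l : ℝ) ≠ 0 := by positivity
  unfold wt
  have hs : (l ::ₘ μ).toFinset = insert l μ.toFinset := Multiset.toFinset_cons l μ
  rw [hs, b2_prod_eq μ (insert l μ.toFinset) (Finset.subset_insert _ _),
    ← Finset.mul_prod_erase (insert l μ.toFinset) (fun i => (((l ::ₘ μ).count i).factorial : ℝ))
      (Finset.mem_insert_self _ _),
    ← Finset.mul_prod_erase (insert l μ.toFinset) (fun i => ((μ.count i).factorial : ℝ))
      (Finset.mem_insert_self _ _)]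
  have he : ∏ i ∈ (insert l μ.toFinset).erase l, (((l ::ₘ μ).count i).factorial : ℝ) =
      ∏ i ∈ (insert l μ.toFinset).erase l, ((μ.count i).factorial : ℝ) := by
    refine Finset.prod_congr rfl fun i hi => ?_
    rw [Multiset.count_cons_of_ne (Finset.ne_of_mem_erase hi)]
  rw [he, Multiset.count_cons_self, Nat.factorial_succ, Multiset.prod_cons]
  set P : ℝ := ∏ i ∈ (insert l μ.toFinset).erase l, ((μ.count i).factorial : ℝ) with hP
  have hc : ((μ.count l : ℝ) + 1) ≠ 0 := by positivity
  push_cast
  rw [mul_one_div, div_div]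
  have e : ∀ A f : ℝ, (l : ℝ) * A * (((μ.count l : ℝ) + 1) * f * P) =
      ((μ.count l : ℝ) + 1) * (A * (f * P) * l) := fun A f => by ring
  rw [e, ← div_div, div_self hc]

theorem avg_count {n l : ℕ} (hl : 1 ≤ l) (hn : l ≤ n) (g : Multiset ℕ → ℝ) :
    avg n (fun μ => (μ.count l : ℝ) * g (μ.erase l)) = avg (n - l) g / l := by
  rw [avg_eq_sum_wt, avg_eq_sum_wt, Finset.sum_div]
  classical
  have h1 : ∑ p : n.Partition, (p.parts.count l : ℝ) * g (p.parts.erase l) * wt p.parts =
      ∑ p ∈ univ.filter (fun p : n.Partition => l ∈ p.parts),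
        (p.parts.count l : ℝ) * g (p.parts.erase l) * wt p.parts := by
    symm
    refine Finset.sum_subset (Finset.filter_subset _ _) fun p _ hp => ?_
    have : l ∉ p.parts := fun h => hp (Finset.mem_filter.2 ⟨Finset.mem_univ _, h⟩)
    rw [Multiset.count_eq_zero_of_notMem this]
    simp
  rw [h1]
  refine Finset.sum_bij' (fun p hp => (⟨p.parts.erase l, fun {i} hi =>
      p.parts_pos (Multiset.mem_of_mem_erase hi), ?_⟩ : (n - l).Partition))
    (fun q _ => (⟨l ::ₘ q.parts, fun {i} hi => ?_, ?_⟩ : n.Partition)) ?_ ?_ ?_ ?_ ?_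
  · have hp' := (Finset.mem_filter.1 hp).2
    have h2 := congrArg Multiset.sum (Multiset.cons_erase hp')
    rw [Multiset.sum_cons, p.parts_sum] at h2
    omega
  · rcases Multiset.mem_cons.1 hi with rfl | h
    · exact hl
    · exact q.parts_pos h
  · rw [Multiset.sum_cons, q.parts_sum]
    omega
  · intro p hp
    exact Finset.mem_univ _
  · intro q hq
    refine Finset.mem_filter.2 ⟨Finset.mem_univ _, ?_⟩
    exact Multiset.mem_cons_self _ _
  · intro p hp
    have hp' := (Finset.mem_filter.1 hp).2
    ext1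
    exact Multiset.cons_erase hp'
  · intro q hq
    ext1
    exact Multiset.erase_cons_head _ _
  · intro p hp
    have hp' := (Finset.mem_filter.1 hp).2
    show (p.parts.count l : ℝ) * g (p.parts.erase l) * wt p.parts =
      g (p.parts.erase l) * wt (p.parts.erase l) / l
    have h2 := b2_wt_cons hl (p.parts.erase l)
    rw [Multiset.cons_erase hp'] at h2
    have h3 : (p.parts.count l : ℝ) = ((p.parts.erase l).count l : ℝ) + 1 := by
      have h4 : p.parts.count l = (p.parts.erase l).count l + 1 := by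
        conv_lhs => rw [← Multiset.cons_erase hp']
        exact Multiset.count_cons_self _ _
      rw [h4]
      push_cast
      ring
    rw [h3]
    calc ((p.parts.erase l).count l + 1 : ℝ) * g (p.parts.erase l) * wt p.parts =
        g (p.parts.erase l) * (((p.parts.erase l).count l + 1 : ℝ) * wt p.parts) := by ring
      _ = _ := by rw [h2]; ring

end Pool.Agent.ALT
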