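import Pool.Agent.ALT.Base2

/-! module ALT-B3: calculus of `avC` -/

namespace Pool.Agent.ALT

open Equiv Finset

theorem avg_congr {n : ℕ} {f g : Multiset ℕ → ℝ}
    (h : ∀ μ : Multiset ℕ, μ.sum = n → (∀ i ∈ μ, 0 < i) → f μ = g μ) :
    avg n f = avg n g := by
  unfold avg
  congr 1
  apply Finset.sum_congr rfl
  intro σ _
  exact h _ (pt_sum σ) (pt_pos σ)

theorem avg_mono {n : ℕ} {f g : Multiset ℕ → ℝ}
    (h : ∀ μ : Multiset ℕ, μ.sum = n → (∀ i ∈ μ, 0 < i) → f μ ≤ g μ) :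
    avg n f ≤ avg n g := by
  unfold avg
  apply div_le_div_of_nonneg_right _ (Nat.cast_nonneg _)
  apply Finset.sum_le_sum
  intro σ _
  exact h _ (pt_sum σ) (pt_pos σ)

theorem avg_add (n : ℕ) (f g : Multiset ℕ → ℝ) :
    avg n (fun μ => f μ + g μ) = avg n f + avg n g := by
  unfold avg
  rw [Finset.sum_add_distrib, add_div]

theorem avg_mul_left (n : ℕ) (a : ℝ) (f : Multiset ℕ → ℝ) :
    avg n (fun μ => a * f μ) = a * avg n f := by
  unfold avg
  rw [← Finset.mul_sum, mul_div_assoc]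

theorem sg_cases (μ : Multiset ℕ) : sg μ = 1 ∨ sg μ = -1 := by
  unfold sg
  rcases Nat.even_or_odd (μ.sum + Multiset.card μ) with h | h
  · left; exact h.neg_one_pow
  · right; exact h.neg_one_pow

theorem abs_sg (μ : Multiset ℕ) : |sg μ| = 1 := by
  rcases sg_cases μ with h | h <;> rw [h] <;> norm_num

theorem one_add_nonneg {c : ℝ} (hc : |c| ≤ 1) (μ : Multiset ℕ) : 0 ≤ 1 + c * sg μ := by
  have := abs_le.1 hc
  rcases sg_cases μ with h | h <;> rw [h] <;> linarith [this.1, this.2]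

theorem one_add_le_two {c : ℝ} (hc : |c| ≤ 1) (μ : Multiset ℕ) : 1 + c * sg μ ≤ 2 := by
  have := abs_le.1 hc
  rcases sg_cases μ with h | h <;> rw [h] <;> linarith [this.1, this.2]

theorem sg_cons (l : ℕ) (μ : Multiset ℕ) : sg (l ::ₘ μ) = (-1) ^ (l + 1) * sg μ := by
  unfold sg
  rw [Multiset.sum_cons, Multiset.card_cons, ← pow_add]
  congr 1
  ring

theorem avC_c_zero (n : ℕ) (f : Multiset ℕ → ℝ) : avC n 0 f = avg n f := by
  unfold avC
  congr 1
  ext μ
  ring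

theorem avC_count {n l : ℕ} (hl : 1 ≤ l) (hn : l ≤ n) (c : ℝ) (g : Multiset ℕ → ℝ) :
    avC n c (fun μ => (μ.count l : ℝ) * g (μ.erase l))
      = avC (n - l) (c * (-1) ^ (l + 1)) g / l := by
  unfold avC
  rw [← avg_count hl hn]
  apply avg_congr
  intro μ _ _
  beta_reduce
  by_cases h : l ∈ μ
  · obtain ⟨ν, rfl⟩ := Multiset.exists_cons_of_mem h
    rw [Multiset.erase_cons_head, sg_cons]
    ring
  · rw [Multiset.count_eq_zero.2 h]
    simp only [Nat.cast_zero, zero_mul, mul_zero]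

theorem avC_congr {n : ℕ} {c : ℝ} {f g : Multiset ℕ → ℝ}
    (h : ∀ μ : Multiset ℕ, μ.sum = n → (∀ i ∈ μ, 0 < i) → f μ = g μ) :
    avC n c f = avC n c g := by
  unfold avC
  apply avg_congr
  intro μ h1 h2
  rw [h μ h1 h2]

theorem avC_add (n : ℕ) (c : ℝ) (f g : Multiset ℕ → ℝ) :
    avC n c (fun μ => f μ + g μ) = avC n c f + avC n c g := by
  unfold avC
  rw [← avg_add]
  congr 1
  ext μ
  ring

theorem avC_mul_left (n : ℕ) (c a : ℝ) (f : Multiset ℕ → ℝ) :
    avC n c (fun μ => a * f μ) = a * avC n c f := by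
  unfold avC
  rw [← avg_mul_left]
  congr 1
  ext μ
  ring

theorem avC_sub (n : ℕ) (c : ℝ) (f g : Multiset ℕ → ℝ) :
    avC n c (fun μ => f μ - g μ) = avC n c f - avC n c g := by
  have h1 : avC n c (fun μ => f μ - g μ) = avC n c (fun μ => f μ + (-1) * g μ) := by
    congr 1
    ext μ
    ring
  rw [h1, avC_add, avC_mul_left]
  ring

theorem avC_sum {ι : Type*} (s : Finset ι) (n : ℕ) (c : ℝ) (f : ι → Multiset ℕ → ℝ) :
    avC n c (fun μ => ∑ i ∈ s, f i μ) = ∑ i ∈ s, avC n c (f i) := by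
  unfold avC avg
  rw [← Finset.sum_div, Finset.sum_comm]
  congr 1
  apply Finset.sum_congr rfl
  intro σ _
  beta_reduce
  rw [Finset.mul_sum]

theorem avC_rec (n : ℕ) (c : ℝ) (f : Multiset ℕ → ℝ) :
    (n : ℝ) * avC n c f
      = ∑ l ∈ Icc 1 n, avC (n - l) (c * (-1) ^ (l + 1)) (fun μ => f (l ::ₘ μ)) := by
  rw [← avC_mul_left]
  have h1 : avC n c (fun μ => (n : ℝ) * f μ) = avC n c (fun μ => ∑ l ∈ Icc 1 n,
      (l : ℝ) * ((μ.count l : ℝ) * f (l ::ₘ μ.erase l))) := by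
    apply avC_congr
    intro μ hs h0
    have h2 : μ.sum = ∑ l ∈ Icc 1 n, μ.count l • l := by
      apply Finset.sum_multiset_count_of_subset
      intro i hi
      rw [Multiset.mem_toFinset] at hi
      rw [Finset.mem_Icc]
      exact ⟨h0 i hi, hs ▸ Multiset.single_le_sum (fun _ _ => Nat.zero_le _) i hi⟩
    have h3 : (n : ℝ) = ∑ l ∈ Icc 1 n, (μ.count l : ℝ) * (l : ℝ) := by
      have h4 : n = ∑ l ∈ Icc 1 n, μ.count l * l := by
        simp only [smul_eq_mul] at h2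
        exact hs.symm.trans h2
      exact_mod_cast h4
    rw [h3, Finset.sum_mul]
    apply Finset.sum_congr rfl
    intro l _
    by_cases h : l ∈ μ
    · rw [Multiset.cons_erase h]; ring
    · rw [Multiset.count_eq_zero.2 h]; simp
  rw [h1, avC_sum]
  apply Finset.sum_congr rfl
  intro l hl
  rw [Finset.mem_Icc] at hl
  rw [avC_mul_left, avC_count hl.1 hl.2 c (fun ν => f (l ::ₘ ν))]
  have : (l : ℝ) ≠ 0 := by
    have : 0 < l := hl.1
    exact_mod_cast this.ne'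
  field_simp

theorem avg_one (n : ℕ) : avg n (fun _ => 1) = 1 := by
  unfold avg
  rw [Finset.sum_const, nsmul_eq_mul, mul_one, Finset.card_univ, Fintype.card_perm,
    Fintype.card_fin]
  exact div_self (by exact_mod_cast (Nat.factorial_pos n).ne')

theorem avg_sg {n : ℕ} (hn : 2 ≤ n) : avg n sg = 0 := by
  unfold avg
  have h1 : ∑ σ : Perm (Fin n), sg (pt σ) = 0 := by
    obtain ⟨m, rfl⟩ : ∃ m, n = m + 2 := ⟨n - 2, by omega⟩
    let τ : Perm (Fin (m + 2)) := swap 0 1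
    have h2 : ∑ σ : Perm (Fin (m + 2)), sg (pt σ) = ∑ σ : Perm (Fin (m + 2)), sg (pt (τ * σ)) :=
      (Equiv.sum_comp (Equiv.mulLeft τ) (fun σ => sg (pt σ))).symm
    have h3 : ∀ σ : Perm (Fin (m + 2)), sg (pt (τ * σ)) = - sg (pt σ) := by
      intro σ
      rw [sg_pt, sg_pt, Perm.sign_mul]
      have : Perm.sign τ = -1 := Perm.sign_swap (by
        intro h
        have := congrArg Fin.val h
        simp at this)
      rw [this]
      simp
    rw [Finset.sum_congr rfl (fun σ _ => h3 σ), Finset.sum_neg_distrib] at h2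
    linarith
  rw [h1, zero_div]

theorem avC_one {n : ℕ} (hn : 2 ≤ n) (c : ℝ) : avC n c (fun _ => 1) = 1 := by
  have h1 : avC n c (fun _ => 1) = avg n (fun μ => 1 + c * sg μ) := by
    unfold avC
    congr 1
    ext μ
    ring
  rw [h1, avg_add n (fun _ => 1) (fun μ => c * sg μ), avg_one, avg_mul_left, avg_sg hn]
  ring

theorem avg_subsingleton {n : ℕ} [Subsingleton (Perm (Fin n))] (hn : n.factorial = 1)
    (f : Multiset ℕ → ℝ) (μ : Multiset ℕ) (hμ : pt (1 : Perm (Fin n)) = μ) :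
    avg n f = f μ := by
  unfold avg
  rw [Fintype.sum_subsingleton _ (1 : Perm (Fin n)), hμ, hn]
  simp

theorem pt_zero_one : pt (1 : Perm (Fin 0)) = 0 := by
  have h1 := pt_sum (1 : Perm (Fin 0))
  have h2 := pt_pos (1 : Perm (Fin 0))
  rw [Multiset.eq_zero_iff_forall_notMem]
  intro i hi
  have h3 := Multiset.single_le_sum (fun _ _ => Nat.zero_le _) i hi
  have h4 := h2 i hi
  omega

theorem pt_one_one : pt (1 : Perm (Fin 1)) = {1} := by
  have h1 := pt_sum (1 : Perm (Fin 1))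
  have h2 := pt_pos (1 : Perm (Fin 1))
  have h3 : pt (1 : Perm (Fin 1)) ≠ 0 := by
    intro h
    rw [h] at h1
    simp at h1
  obtain ⟨i, hi⟩ := Multiset.exists_mem_of_ne_zero h3
  obtain ⟨ν, hν⟩ := Multiset.exists_cons_of_mem hi
  have h4 := h2 i hi
  rw [hν, Multiset.sum_cons] at h1
  have h5 : i = 1 := by omega
  have h6 : ν.sum = 0 := by omega
  have h7 : ν = 0 := by
    rw [Multiset.eq_zero_iff_forall_notMem]
    intro j hj
    have h8 := Multiset.single_le_sum (fun _ _ => Nat.zero_le _) j hj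
    have h9 := h2 j (by rw [hν]; exact Multiset.mem_cons_of_mem hj)
    omega
  rw [hν, h5, h7]
  rfl

theorem avC_zero (c : ℝ) (f : Multiset ℕ → ℝ) : avC 0 c f = (1 + c) * f 0 := by
  unfold avC
  rw [avg_subsingleton rfl _ 0 pt_zero_one]
  simp [sg]

theorem avC_one' (c : ℝ) (f : Multiset ℕ → ℝ) : avC 1 c f = (1 + c) * f {1} := by
  unfold avC
  rw [avg_subsingleton rfl _ {1} pt_one_one]
  simp [sg]

/-- monotonicity; only cycle types that occur are used -/
theorem avC_mono {n : ℕ} {c : ℝ} (hc : |c| ≤ 1) {f g : Multiset ℕ → ℝ}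
    (h : ∀ μ : Multiset ℕ, μ.sum = n → (∀ i ∈ μ, 0 < i) → f μ ≤ g μ) :
    avC n c f ≤ avC n c g := by
  unfold avC
  apply avg_mono
  intro μ h1 h2
  exact mul_le_mul_of_nonneg_left (h μ h1 h2) (one_add_nonneg hc μ)

theorem avC_nonneg {n : ℕ} {c : ℝ} (hc : |c| ≤ 1) {f : Multiset ℕ → ℝ}
    (h : ∀ μ : Multiset ℕ, μ.sum = n → (∀ i ∈ μ, 0 < i) → 0 ≤ f μ) : 0 ≤ avC n c f := by
  have h1 : avC n c (fun _ => 0) ≤ avC n c f := avC_mono hc h
  have h2 : avC n c (fun _ => 0) = 0 := by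
    unfold avC avg
    simp
  rw [h2] at h1
  exact h1

theorem avC_le_two {n : ℕ} {c : ℝ} (hc : |c| ≤ 1) {f : Multiset ℕ → ℝ}
    (h : ∀ μ : Multiset ℕ, μ.sum = n → (∀ i ∈ μ, 0 < i) → 0 ≤ f μ) :
    avC n c f ≤ 2 * avg n f := by
  unfold avC
  rw [← avg_mul_left]
  apply avg_mono
  intro μ h1 h2
  exact mul_le_mul_of_nonneg_right (one_add_le_two hc μ) (h μ h1 h2)

end Pool.Agent.ALT
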