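import Pool.Agent.ALT.Base3

/-! module ALT-B4: lists of cycle types; the alternating group -/

namespace Pool.Agent.ALT

open Equiv Finset

theorem base4_wt_nonneg (μ : Multiset ℕ) : 0 ≤ wt μ := by
  unfold wt
  positivity

theorem base4_sg_ge (μ : Multiset ℕ) : 0 ≤ 1 + 1 * sg μ := by
  unfold sg
  rcases neg_one_pow_eq_or ℝ (μ.sum + Multiset.card μ) with h | h <;> rw [h] <;> norm_num

/-- lower bound from a list of distinct even cycle types -/
theorem avC_ge_list {n : ℕ} (L : List (Multiset ℕ)) (hL : L.Nodup)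
    (h : ∀ μ ∈ L, μ.sum = n ∧ (∀ i ∈ μ, 0 < i) ∧ Even (μ.sum + Multiset.card μ))
    {f : Multiset ℕ → ℝ} (hf : ∀ μ, 0 ≤ f μ) (h1 : ∀ μ ∈ L, f μ = 1) :
    (L.map (fun μ => 2 * wt μ)).sum ≤ avC n 1 f := by
  classical
  unfold avC
  rw [avg_eq_sum_wt, ← List.sum_toFinset _ hL]
  set s : Finset n.Partition := univ.filter (fun q => q.parts ∈ L) with hs
  have himg : s.image (fun q => q.parts) = L.toFinset := by
    ext μ
    simp only [hs, mem_image, mem_filter, mem_univ, true_and, List.mem_toFinset]
    constructor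
    · rintro ⟨q, hq, rfl⟩
      exact hq
    · intro hμ
      obtain ⟨a, b, -⟩ := h μ hμ
      exact ⟨⟨μ, fun {i} hi => b i hi, a⟩, hμ, rfl⟩
  have hinj : Set.InjOn (fun q : n.Partition => q.parts) s := by
    intro a _ b _ hab
    exact Nat.Partition.ext hab
  rw [← himg, Finset.sum_image hinj]
  calc ∑ q ∈ s, 2 * wt q.parts
      = ∑ q ∈ s, (1 + 1 * sg q.parts) * f q.parts * wt q.parts := by
        refine Finset.sum_congr rfl fun q hq => ?_
        have hq' : q.parts ∈ L := by
          have := hq
          simp only [hs, mem_filter, mem_univ, true_and] at this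
          exact this
        obtain ⟨-, -, hev⟩ := h _ hq'
        have hsg : sg q.parts = 1 := by
          unfold sg
          exact hev.neg_one_pow
        rw [hsg, h1 _ hq']
        ring
    _ ≤ ∑ q : n.Partition, (1 + 1 * sg q.parts) * f q.parts * wt q.parts := by
        refine Finset.sum_le_sum_of_subset_of_nonneg (Finset.subset_univ _) ?_
        intro q _ _
        exact mul_nonneg (mul_nonneg (base4_sg_ge _) (hf _)) (base4_wt_nonneg _)

/-- averages over the alternating group -/
theorem avC_ind_eq {n : ℕ} (hn : 2 ≤ n) (p : Multiset ℕ → Prop) :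
    avC n 1 (ind p) * (Nat.card (alternatingGroup (Fin n)) : ℝ)
      = (Nat.card {g : alternatingGroup (Fin n) // p (pt (g : Perm (Fin n)))} : ℝ) := by
  classical
  have : Nontrivial (Fin n) := Fin.nontrivial_iff_two_le.2 hn
  have hcard : 2 * (Nat.card (alternatingGroup (Fin n)) : ℝ) = (n.factorial : ℝ) := by
    have h1 := two_mul_nat_card_alternatingGroup (α := Fin n)
    rw [Nat.card_eq_fintype_card (α := Perm (Fin n)), Fintype.card_perm, Fintype.card_fin] at h1
    exact_mod_cast h1
  have hsum : (∑ σ : Perm (Fin n), (1 + 1 * sg (pt σ)) * ind p (pt σ))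
      = 2 * (Nat.card {g : alternatingGroup (Fin n) // p (pt (g : Perm (Fin n)))} : ℝ) := by
    have h2 : ∀ σ : Perm (Fin n), (1 + 1 * sg (pt σ)) * ind p (pt σ)
        = if (σ ∈ alternatingGroup (Fin n) ∧ p (pt σ)) then 2 else 0 := by
      intro σ
      rw [sg_pt]
      by_cases hp : p (pt σ)
      · rw [ind_pos hp]
        rcases Int.units_eq_one_or (Perm.sign σ) with hσ | hσ
        · rw [if_pos ⟨Perm.mem_alternatingGroup.2 hσ, hp⟩, hσ]
          norm_num
        · rw [if_neg, hσ]
          · norm_num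
          · rintro ⟨h3, -⟩
            rw [Perm.mem_alternatingGroup.1 h3] at hσ
            exact absurd hσ (by decide)
      · rw [ind_neg hp, if_neg (fun h3 => hp h3.2), mul_zero]
    rw [Finset.sum_congr rfl (fun σ _ => h2 σ), ← Finset.sum_filter, Finset.sum_const,
      nsmul_eq_mul, mul_comm]
    congr 1
    have h4 : Nat.card {g : alternatingGroup (Fin n) // p (pt (g : Perm (Fin n)))}
        = Nat.card {σ : Perm (Fin n) // σ ∈ alternatingGroup (Fin n) ∧ p (pt σ)} :=
      Nat.card_congr (Equiv.subtypeSubtypeEquivSubtypeInter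
        (fun σ : Perm (Fin n) => σ ∈ alternatingGroup (Fin n)) (fun σ => p (pt σ)))
    rw [h4, Nat.card_eq_fintype_card, Fintype.card_subtype]
  unfold avC avg
  rw [hsum]
  have hf : (n.factorial : ℝ) ≠ 0 := by positivity
  rw [← hcard] at hf ⊢
  have hc : (Nat.card (alternatingGroup (Fin n)) : ℝ) ≠ 0 := by
    intro h0
    rw [h0] at hf
    simp at hf
  field_simp

end Pool.Agent.ALT
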