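import Pool.Agent.ALT.BC2
import Pool.Agent.ALT.BI2
import Pool.Agent.ALT.BX

/-! imprimitive groups: assembly -/

namespace Pool.Agent.ALT

open Equiv Finset

theorem not_blk_prime {a b l : ℕ} (hl : l.Prime) (hla : a < l) (hlb : b < l) (μ : Multiset ℕ) :
    ¬ Blk a b l μ := by
  rintro ⟨d, e, hde, hea, hdb, -⟩
  rcases (Nat.dvd_prime hl).1 (Dvd.intro e hde) with h | h
  · subst h; omega
  · subst h; omega

theorem blk_bound {a b : ℕ} (ha : 2 ≤ a) (hb : 2 ≤ b) (hab : 5 ≤ a * b) :
    (7 / 25 : ℝ) ≤ avC (a * b) 1 (ind (fun μ => ∃ l ∈ μ, ¬ Blk a b l (μ.erase l))) := by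
  have h6 : 6 ≤ a * b := by
    rcases Nat.lt_or_ge (a * b) 6 with h | h
    · exfalso
      have ha' : a < 3 := by
        by_contra h3
        nlinarith
      have hb' : b < 3 := by
        by_contra h3
        nlinarith
      interval_cases a <;> interval_cases b <;> omega
    · exact h
  have mono : ∀ {x : ℝ}, x ≤ avC (a * b) 1 (ind (NotBlk a b)) →
      x ≤ avC (a * b) 1 (ind (fun μ => ∃ l ∈ μ, ¬ Blk a b l (μ.erase l))) := by
    intro x hx
    refine hx.trans (avC_mono (by simp) fun μ _ _ => ind_mono ?_)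
    rintro ⟨l, hl, -, h⟩
    exact ⟨l, hl, h⟩
  by_cases h33 : a = 3 ∧ b = 3
  · obtain ⟨rfl, rfl⟩ := h33
    refine mono ?_
    have := notBlk_ge (a := 3) (b := 3) (by norm_num) (by norm_num) (by norm_num) {5, 7} (by
      intro l hl
      simp only [Finset.mem_insert, Finset.mem_singleton] at hl
      rcases hl with rfl | rfl <;> decide)
    refine le_trans ?_ this
    have e1 : (Ico 1 3).filter (fun e => e ∣ 5 ∧ 5 / e ≤ 3) = ∅ := by decide
    have e2 : (Ico 1 3).filter (fun e => e ∣ 7 ∧ 7 / e ≤ 3) = ∅ := by decide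
    rw [Finset.sum_pair (by norm_num)]
    unfold term extra
    rw [e1, e2, if_neg (by decide)]
    norm_num
  by_cases h53 : a = 5 ∧ b = 3
  · obtain ⟨rfl, rfl⟩ := h53
    refine special53.trans (avC_mono (by simp) fun μ _ _ => ind_mono ?_)
    rintro (h | h | h)
    · exact ⟨7, h, not_blk_prime (by norm_num) (by norm_num) (by norm_num) _⟩
    · exact ⟨11, h, not_blk_prime (by norm_num) (by norm_num) (by norm_num) _⟩
    · exact ⟨13, h, not_blk_prime (by norm_num) (by norm_num) (by norm_num) _⟩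
  have key : (7 / 25 : ℝ) ≤ ∑ l ∈ lens a b, term a b l + extra a b := by
    by_cases h : 16 ≤ a ∨ 16 ≤ b
    · exact term_large ha hb h
    · push Not at h
      exact term_table ha hb (by omega) (by omega) h6 h33 h53
  refine mono (key.trans (notBlk_ge ha hb h6 (lens a b) ?_))
  intro l hl
  exact (Finset.mem_filter.1 hl).2

end Pool.Agent.ALT
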