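import Mathlib

/-!
Derangements in transitive actions of alternating groups (MP_bce300_al): definitions.

* `pt σ` = cycle lengths of `σ : Perm (Fin n)` including the fixed points (as `1`s).
* `avg n f` = average of `f (pt σ)` over `σ ∈ S_n`.
* `avC n c f` for `c = 1` (`c = -1`) and `n ≥ 2` = average over the even (odd) permutations.
-/

namespace Pool.Agent.ALT

open Equiv Finset

/-- Cycle lengths of `σ`, fixed points counted as cycles of length `1`. -/
def pt {n : ℕ} (σ : Perm (Fin n)) : Multiset ℕ := σ.partition.parts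

/-- Average of a function of the cycle type over `S_n`. -/
noncomputable def avg (n : ℕ) (f : Multiset ℕ → ℝ) : ℝ :=
  (∑ σ : Perm (Fin n), f (pt σ)) / (n.factorial : ℝ)

/-- Sign of a cycle type. -/
def sg (μ : Multiset ℕ) : ℝ := (-1) ^ (μ.sum + Multiset.card μ)

/-- Average over the even (`c = 1`) or odd (`c = -1`) permutations, if `n ≥ 2`. -/
noncomputable def avC (n : ℕ) (c : ℝ) (f : Multiset ℕ → ℝ) : ℝ :=
  avg n (fun μ => (1 + c * sg μ) * f μ)

open Classical in
/-- Indicator of a property of cycle types. -/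
noncomputable def ind (p : Multiset ℕ → Prop) (μ : Multiset ℕ) : ℝ := if p μ then 1 else 0

/-- Weight `1 / z_μ` of a cycle type. -/
noncomputable def wt (μ : Multiset ℕ) : ℝ :=
  1 / ((μ.prod : ℝ) * ∏ i ∈ μ.toFinset, ((μ.count i).factorial : ℝ))

/-- The cycle type `μ` has a sub-collection of cycles, all of length divisible by `d`,
of total length `s`. -/
def Sub (d s : ℕ) (μ : Multiset ℕ) : Prop :=
  ∃ ν ≤ μ, (∀ i ∈ ν, d ∣ i) ∧ ν.sum = s

/-- Necessary condition for a permutation with a cycle of length `l` and the other cycles `μ`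
to preserve a partition into `b` blocks of size `a`. -/
def Blk (a b l : ℕ) (μ : Multiset ℕ) : Prop :=
  ∃ d e : ℕ, d * e = l ∧ e ≤ a ∧ d ≤ b ∧ Sub d (d * (a - e)) μ

/-- The event `E_p`: exactly one cycle of length `p` and no other cycle of length divisible
by `p`. -/
def Ep (p : ℕ) (μ : Multiset ℕ) : Prop :=
  μ.count p = 1 ∧ ∀ i ∈ μ, p ∣ i → i = p

theorem ind_nonneg (p : Multiset ℕ → Prop) (μ : Multiset ℕ) : 0 ≤ ind p μ := by
  unfold ind; split <;> norm_num

theorem ind_le_one (p : Multiset ℕ → Prop) (μ : Multiset ℕ) : ind p μ ≤ 1 := by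
  unfold ind; split <;> norm_num

theorem ind_pos {p : Multiset ℕ → Prop} {μ : Multiset ℕ} (h : p μ) : ind p μ = 1 := by
  unfold ind; rw [if_pos h]

theorem ind_neg {p : Multiset ℕ → Prop} {μ : Multiset ℕ} (h : ¬ p μ) : ind p μ = 0 := by
  unfold ind; rw [if_neg h]

theorem ind_mono {p q : Multiset ℕ → Prop} {μ : Multiset ℕ} (h : p μ → q μ) :
    ind p μ ≤ ind q μ := by
  by_cases hp : p μ
  · rw [ind_pos hp, ind_pos (h hp)]
  · rw [ind_neg hp]; exact ind_nonneg q μ

end Pool.Agent.ALT
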