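import Pool.Agent.ALT.Defs

/-! the lower bound for primitive groups -/

namespace Pool.Agent.ALT

open Finset

/-- correction factor -/
noncomputable def corr (n x : ℕ) : ℝ := if n ≤ x + 1 then 2 else 1

/-- the lower bound -/
noncomputable def LB (P : Finset ℕ) (n : ℕ) : ℝ :=
  ∑ p ∈ P, ((1 / p : ℝ) - (1 / (p : ℝ) ^ 2) * ∑ j ∈ Icc 1 (n / p - 1), corr n (p + j * p) / j)
    - ∑ x ∈ (P ×ˢ P).filter (fun x => x.1 < x.2 ∧ x.1 + x.2 ≤ n),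
        corr n (x.1 + x.2) / (x.1 * x.2 : ℝ)

/-- admissible sets of primes -/
def Adm (P : Finset ℕ) (n : ℕ) : Prop := ∀ p ∈ P, p.Prime ∧ Odd p ∧ p + 3 ≤ n

/-- the event -/
def EE (n : ℕ) (μ : Multiset ℕ) : Prop := ∃ p, p.Prime ∧ p + 3 ≤ n ∧ Ep p μ

end Pool.Agent.ALT
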