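import Pool.Agent.ALT.Base3
import Pool.Agent.ALT.EDefs

/-! module ALT-E1: counting for primitive groups -/

namespace Pool.Agent.ALT

open Equiv Finset

/-- the pair sum through squares -/
private theorem ec_pairs (P : Finset ℕ) (f : ℕ → ℝ) :
    2 * ∑ x ∈ (P ×ˢ P).filter (fun x => x.1 < x.2), f x.1 * f x.2
      = (∑ p ∈ P, f p) ^ 2 - ∑ p ∈ P, f p ^ 2 := by
  induction P using Finset.induction_on_max with
  | empty => simp
  | insert a s ha ih =>
    have ha' : a ∉ s := fun h => lt_irrefl _ (ha a h)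
    have key : (((insert a s) ×ˢ (insert a s)).filter (fun x : ℕ × ℕ => x.1 < x.2))
        = ((s ×ˢ s).filter (fun x => x.1 < x.2)) ∪ (s.image (fun x => (x, a))) := by
      ext ⟨x, y⟩
      simp only [mem_filter, mem_product, mem_insert, mem_union, mem_image, Prod.mk.injEq]
      constructor
      · rintro ⟨⟨hx, hy⟩, hxy⟩
        rcases hx with rfl | hx
        · rcases hy with rfl | hy
          · exact absurd hxy (lt_irrefl _)
          · exact absurd (ha y hy) (by omega)
        · rcases hy with rfl | hy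
          · right; exact ⟨x, hx, rfl, rfl⟩
          · left; exact ⟨⟨hx, hy⟩, hxy⟩
      · rintro (⟨⟨hx, hy⟩, hxy⟩ | ⟨z, hz, rfl, rfl⟩)
        · exact ⟨⟨Or.inr hx, Or.inr hy⟩, hxy⟩
        · exact ⟨⟨Or.inr hz, Or.inl rfl⟩, ha _ hz⟩
    have hdis : Disjoint ((s ×ˢ s).filter (fun x : ℕ × ℕ => x.1 < x.2))
        (s.image (fun x => (x, a))) := by
      rw [Finset.disjoint_left]
      rintro ⟨x, y⟩ h1 h2
      simp only [mem_filter, mem_product, mem_image, Prod.mk.injEq] at h1 h2
      obtain ⟨z, hz, rfl, rfl⟩ := h2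
      exact ha' h1.1.2
    rw [key, Finset.sum_union hdis, Finset.sum_image (by
      intro x _ y _ hxy
      simpa using hxy), mul_add, ih, Finset.sum_insert ha', Finset.sum_insert ha']
    have h5 : ∑ x ∈ s, f (x, a).1 * f (x, a).2 = (∑ x ∈ s, f x) * f a := by
      rw [Finset.sum_mul]
    rw [h5]
    ring

/-- the single terms -/
private theorem ec_single {n p : ℕ} (hp : 1 ≤ p) {μ : Multiset ℕ} (hs : μ.sum = n)
    (hpos : ∀ i ∈ μ, 0 < i) :
    (μ.count p : ℝ) - ∑ j ∈ Icc 1 (n / p - 1), (μ.count p : ℝ) * ((μ.erase p).count (j * p) : ℝ)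
      ≤ ind (Ep p) μ := by
  rcases Nat.eq_zero_or_pos (μ.count p) with h0 | h0
  · rw [h0]
    simp only [Nat.cast_zero, zero_mul, Finset.sum_const_zero, sub_zero]
    exact ind_nonneg _ _
  · have hpm : p ∈ μ := Multiset.count_pos.mp h0
    have hsum : ∀ j ∈ Icc 1 (n / p - 1),
        (0 : ℝ) ≤ (μ.count p : ℝ) * ((μ.erase p).count (j * p) : ℝ) := by
      intro j _; positivity
    by_cases hE : Ep p μ
    · rw [ind_pos hE, hE.1]
      have := Finset.sum_nonneg hsum
      rw [hE.1] at this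
      push_cast at this ⊢
      linarith
    · have hj : ∃ j ∈ Icc 1 (n / p - 1), 1 ≤ (μ.erase p).count (j * p) := by
        have hgen : ∀ j : ℕ, 1 ≤ j → j * p ∈ μ.erase p → j ∈ Icc 1 (n / p - 1) := by
          intro j hj1 hj2
          have h1 : j * p ≤ (μ.erase p).sum := Multiset.single_le_sum (fun _ _ => Nat.zero_le _) _ hj2
          have h2 : p + (μ.erase p).sum = n := by
            rw [← hs]; conv_rhs => rw [← Multiset.cons_erase hpm]
            rw [Multiset.sum_cons]
          have h3 : (j + 1) * p ≤ n := by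
            rw [add_mul, one_mul]; omega
          have h4 : j + 1 ≤ n / p := (Nat.le_div_iff_mul_le (by omega)).mpr h3
          rw [mem_Icc]; omega
        unfold Ep at hE
        rw [not_and_or] at hE
        rcases hE with hE | hE
        · refine ⟨1, ?_, ?_⟩
          · apply hgen 1 le_rfl
            rw [one_mul, ← Multiset.count_pos, Multiset.count_erase_self]
            omega
          · rw [one_mul, Multiset.count_erase_self]
            omega
        · push Not at hE
          obtain ⟨i, hi, ⟨j, hj⟩, hne⟩ := hE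
          have hi0 := hpos i hi
          have hij : i = j * p := by rw [hj, mul_comm]
          have him : j * p ∈ μ.erase p := by
            rw [← hij, Multiset.mem_erase_of_ne hne]; exact hi
          have hj1 : 1 ≤ j := by
            rcases Nat.eq_zero_or_pos j with h | h
            · subst h; simp at hij; omega
            · exact h
          exact ⟨j, hgen j hj1 him, Multiset.one_le_count_iff_mem.mpr him⟩
      obtain ⟨j, hj, hj1⟩ := hj
      have h1 : (μ.count p : ℝ) * ((μ.erase p).count (j * p) : ℝ)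
          ≤ ∑ j ∈ Icc 1 (n / p - 1), (μ.count p : ℝ) * ((μ.erase p).count (j * p) : ℝ) :=
        Finset.single_le_sum hsum hj
      have h2 : (μ.count p : ℝ) ≤ (μ.count p : ℝ) * ((μ.erase p).count (j * p) : ℝ) := by
        have : (1 : ℝ) ≤ ((μ.erase p).count (j * p) : ℝ) := by exact_mod_cast hj1
        have h3 : (0 : ℝ) ≤ (μ.count p : ℝ) := by positivity
        nlinarith
      have h3 := ind_nonneg (Ep p) μ
      linarith

/-- the pair terms -/
private theorem ec_pair {n p q : ℕ} (hpq : p < q) {μ : Multiset ℕ} (hs : μ.sum = n) :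
    ind (Ep p) μ * ind (Ep q) μ
      ≤ if p + q ≤ n then (μ.count p : ℝ) * ((μ.erase p).count q : ℝ) else 0 := by
  by_cases h1 : Ep p μ
  · by_cases h2 : Ep q μ
    · rw [ind_pos h1, ind_pos h2]
      have hpm : p ∈ μ := Multiset.count_pos.mp (by rw [h1.1]; norm_num)
      have hqm : q ∈ μ := Multiset.count_pos.mp (by rw [h2.1]; norm_num)
      have hqm' : q ∈ μ.erase p := by
        rw [Multiset.mem_erase_of_ne (by omega)]; exact hqm
      have h3 : q ≤ (μ.erase p).sum := Multiset.single_le_sum (fun _ _ => Nat.zero_le _) _ hqm'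
      have h4 : p + (μ.erase p).sum = n := by
        rw [← hs]; conv_rhs => rw [← Multiset.cons_erase hpm]
        rw [Multiset.sum_cons]
      rw [if_pos (by omega), Multiset.count_erase_of_ne (by omega), h1.1, h2.1]
      norm_num
    · rw [ind_neg h2, mul_zero]
      split <;> positivity
  · rw [ind_neg h1, zero_mul]
    split <;> positivity

/-- Bonferroni -/
private theorem ec_bonf {n : ℕ} (P : Finset ℕ) (hP : Adm P n) (μ : Multiset ℕ) :
    ∑ p ∈ P, ind (Ep p) μ
      - ∑ x ∈ (P ×ˢ P).filter (fun x => x.1 < x.2), ind (Ep x.1) μ * ind (Ep x.2) μ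
      ≤ ind (EE n) μ := by
  classical
  have h1 := ec_pairs P (fun p => ind (Ep p) μ)
  have h2 : ∑ p ∈ P, ind (Ep p) μ ^ 2 = ∑ p ∈ P, ind (Ep p) μ := by
    apply Finset.sum_congr rfl
    intro p _
    by_cases h : Ep p μ
    · rw [ind_pos h]; norm_num
    · rw [ind_neg h]; norm_num
  have h3 : ∑ p ∈ P, ind (Ep p) μ = ((P.filter (fun p => Ep p μ)).card : ℝ) := by
    rw [Finset.card_filter]
    push_cast
    apply Finset.sum_congr rfl
    intro p _
    by_cases h : Ep p μ
    · rw [ind_pos h, if_pos h]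
    · rw [ind_neg h, if_neg h]
  beta_reduce at h1
  rw [h2, h3] at h1
  rw [h3]
  set r := (P.filter (fun p => Ep p μ)).card with hr
  rcases Nat.eq_zero_or_pos r with h0 | h0
  · rw [h0] at h1 ⊢
    have := ind_nonneg (EE n) μ
    push_cast at h1 ⊢
    linarith
  · obtain ⟨p, hp⟩ := Finset.card_pos.mp h0
    rw [mem_filter] at hp
    have hE : EE n μ := ⟨p, (hP p hp.1).1, (hP p hp.1).2.2, hp.2⟩
    rw [ind_pos hE]
    have h4 : (0 : ℝ) ≤ ((r : ℝ) - 1) * ((r : ℝ) - 2) := by
      rcases Nat.lt_or_ge r 2 with h | h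
      · have : r = 1 := by omega
        rw [this]; norm_num
      · have h5 : (2 : ℝ) ≤ (r : ℝ) := by exact_mod_cast h
        nlinarith
    nlinarith

private theorem ec_const_le {m : ℕ} {c : ℝ} (hc : |c| ≤ 1) (x : ℕ) (n : ℕ) (hm : m = n - x)
    (hx : x ≤ n) : avC m c (fun _ => 1) ≤ corr n x := by
  unfold corr
  have hc' := abs_le.mp hc
  split
  · rename_i h
    have : m = 0 ∨ m = 1 := by omega
    rcases this with rfl | rfl
    · rw [avC_zero]; linarith
    · rw [avC_one']; linarith
  · rename_i h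
    rw [avC_one (by omega)]

private theorem ec_abs (l : ℕ) (c : ℝ) (hc : |c| ≤ 1) : |c * (-1) ^ (l + 1)| ≤ 1 := by
  rw [abs_mul, abs_pow, abs_neg, abs_one, one_pow, mul_one]; exact hc

private theorem ec_av1 {n p : ℕ} (hp : 1 ≤ p) (hn : p + 3 ≤ n) :
    avC n 1 (fun μ => (μ.count p : ℝ)) = 1 / p := by
  have h := avC_count (n := n) (l := p) hp (by omega) 1 (fun _ => 1)
  simp only [mul_one] at h
  rw [h, avC_one (by omega)]

private theorem ec_av2 {n p q : ℕ} (hp : 1 ≤ p) (hq : 1 ≤ q) (hn : p + q ≤ n) :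
    avC n 1 (fun μ => (μ.count p : ℝ) * ((μ.erase p).count q : ℝ))
      ≤ corr n (p + q) / (p * q) := by
  have h := avC_count (n := n) (l := p) hp (by omega) 1 (fun ν => (ν.count q : ℝ))
  rw [h]
  have h2 := avC_count (n := n - p) (l := q) hq (by omega) (1 * (-1) ^ (p + 1)) (fun _ => 1)
  simp only [mul_one] at h2
  rw [h2]
  have h3 := ec_const_le (m := n - p - q) (c := 1 * (-1) ^ (p + 1) * (-1) ^ (q + 1))
    (ec_abs _ _ (ec_abs _ _ (by norm_num))) (p + q) n (by omega) hn
  have hp' : (0 : ℝ) < p := by exact_mod_cast hp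
  have hq' : (0 : ℝ) < q := by exact_mod_cast hq
  rw [div_div, mul_comm (q : ℝ) (p : ℝ)]
  exact div_le_div_of_nonneg_right h3 (by positivity)

theorem avC_Ep_ge {n : ℕ} (P : Finset ℕ) (hP : Adm P n) :
    LB P n ≤ avC n 1 (ind (EE n)) := by
  have hpt : ∀ μ : Multiset ℕ, μ.sum = n → (∀ i ∈ μ, 0 < i) →
      (∑ p ∈ P, ((μ.count p : ℝ)
          - ∑ j ∈ Icc 1 (n / p - 1), (μ.count p : ℝ) * ((μ.erase p).count (j * p) : ℝ)))
        - ∑ x ∈ (P ×ˢ P).filter (fun x => x.1 < x.2 ∧ x.1 + x.2 ≤ n),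
            (μ.count x.1 : ℝ) * ((μ.erase x.1).count x.2 : ℝ) ≤ ind (EE n) μ := by
    intro μ hs hpos
    have h1 := ec_bonf P hP μ
    have h2 : ∑ p ∈ P, ((μ.count p : ℝ)
          - ∑ j ∈ Icc 1 (n / p - 1), (μ.count p : ℝ) * ((μ.erase p).count (j * p) : ℝ))
        ≤ ∑ p ∈ P, ind (Ep p) μ := by
      apply Finset.sum_le_sum
      intro p hp
      exact ec_single (hP p hp).1.one_le hs hpos
    have h3 : ∑ x ∈ (P ×ˢ P).filter (fun x => x.1 < x.2), ind (Ep x.1) μ * ind (Ep x.2) μ
        ≤ ∑ x ∈ (P ×ˢ P).filter (fun x => x.1 < x.2 ∧ x.1 + x.2 ≤ n),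
            (μ.count x.1 : ℝ) * ((μ.erase x.1).count x.2 : ℝ) := by
      have h4 : ∑ x ∈ (P ×ˢ P).filter (fun x => x.1 < x.2 ∧ x.1 + x.2 ≤ n),
            (μ.count x.1 : ℝ) * ((μ.erase x.1).count x.2 : ℝ)
          = ∑ x ∈ (P ×ˢ P).filter (fun x => x.1 < x.2),
            if x.1 + x.2 ≤ n then (μ.count x.1 : ℝ) * ((μ.erase x.1).count x.2 : ℝ) else 0 := by
        rw [← Finset.sum_filter, Finset.filter_filter]
      rw [h4]
      apply Finset.sum_le_sum
      intro x hx
      rw [mem_filter] at hx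
      exact ec_pair hx.2 hs
    linarith
  have hmono := avC_mono (n := n) (c := 1) (by norm_num) hpt
  refine le_trans ?_ hmono
  rw [avC_sub, avC_sum, avC_sum]
  unfold LB
  apply sub_le_sub
  · apply Finset.sum_le_sum
    intro p hp
    obtain ⟨hpp, _, hpn⟩ := hP p hp
    have hp1 := hpp.one_le
    rw [avC_sub, avC_sum, ec_av1 hp1 hpn]
    apply sub_le_sub le_rfl
    rw [Finset.mul_sum]
    apply Finset.sum_le_sum
    intro j hj
    rw [mem_Icc] at hj
    have hjn : p + j * p ≤ n := by
      have h1 : (j + 1) ≤ n / p := by omega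
      have h2 := (Nat.le_div_iff_mul_le (by omega)).mp h1
      rw [add_mul, one_mul] at h2
      omega
    have hjp : 1 ≤ j * p := Nat.mul_pos hj.1 hp1
    refine le_trans (ec_av2 hp1 hjp hjn) (le_of_eq ?_)
    have hp' : (p : ℝ) ≠ 0 := by
      have : 0 < p := hp1
      positivity
    have hj' : (j : ℝ) ≠ 0 := by
      have : 0 < j := hj.1
      positivity
    push_cast
    field_simp
  · apply Finset.sum_le_sum
    intro x hx
    rw [mem_filter, mem_product] at hx
    exact ec_av2 (hP _ hx.1.1).1.one_le (hP _ hx.1.2).1.one_le hx.2.2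

end Pool.Agent.ALT
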