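import Mathlib
import Pool.Agent.Helper24.Mertens

/-! module ALT-E5: sums over primes -/

namespace Pool.Agent.ALT

open Finset Nat

/-- `log n! ≤ n ∑ log p / (p - 1)` -/
theorem log_factorial_le_sum (n : ℕ) :
    Real.log (n ! : ℕ) ≤ n * ∑ p ∈ primesLE n, Real.log p / ((p : ℝ) - 1) := by
  rw [Real.log_nat_eq_sum_factorization, Finsupp.sum, Nat.support_factorization, mul_sum]
  have hsub : (n !).primeFactors ⊆ primesLE n := by
    intro p hp
    have hp' := Nat.prime_of_mem_primeFactors hp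
    rw [mem_primesLE]
    exact ⟨(hp'.dvd_factorial).1 (Nat.dvd_of_mem_primeFactors hp), hp'⟩
  have hnn : ∀ p ∈ primesLE n, 0 ≤ (n : ℝ) * (Real.log p / ((p : ℝ) - 1)) := by
    intro p hp
    have h1 : (1 : ℝ) < p := by exact_mod_cast one_lt_of_mem_primesLE hp
    have h2 : 0 ≤ Real.log p := Real.log_natCast_nonneg p
    have h3 : 0 < (p : ℝ) - 1 := by linarith
    positivity
  refine le_trans (sum_le_sum ?_) (sum_le_sum_of_subset_of_nonneg hsub fun p hp _ => hnn p hp)
  intro p hp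
  have hp' := Nat.prime_of_mem_primeFactors hp
  have h1 : (1 : ℝ) < p := by exact_mod_cast hp'.one_lt
  have h2 : 0 ≤ Real.log p := Real.log_natCast_nonneg p
  have h3 : 0 < (p : ℝ) - 1 := by linarith
  have h4 : (p - 1) * (n !).factorization p ≤ n := by
    rw [sub_one_mul_factorization_factorial hp']
    exact Nat.sub_le _ _
  have h5 : ((p : ℝ) - 1) * ((n !).factorization p : ℝ) ≤ n := by
    have : ((p - 1 : ℕ) : ℝ) * ((n !).factorization p : ℝ) ≤ n := by exact_mod_cast h4
    rwa [Nat.cast_sub hp'.one_le, Nat.cast_one] at this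
  have h6 : ((n !).factorization p : ℝ) ≤ n / ((p : ℝ) - 1) := by
    rw [le_div_iff₀ h3]
    linarith
  calc ((n !).factorization p : ℝ) * Real.log p ≤ n / ((p : ℝ) - 1) * Real.log p :=
        mul_le_mul_of_nonneg_right h6 h2
    _ = n * (Real.log p / ((p : ℝ) - 1)) := by ring

/-- `∑ log p / (p (p - 1)) ≤ 1.3` -/
theorem sum_log_tail (n : ℕ) (hn : 5 ≤ n) :
    ∑ p ∈ primesLE n, Real.log p / ((p : ℝ) * ((p : ℝ) - 1)) ≤
      12 / 10 - (Real.log n + 6 / 5) / n := by
  induction n, hn using Nat.le_induction with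
  | base =>
    have h1 : primesLE 5 = {2, 3, 5} := by decide
    rw [h1, sum_insert (by decide), sum_insert (by decide), sum_singleton]
    push_cast
    have h2 := Real.log_two_lt_d9
    have h3 : Real.log 3 ≤ 8 / 5 * Real.log 2 := by
      have h : Real.log (3 ^ 5 : ℝ) ≤ Real.log (2 ^ 8 : ℝ) :=
        Real.log_le_log (by norm_num) (by norm_num)
      rw [Real.log_pow, Real.log_pow] at h
      push_cast at h
      linarith
    have h5 : Real.log 5 ≤ 7 / 3 * Real.log 2 := by
      have h : Real.log (5 ^ 3 : ℝ) ≤ Real.log (2 ^ 7 : ℝ) :=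
        Real.log_le_log (by norm_num) (by norm_num)
      rw [Real.log_pow, Real.log_pow] at h
      push_cast at h
      linarith
    linarith
  | succ n hn ih =>
    have hn0 : (0 : ℝ) < n := by exact_mod_cast (by omega : 0 < n)
    have hn5 : (5 : ℝ) ≤ n := by exact_mod_cast hn
    have hl : 0 ≤ Real.log n := Real.log_natCast_nonneg n
    have hll : Real.log (n + 1 : ℕ) ≤ Real.log n + 1 / n := by
      have h := Real.log_le_sub_one_of_pos (x := ((n + 1 : ℕ) : ℝ) / n) (by positivity)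
      rw [Real.log_div (by positivity) hn0.ne'] at h
      have h' : ((n + 1 : ℕ) : ℝ) / n - 1 = 1 / n := by
        push_cast
        field_simp
        ring
      linarith
    have hl1 : 0 ≤ Real.log (n + 1 : ℕ) := Real.log_natCast_nonneg _
    -- the telescoping inequality
    have hkey : Real.log (n + 1 : ℕ) / (((n + 1 : ℕ) : ℝ) * (((n + 1 : ℕ) : ℝ) - 1)) ≤
        (Real.log n + 6 / 5) / n - (Real.log (n + 1 : ℕ) + 6 / 5) / (n + 1 : ℕ) := by
      set L := Real.log (n + 1 : ℕ) with hL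
      have h1 : (L - 1 / n + 6 / 5) / n ≤ (Real.log n + 6 / 5) / n := by
        gcongr
        linarith
      have h2 : L / (((n + 1 : ℕ) : ℝ) * (((n + 1 : ℕ) : ℝ) - 1)) ≤
          (L - 1 / n + 6 / 5) / n - (L + 6 / 5) / (n + 1 : ℕ) := by
        push_cast
        rw [add_sub_cancel_right]
        have h3 : (L - 1 / n + 6 / 5) / n - (L + 6 / 5) / ((n : ℝ) + 1) -
            L / (((n : ℝ) + 1) * n) = ((n : ℝ) / 5 - 1) / (n ^ 2 * (n + 1)) := by
          field_simp
          ring
        have h4 : 0 ≤ ((n : ℝ) / 5 - 1) / (n ^ 2 * (n + 1)) := by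
          apply div_nonneg
          · linarith
          · positivity
        linarith
      linarith
    rw [primesLE_succ]
    by_cases hp : (n + 1).Prime
    · rw [if_pos hp, sum_insert (notMem_primesLE n)]
      linarith
    · rw [if_neg hp]
      have h7 : 0 ≤ Real.log (n + 1 : ℕ) / (((n + 1 : ℕ) : ℝ) * (((n + 1 : ℕ) : ℝ) - 1)) := by
        apply div_nonneg hl1
        push_cast
        rw [add_sub_cancel_right]
        positivity
      linarith

theorem sum_log_tail' (n : ℕ) :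
    ∑ p ∈ primesLE n, Real.log p / ((p : ℝ) * ((p : ℝ) - 1)) ≤ 13 / 10 := by
  have hnn : ∀ m, ∀ p ∈ primesLE m, 0 ≤ Real.log p / ((p : ℝ) * ((p : ℝ) - 1)) := by
    intro m p hp
    have h1 : (1 : ℝ) < p := by exact_mod_cast one_lt_of_mem_primesLE hp
    have h2 : 0 ≤ Real.log p := Real.log_natCast_nonneg p
    have h3 : 0 < (p : ℝ) - 1 := by linarith
    positivity
  have h1 : primesLE n ⊆ primesLE (max n 5) := primesLE_mono (le_max_left _ _)
  refine (sum_le_sum_of_subset_of_nonneg h1 fun p hp _ => hnn _ p hp).trans ?_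
  refine (sum_log_tail (max n 5) (le_max_right _ _)).trans ?_
  have h2 : (0 : ℝ) ≤ Real.log (max n 5 : ℕ) := Real.log_natCast_nonneg _
  have h3 : 0 ≤ (Real.log (max n 5 : ℕ) + 6 / 5) / (max n 5 : ℕ) := by positivity
  linarith

theorem mertens_lower {n : ℕ} (hn : 1 ≤ n) :
    Real.log n - 23 / 10 ≤ ∑ p ∈ primesLE n, Real.log p / p := by
  have hn0 : (0 : ℝ) < n := by exact_mod_cast hn
  have h1 := log_factorial_le_sum n
  have h2 := Stirling.le_log_factorial_stirling (n := n) (by omega)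
  have h3 : 0 ≤ Real.log n := Real.log_natCast_nonneg n
  have h4 : 0 ≤ Real.log (2 * Real.pi) := by
    apply Real.log_nonneg
    have := Real.pi_gt_three
    linarith
  have h5 : (n : ℝ) * (Real.log n - 1) ≤
      n * ∑ p ∈ primesLE n, Real.log p / ((p : ℝ) - 1) := by
    linarith
  have h6 := le_of_mul_le_mul_left h5 hn0
  have h7 : ∑ p ∈ primesLE n, Real.log p / ((p : ℝ) - 1) =
      ∑ p ∈ primesLE n, Real.log p / p +
      ∑ p ∈ primesLE n, Real.log p / ((p : ℝ) * ((p : ℝ) - 1)) := by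
    rw [← sum_add_distrib]
    refine sum_congr rfl fun p hp => ?_
    have h1 : (1 : ℝ) < p := by exact_mod_cast one_lt_of_mem_primesLE hp
    have h3 : (p : ℝ) - 1 ≠ 0 := by linarith
    have h4 : (p : ℝ) ≠ 0 := by linarith
    field_simp
    ring
  have h8 := sum_log_tail' n
  linarith

/-- many primes between `n^(1/3)` and `n/4` -/
theorem sum_inv_primes {n y : ℕ} (hn : 4 * 10 ^ 9 ≤ n) (hy : y ^ 3 ≤ n) (hy' : n < (y + 1) ^ 3) :
    (43 / 100 : ℝ) ≤ ∑ p ∈ (primesLE (n / 4)).filter (fun p => y < p), 1 / (p : ℝ) := by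
  have hn0 : (0 : ℝ) < n := by exact_mod_cast (by omega : 0 < n)
  have hnb : (4 * 10 ^ 9 : ℝ) ≤ n := by exact_mod_cast hn
  have hy1 : 1 ≤ y := by
    by_contra h
    have : y = 0 := by omega
    subst this
    simp at hy'
    omega
  have hy0 : (0 : ℝ) < y := by exact_mod_cast hy1
  have hl2 := Real.log_two_gt_d9
  have hl2' := Real.log_two_lt_d9
  -- log n is large
  have hlog : 31 * Real.log 2 ≤ Real.log n := by
    have h : Real.log ((2 : ℝ) ^ 31) ≤ Real.log n :=
      Real.log_le_log (by norm_num) (by norm_num at hnb ⊢; linarith)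
    rw [Real.log_pow] at h
    exact_mod_cast h
  have hlog0 : 0 < Real.log n := by linarith
  -- log y
  have hly : Real.log y ≤ Real.log n / 3 := by
    have h : Real.log ((y : ℝ) ^ 3) ≤ Real.log n :=
      Real.log_le_log (by positivity) (by exact_mod_cast hy)
    rw [Real.log_pow] at h
    push_cast at h
    linarith
  -- log (n / 4)
  have hN1 : 1 ≤ n / 4 := by omega
  have hN0 : (0 : ℝ) < (n / 4 : ℕ) := by exact_mod_cast hN1
  have hN : Real.log n - Real.log 4 - 1 / 1000 ≤ Real.log (n / 4 : ℕ) := by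
    have h1 : (n : ℝ) ≤ 4 * (1001 / 1000) * (n / 4 : ℕ) - 1 := by
      have h2 : n + 1 ≤ 4 * (n / 4) + 4 := by omega
      have h3 : (n : ℝ) + 1 ≤ 4 * (n / 4 : ℕ) + 4 := by exact_mod_cast h2
      have h4 : (10 ^ 8 : ℝ) ≤ (n / 4 : ℕ) := by exact_mod_cast (by omega : 10 ^ 8 ≤ n / 4)
      linarith
    have h2 : Real.log n ≤ Real.log (4 * (1001 / 1000) * (n / 4 : ℕ)) :=
      Real.log_le_log hn0 (by linarith)
    rw [Real.log_mul (by norm_num) hN0.ne', Real.log_mul (by norm_num) (by norm_num)] at h2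
    have h3 : Real.log (1001 / 1000) ≤ 1 / 1000 := by
      have := Real.log_le_sub_one_of_pos (x := (1001 / 1000 : ℝ)) (by norm_num)
      linarith
    linarith
  have hl4 : Real.log 4 = 2 * Real.log 2 := by
    rw [show (4 : ℝ) = 2 ^ 2 by norm_num, Real.log_pow]; norm_num
  -- y ≤ n / 4
  have hyN : y ≤ n / 4 := by
    by_contra h
    have h1 : n / 4 + 1 ≤ y := by omega
    have h2 : (n / 4 + 1) * (n / 4 + 1) ^ 2 ≤ n := by
      calc (n / 4 + 1) * (n / 4 + 1) ^ 2 = (n / 4 + 1) ^ 3 := by ring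
        _ ≤ y ^ 3 := Nat.pow_le_pow_left h1 3
        _ ≤ n := hy
    have h3 : 4 ≤ (n / 4 + 1) ^ 2 := by
      calc 4 = 2 ^ 2 := by norm_num
        _ ≤ (n / 4 + 1) ^ 2 := Nat.pow_le_pow_left (by omega) 2
    have h4 : (n / 4 + 1) * 4 ≤ (n / 4 + 1) * (n / 4 + 1) ^ 2 := Nat.mul_le_mul_left _ h3
    omega
  set S := (primesLE (n / 4)).filter (fun p => y < p) with hS
  have hsplit : ∑ p ∈ primesLE (n / 4), Real.log p / p =
      ∑ p ∈ S, Real.log p / p + ∑ p ∈ primesLE y, Real.log p / p := by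
    rw [← sum_filter_add_sum_filter_not (primesLE (n / 4)) (fun p => y < p), ← hS]
    congr 1
    refine sum_congr ?_ fun _ _ => rfl
    ext p
    simp only [mem_filter, mem_primesLE, not_lt]
    constructor
    · rintro ⟨⟨-, h2⟩, h3⟩
      exact ⟨h3, h2⟩
    · rintro ⟨h1, h2⟩
      exact ⟨⟨h1.trans hyN, h2⟩, h1⟩
  have h1 := mertens_lower hN1
  have h2 := Pool.Agent.Helper24.sum_log_div_le y hy1
  have h3 : ∑ p ∈ S, Real.log p / p ≤ Real.log n * ∑ p ∈ S, 1 / (p : ℝ) := by
    rw [mul_sum]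
    refine sum_le_sum fun p hp => ?_
    rw [hS, mem_filter, mem_primesLE] at hp
    have hp0 : (0 : ℝ) < p := by exact_mod_cast hp.1.2.pos
    have hpn : (p : ℝ) ≤ n := by
      have : p ≤ n := hp.1.1.trans (Nat.div_le_self _ _)
      exact_mod_cast this
    have h4 : Real.log p ≤ Real.log n := Real.log_le_log hp0 hpn
    rw [mul_one_div]
    gcongr
  by_contra hcon
  rw [not_le] at hcon
  have h5 : Real.log n * ∑ p ∈ S, 1 / (p : ℝ) ≤ Real.log n * (43 / 100) :=
    mul_le_mul_of_nonneg_left hcon.le hlog0.le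
  linarith

end Pool.Agent.ALT
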