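import Pool.Agent.ALT.EDefs
import Pool.Agent.ALT.EL1

/-! module ALT-E6: large degrees -/

namespace Pool.Agent.ALT

open Finset

theorem exists_subset_sum (a : ℕ → ℝ) (S : Finset ℕ) (ha : ∀ p ∈ S, a p ≤ 1 / 100)
    (hS : 42 / 100 ≤ ∑ p ∈ S, a p) :
    ∃ P ⊆ S, 42 / 100 ≤ ∑ p ∈ P, a p ∧ ∑ p ∈ P, a p ≤ 43 / 100 := by
  induction S using Finset.induction_on with
  | empty => norm_num at hS
  | insert p S hp ih =>
    by_cases h : ∑ p ∈ insert p S, a p ≤ 43 / 100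
    · exact ⟨_, Subset.refl _, hS, h⟩
    · rw [sum_insert hp] at h hS
      have h1 := ha p (mem_insert_self _ _)
      obtain ⟨P, hP, h2⟩ := ih (fun q hq => ha q (mem_insert_of_mem hq)) (by linarith)
      exact ⟨P, hP.trans (subset_insert _ _), h2⟩

theorem corr_le (n x : ℕ) : corr n x ≤ 2 := by
  unfold corr; split <;> norm_num

theorem sum_corr_le {n p : ℕ} :
    ∑ j ∈ Icc 1 (n / p - 1), corr n (p + j * p) / j ≤ 2 * (1 + Real.log n) := by
  have h1 : ∑ j ∈ Icc 1 (n / p - 1), corr n (p + j * p) / j ≤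
      ∑ j ∈ Icc 1 n, 2 * (j : ℝ)⁻¹ := by
    have h2 : Icc 1 (n / p - 1) ⊆ Icc 1 n := by
      apply Icc_subset_Icc_right
      exact (Nat.sub_le _ _).trans (Nat.div_le_self _ _)
    refine le_trans (sum_le_sum ?_)
      (sum_le_sum_of_subset_of_nonneg h2 fun j _ _ => by positivity)
    intro j _
    rw [div_eq_mul_inv]
    exact mul_le_mul_of_nonneg_right (corr_le _ _) (by positivity)
  rw [← mul_sum] at h1
  have h2 := harmonic_le_one_add_log n
  rw [harmonic_eq_sum_Icc] at h2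
  push_cast at h2
  linarith

theorem LB_large {n : ℕ} (h : 4 * 10 ^ 9 ≤ n) :
    ∃ P : Finset ℕ, Adm P n ∧ (7 / 25 : ℝ) ≤ LB P n := by
  -- the cube root
  obtain ⟨y, hy, hy'⟩ : ∃ y, y ^ 3 ≤ n ∧ n < (y + 1) ^ 3 := by
    refine ⟨Nat.nthRoot 3 n, ?_, ?_⟩
    · exact Nat.pow_nthRoot_le (Or.inl (by norm_num))
    · exact Nat.lt_pow_nthRoot_add_one (by norm_num) n
  have hyl : 1587 ≤ y := by
    by_contra hc
    have h1 : y + 1 ≤ 1587 := by omega
    have h2 : (y + 1) ^ 3 ≤ 1587 ^ 3 := Nat.pow_le_pow_left h1 3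
    norm_num at h2
    omega
  have hsum := sum_inv_primes h hy hy'
  set S := (Nat.primesLE (n / 4)).filter (fun p => y < p) with hS
  have hmem : ∀ p ∈ S, y < p ∧ p ≤ n / 4 ∧ p.Prime := by
    intro p hp
    rw [hS, mem_filter, Nat.mem_primesLE] at hp
    exact ⟨hp.2, hp.1.1, hp.1.2⟩
  have hyr : (1587 : ℝ) ≤ y := by exact_mod_cast hyl
  have hy0 : (0 : ℝ) < y := by linarith
  obtain ⟨P, hPS, hP1, hP2⟩ := exists_subset_sum (fun p => 1 / (p : ℝ)) S
    (by
      intro p hp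
      have h1 := (hmem p hp).1
      have h2 : (1587 : ℝ) ≤ p := by exact_mod_cast (by omega : 1587 ≤ p)
      rw [div_le_div_iff₀ (by linarith) (by norm_num)]
      linarith) (by linarith)
  have hP : ∀ p ∈ P, y < p ∧ p ≤ n / 4 ∧ p.Prime := fun p hp => hmem p (hPS hp)
  refine ⟨P, ?_, ?_⟩
  · intro p hp
    obtain ⟨h1, h2, h3⟩ := hP p hp
    refine ⟨h3, ?_, ?_⟩
    · rcases h3.eq_two_or_odd' with h4 | h4
      · omega
      · exact h4
    · omega
  -- the estimate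
  have hn1 : 1 ≤ n := by omega
  have hn0 : (0 : ℝ) < n := by exact_mod_cast hn1
  have hlogn : 0 ≤ Real.log n := Real.log_natCast_nonneg n
  -- pair sum
  have hpair : ∑ x ∈ (P ×ˢ P).filter (fun x => x.1 < x.2 ∧ x.1 + x.2 ≤ n),
      corr n (x.1 + x.2) / (x.1 * x.2 : ℝ) ≤ 925 / 10000 := by
    have h1 : ∑ x ∈ (P ×ˢ P).filter (fun x => x.1 < x.2 ∧ x.1 + x.2 ≤ n),
        corr n (x.1 + x.2) / (x.1 * x.2 : ℝ) ≤
        ∑ x ∈ (P ×ˢ P).filter (fun x => x.1 < x.2), (1 / (x.1 : ℝ)) * (1 / (x.2 : ℝ)) := by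
      have h2 : (P ×ˢ P).filter (fun x => x.1 < x.2 ∧ x.1 + x.2 ≤ n) ⊆
          (P ×ˢ P).filter (fun x => x.1 < x.2) := by
        intro x hx
        rw [mem_filter] at hx ⊢
        exact ⟨hx.1, hx.2.1⟩
      refine le_trans (sum_le_sum ?_)
        (sum_le_sum_of_subset_of_nonneg h2 fun x _ _ => by positivity)
      intro x hx
      rw [mem_filter, mem_product] at hx
      have h3 := hP _ hx.1.1
      have h4 := hP _ hx.1.2
      have h5 : corr n (x.1 + x.2) = 1 := by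
        unfold corr
        rw [if_neg]
        omega
      rw [h5, div_mul_div_comm, one_mul]
    have h2 : 2 * ∑ x ∈ (P ×ˢ P).filter (fun x => x.1 < x.2),
        (1 / (x.1 : ℝ)) * (1 / (x.2 : ℝ)) ≤ (∑ p ∈ P, 1 / (p : ℝ)) ^ 2 := by
      have h3 : (∑ p ∈ P, 1 / (p : ℝ)) ^ 2 =
          ∑ x ∈ P ×ˢ P, (1 / (x.1 : ℝ)) * (1 / (x.2 : ℝ)) := by
        rw [pow_two, sum_mul_sum, sum_product]
      have h4 : ∑ x ∈ (P ×ˢ P).filter (fun x => x.2 < x.1),
          (1 / (x.1 : ℝ)) * (1 / (x.2 : ℝ)) = ∑ x ∈ (P ×ˢ P).filter (fun x => x.1 < x.2),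
          (1 / (x.1 : ℝ)) * (1 / (x.2 : ℝ)) := by
        refine sum_nbij' (fun x => (x.2, x.1)) (fun x => (x.2, x.1)) ?_ ?_ ?_ ?_ ?_
        · intro x hx
          simp only [mem_filter, mem_product] at hx ⊢
          exact ⟨⟨hx.1.2, hx.1.1⟩, hx.2⟩
        · intro x hx
          simp only [mem_filter, mem_product] at hx ⊢
          exact ⟨⟨hx.1.2, hx.1.1⟩, hx.2⟩
        · intro x _; rfl
        · intro x _; rfl
        · intro x _
          ring
      have h5 : ∑ x ∈ (P ×ˢ P).filter (fun x => x.1 < x.2), (1 / (x.1 : ℝ)) * (1 / (x.2 : ℝ)) +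
          ∑ x ∈ (P ×ˢ P).filter (fun x => x.2 < x.1), (1 / (x.1 : ℝ)) * (1 / (x.2 : ℝ)) ≤
          ∑ x ∈ P ×ˢ P, (1 / (x.1 : ℝ)) * (1 / (x.2 : ℝ)) := by
        rw [← sum_union]
        · refine sum_le_sum_of_subset_of_nonneg ?_ fun x _ _ => by positivity
          exact union_subset (filter_subset _ _) (filter_subset _ _)
        · rw [disjoint_filter]
          intro x _ h6 h7
          omega
      rw [h4] at h5
      rw [h3]
      linarith
    have h3 : 0 ≤ ∑ p ∈ P, 1 / (p : ℝ) := sum_nonneg fun p _ => by positivity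
    have h4 : (∑ p ∈ P, 1 / (p : ℝ)) ^ 2 ≤ (43 / 100) ^ 2 := by
      apply pow_le_pow_left₀ h3 hP2
    have h5 : ((43 : ℝ) / 100) ^ 2 ≤ 2 * (925 / 10000) := by norm_num
    linarith
  -- the second sum
  have hsq : ∑ p ∈ P, (1 / (p : ℝ) ^ 2) * ∑ j ∈ Icc 1 (n / p - 1), corr n (p + j * p) / j ≤
      2 * (1 + Real.log n) * (43 / 100) / y := by
    have h1 : ∀ p ∈ P, (1 / (p : ℝ) ^ 2) * ∑ j ∈ Icc 1 (n / p - 1), corr n (p + j * p) / j ≤
        2 * (1 + Real.log n) / y * (1 / (p : ℝ)) := by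
      intro p hp
      have h2 := (hP p hp).1
      have h3 : (y : ℝ) ≤ p := by exact_mod_cast h2.le
      have hp0 : (0 : ℝ) < p := by linarith
      have h4 : (1 / (p : ℝ) ^ 2) ≤ 1 / y * (1 / p) := by
        rw [div_mul_div_comm, one_mul, pow_two]
        gcongr
      calc (1 / (p : ℝ) ^ 2) * ∑ j ∈ Icc 1 (n / p - 1), corr n (p + j * p) / j
          ≤ (1 / (p : ℝ) ^ 2) * (2 * (1 + Real.log n)) :=
            mul_le_mul_of_nonneg_left sum_corr_le (by positivity)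
        _ ≤ (1 / y * (1 / p)) * (2 * (1 + Real.log n)) :=
            mul_le_mul_of_nonneg_right h4 (by positivity)
        _ = 2 * (1 + Real.log n) / y * (1 / (p : ℝ)) := by ring
    refine (sum_le_sum h1).trans ?_
    rw [← mul_sum]
    calc 2 * (1 + Real.log n) / y * ∑ p ∈ P, 1 / (p : ℝ)
        ≤ 2 * (1 + Real.log n) / y * (43 / 100) :=
          mul_le_mul_of_nonneg_left hP2 (by positivity)
      _ = 2 * (1 + Real.log n) * (43 / 100) / y := by ring
  have hlog : Real.log n ≤ 3 * (11 * Real.log 2 + (y + 1) / 2048 - 1) := by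
    have h1 : Real.log n ≤ Real.log (((y : ℝ) + 1) ^ 3) :=
      Real.log_le_log hn0 (by exact_mod_cast hy'.le)
    rw [Real.log_pow] at h1
    have h2 := Real.log_le_sub_one_of_pos (x := ((y : ℝ) + 1) / 2048) (by positivity)
    rw [Real.log_div (by positivity) (by norm_num), show (2048 : ℝ) = 2 ^ 11 by norm_num,
      Real.log_pow] at h2
    push_cast at h1 h2
    norm_num at h1 h2 ⊢
    linarith
  have hl2' := Real.log_two_lt_d9
  have hsq' : 2 * (1 + Real.log n) * (43 / 100) / y ≤ 3 / 100 := by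
    rw [div_le_iff₀ hy0]
    linarith
  unfold LB
  rw [sum_sub_distrib]
  linarith

end Pool.Agent.ALT
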