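import Pool.Agent.ALT.EDefs

/-! module ALT-E3: degrees 14 to 59 -/

namespace Pool.Agent.ALT

open Finset

/-- rational version of `corr` -/
def corrQ (n x : ℕ) : ℚ := if n ≤ x + 1 then 2 else 1

/-- rational version of `LB` -/
def LBQ (P : Finset ℕ) (n : ℕ) : ℚ :=
  ∑ p ∈ P, ((1 / p : ℚ) - (1 / (p : ℚ) ^ 2) * ∑ j ∈ Icc 1 (n / p - 1), corrQ n (p + j * p) / j)
    - ∑ x ∈ (P ×ˢ P).filter (fun x => x.1 < x.2 ∧ x.1 + x.2 ≤ n),
        corrQ n (x.1 + x.2) / (x.1 * x.2 : ℚ)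

theorem corrQ_cast (n x : ℕ) : ((corrQ n x : ℚ) : ℝ) = corr n x := by
  unfold corrQ corr
  split_ifs <;> norm_num

theorem LBQ_cast (P : Finset ℕ) (n : ℕ) : ((LBQ P n : ℚ) : ℝ) = LB P n := by
  unfold LBQ LB
  push_cast
  simp only [corrQ_cast]

theorem LB_of_Q {P : Finset ℕ} {n : ℕ} (h : 7 / 25 ≤ LBQ P n) : (7 / 25 : ℝ) ≤ LB P n := by
  rw [← LBQ_cast]
  have h' : (((7 / 25 : ℚ)) : ℝ) ≤ ((LBQ P n : ℚ) : ℝ) := Rat.cast_le.2 h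
  refine le_trans (le_of_eq ?_) h'
  norm_num

theorem LBQ_a : ∀ n ∈ Icc 14 15, 7 / 25 ≤ LBQ {5, 7, 11} n := by decide +kernel

theorem LBQ_b : ∀ n ∈ Icc 16 24, 7 / 25 ≤ LBQ {5, 7, 11, 13} n := by decide +kernel

theorem LBQ_c : ∀ n ∈ Icc 25 44, 7 / 25 ≤ LBQ {5, 7, 11, 13, 17, 19} n := by decide +kernel

theorem LBQ_d : ∀ n ∈ Icc 45 59, 7 / 25 ≤ LBQ {5, 7, 11, 13, 17, 19, 23, 29} n := by
  decide +kernel

theorem LB_small {n : ℕ} (h14 : 14 ≤ n) (h59 : n ≤ 59) :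
    ∃ P : Finset ℕ, Adm P n ∧ (7 / 25 : ℝ) ≤ LB P n := by
  have hodd : ∀ p : ℕ, p ∈ ({5, 7, 11, 13, 17, 19, 23, 29} : Finset ℕ) → p.Prime ∧ Odd p := by
    decide +kernel
  by_cases h1 : n ≤ 15
  · refine ⟨{5, 7, 11}, ?_, LB_of_Q (LBQ_a n (mem_Icc.2 ⟨h14, h1⟩))⟩
    intro p hp
    have h := hodd p (by simp only [mem_insert, mem_singleton] at hp ⊢; omega)
    refine ⟨h.1, h.2, ?_⟩
    simp only [mem_insert, mem_singleton] at hp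
    omega
  by_cases h2 : n ≤ 24
  · refine ⟨{5, 7, 11, 13}, ?_, LB_of_Q (LBQ_b n (mem_Icc.2 ⟨by omega, h2⟩))⟩
    intro p hp
    have h := hodd p (by simp only [mem_insert, mem_singleton] at hp ⊢; omega)
    refine ⟨h.1, h.2, ?_⟩
    simp only [mem_insert, mem_singleton] at hp
    omega
  by_cases h3 : n ≤ 44
  · refine ⟨{5, 7, 11, 13, 17, 19}, ?_, LB_of_Q (LBQ_c n (mem_Icc.2 ⟨by omega, h3⟩))⟩
    intro p hp
    have h := hodd p (by simp only [mem_insert, mem_singleton] at hp ⊢; omega)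
    refine ⟨h.1, h.2, ?_⟩
    simp only [mem_insert, mem_singleton] at hp
    omega
  · refine ⟨{5, 7, 11, 13, 17, 19, 23, 29}, ?_, LB_of_Q (LBQ_d n (mem_Icc.2 ⟨by omega, h59⟩))⟩
    intro p hp
    have h := hodd p hp
    refine ⟨h.1, h.2, ?_⟩
    simp only [mem_insert, mem_singleton] at hp
    omega

end Pool.Agent.ALT
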