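import Pool.Agent.ALT.Base4
import Pool.Agent.ALT.EDefs

/-! module ALT-E2: degrees 8 to 13 -/

namespace Pool.Agent.ALT

open Equiv Finset

/-- computable `z_μ` -/
def zN (μ : Multiset ℕ) : ℕ := μ.prod * ∏ i ∈ μ.toFinset, (μ.count i).factorial

theorem wt_zN (μ : Multiset ℕ) : 2 * wt μ = (((2 : ℚ) / (zN μ : ℚ) : ℚ) : ℝ) := by
  have h : ((zN μ : ℕ) : ℝ) =
      ((μ.prod : ℕ) : ℝ) * ∏ i ∈ μ.toFinset, ((μ.count i).factorial : ℝ) := by
    unfold zN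
    rw [Nat.cast_mul, Nat.cast_prod]
  unfold wt
  rw [Rat.cast_div, Rat.cast_natCast, h]
  rw [Rat.cast_ofNat]
  ring

/-- the multisets of a list of lists -/
def toMs (L : List (List ℕ)) : List (Multiset ℕ) := L.map (fun l => (l : Multiset ℕ))

theorem ep_of_list (n : ℕ) (L : List (List ℕ)) (hL : (toMs L).Nodup)
    (h : ∀ μ ∈ toMs L, μ.sum = n ∧ (∀ i ∈ μ, 0 < i) ∧ Even (μ.sum + Multiset.card μ))
    (hE : ∀ μ ∈ toMs L, ∃ p ∈ [3, 5, 7], p + 3 ≤ n ∧ μ.count p = 1 ∧ ∀ i ∈ μ, p ∣ i → i = p)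
    (hs : (7 / 25 : ℚ) ≤ ((toMs L).map (fun μ => (2 : ℚ) / (zN μ : ℚ))).sum) :
    (7 / 25 : ℝ) ≤ avC n 1 (ind (EE n)) := by
  refine le_trans ?_ (avC_ge_list (toMs L) hL h (fun μ => ind_nonneg _ μ) (fun μ hμ => ?_))
  · have h1 : ((toMs L).map (fun μ => 2 * wt μ)) =
        (((toMs L).map (fun μ => (2 : ℚ) / (zN μ : ℚ))).map (fun q : ℚ => (q : ℝ))) := by
      rw [List.map_map]
      apply List.map_congr_left
      intro μ _
      exact wt_zN μ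
    have h2 : (((toMs L).map (fun μ => (2 : ℚ) / (zN μ : ℚ))).map (fun q : ℚ => (q : ℝ))).sum =
        (((toMs L).map (fun μ => (2 : ℚ) / (zN μ : ℚ))).sum : ℚ) := by
      generalize (toMs L).map (fun μ => (2 : ℚ) / (zN μ : ℚ)) = M
      induction M with
      | nil => simp
      | cons a M ih => rw [List.map_cons, List.sum_cons, List.sum_cons, ih, Rat.cast_add]
    rw [h1, h2]
    have h3 : ((7 / 25 : ℚ) : ℝ) ≤ ((((toMs L).map (fun μ => (2 : ℚ) / (zN μ : ℚ))).sum : ℚ) : ℝ) :=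
      Rat.cast_le.2 hs
    have h4 : ((7 / 25 : ℚ) : ℝ) = 7 / 25 := by norm_num
    rw [h4] at h3
    exact h3
  · obtain ⟨p, hp, hpn, hc, hd⟩ := hE μ hμ
    apply ind_pos
    refine ⟨p, ?_, hpn, hc, hd⟩
    have hp' : p = 3 ∨ p = 5 ∨ p = 7 := by simpa using hp
    rcases hp' with rfl | rfl | rfl <;> norm_num

theorem ep_8 : (7 / 25 : ℝ) ≤ avC 8 1 (ind (EE 8)) :=
  ep_of_list 8 [[5, 3], [3, 2, 2, 1], [5, 1, 1, 1]] (by decide +kernel) (by decide +kernel)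
    (by decide +kernel) (by decide +kernel)

theorem ep_9 : (7 / 25 : ℝ) ≤ avC 9 1 (ind (EE 9)) :=
  ep_of_list 9 [[5, 3, 1], [4, 3, 2], [5, 2, 2], [3, 2, 2, 1, 1]] (by decide +kernel)
    (by decide +kernel) (by decide +kernel) (by decide +kernel)

theorem ep_10 : (7 / 25 : ℝ) ≤ avC 10 1 (ind (EE 10)) :=
  ep_of_list 10 [[7, 3], [4, 3, 2, 1], [5, 3, 1, 1], [5, 2, 2, 1]] (by decide +kernel)
    (by decide +kernel) (by decide +kernel) (by decide +kernel)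

theorem ep_11 : (7 / 25 : ℝ) ≤ avC 11 1 (ind (EE 11)) :=
  ep_of_list 11 [[7, 3, 1], [5, 4, 2], [4, 3, 2, 1, 1], [7, 2, 2], [5, 2, 2, 1, 1], [5, 3, 3],
    [5, 3, 1, 1, 1]] (by decide +kernel) (by decide +kernel) (by decide +kernel)
    (by decide +kernel)

theorem ep_12 : (7 / 25 : ℝ) ≤ avC 12 1 (ind (EE 12)) :=
  ep_of_list 12 [[7, 5], [5, 4, 2, 1], [7, 3, 1, 1], [7, 2, 2, 1], [5, 3, 3, 1], [4, 4, 3, 1],
    [5, 3, 2, 2], [4, 3, 2, 1, 1, 1], [5, 2, 2, 1, 1, 1], [5, 3, 1, 1, 1, 1],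
    [7, 1, 1, 1, 1, 1]] (by decide +kernel) (by decide +kernel) (by decide +kernel)
    (by decide +kernel)

theorem ep_13 : (7 / 25 : ℝ) ≤ avC 13 1 (ind (EE 13)) :=
  ep_of_list 13 [[7, 5, 1], [8, 3, 2], [7, 4, 2], [6, 5, 2], [5, 4, 2, 1, 1], [7, 2, 2, 1, 1],
    [5, 3, 2, 2, 1], [7, 3, 3], [7, 3, 1, 1, 1], [5, 5, 3], [5, 4, 4]] (by decide +kernel)
    (by decide +kernel) (by decide +kernel) (by decide +kernel)

theorem ep_small {n : ℕ} (h8 : 8 ≤ n) (h13 : n ≤ 13) :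
    (7 / 25 : ℝ) ≤ avC n 1 (ind (EE n)) := by
  interval_cases n
  · exact ep_8
  · exact ep_9
  · exact ep_10
  · exact ep_11
  · exact ep_12
  · exact ep_13

end Pool.Agent.ALT
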