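import Pool.Agent.ALT.EDefs

/-! module ALT-E4: degrees 60 to `4 * 10 ^ 9` -/

namespace Pool.Agent.ALT

open Finset

/-- upper bound for `10 ^ 9 * H_m` -/
def ewH (m : ℕ) : ℕ :=
  if m ≤ 200 then ((List.range m).map (fun j => 1000000000 / (j + 1) + 1)).sum
  else 1000000000 + 693200000 * (Nat.log2 m + 1)

/-- upper bound for `10 ^ 9 * (H + 1 / (A / p - 1) - 1 / 2) / p ^ 2` -/
def ewT (A B p : ℕ) : ℕ :=
  (ewH (B / p - 1) + (1000000000 / (A / p - 1) + 1) - 500000000) / (p * p) + 1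

/-- the numerical check of a window -/
def ewChk (L : List ℕ) (A B : ℕ) : Bool :=
  L.all (fun p => decide (3 ≤ p ∧ 2 * p + 2 ≤ A)) &&
  decide ((L.map (fun p => 1000000000 / p)).sum + L.length ≤ 1000000000) &&
  decide ((L.map (fun p => 1000000000 / p)).sum * (L.map (fun p => 1000000000 / p)).sum
    + 2000000000 * (L.map (ewT A B)).sum + 560000000000000000
      ≤ 2000000000 * (L.map (fun p => 1000000000 / p)).sum)

theorem ewHarm_eq (m : ℕ) : (∑ j ∈ Icc 1 m, (1 / (j : ℝ))) = ∑ j ∈ range m, 1 / ((j + 1 : ℕ) : ℝ) := by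
  rw [Finset.range_eq_Ico, Finset.sum_Ico_add' (fun j => 1 / ((j : ℕ) : ℝ)) 0 m 1]
  rfl

theorem one_div_le_ceil (j : ℕ) (hj : 1 ≤ j) :
    1 / (j : ℝ) ≤ ((1000000000 / j + 1 : ℕ) : ℝ) / 1000000000 := by
  have h1 : 1000000000 < j * (1000000000 / j + 1) := Nat.lt_mul_div_succ _ (by omega)
  have h2 : (1000000000 : ℝ) ≤ (j : ℝ) * ((1000000000 / j + 1 : ℕ) : ℝ) := by
    exact_mod_cast h1.le
  have hj' : (0 : ℝ) < j := by exact_mod_cast hj
  rw [div_le_div_iff₀ hj' (by norm_num)]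
  linarith

theorem floor_le_one_div (j : ℕ) (hj : 1 ≤ j) :
    ((1000000000 / j : ℕ) : ℝ) / 1000000000 ≤ 1 / (j : ℝ) := by
  have h1 : j * (1000000000 / j) ≤ 1000000000 := Nat.mul_div_le _ _
  have h2 : (j : ℝ) * ((1000000000 / j : ℕ) : ℝ) ≤ (1000000000 : ℝ) := by
    exact_mod_cast h1
  have hj' : (0 : ℝ) < j := by exact_mod_cast hj
  rw [div_le_div_iff₀ (by norm_num) hj']
  linarith

theorem ewHarm_le (m : ℕ) : (∑ j ∈ Icc 1 m, (1 / (j : ℝ))) ≤ (ewH m : ℝ) / 1000000000 := by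
  unfold ewH
  split_ifs with h
  · rw [ewHarm_eq]
    have h1 : (((List.range m).map (fun j => 1000000000 / (j + 1) + 1)).sum : ℕ) =
        ∑ j ∈ range m, (1000000000 / (j + 1) + 1) := by
      rw [← List.toFinset_range, List.sum_toFinset _ (List.nodup_range)]
    rw [h1, Nat.cast_sum, Finset.sum_div]
    exact Finset.sum_le_sum fun j _ => one_div_le_ceil (j + 1) (by omega)
  · have h1 := harmonic_le_one_add_log m
    have h2 : ((harmonic m : ℚ) : ℝ) = ∑ j ∈ Icc 1 m, (1 / (j : ℝ)) := by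
      rw [ewHarm_eq, harmonic]
      push_cast
      simp [one_div]
    rw [h2] at h1
    have h3 : m < 2 ^ (Nat.log2 m + 1) := Nat.lt_log2_self
    have hm : (0 : ℝ) < m := by
      have : 0 < m := by omega
      exact_mod_cast this
    have h4 : Real.log m ≤ (Nat.log2 m + 1 : ℕ) * Real.log 2 := by
      rw [← Real.log_pow]
      apply Real.log_le_log hm
      exact_mod_cast h3.le
    have h5 := Real.log_two_lt_d9
    have h6 : (0 : ℝ) ≤ (Nat.log2 m + 1 : ℕ) := Nat.cast_nonneg _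
    have h7 : ((Nat.log2 m + 1 : ℕ) : ℝ) * Real.log 2 ≤ (Nat.log2 m + 1 : ℕ) * 0.6932 := by
      apply mul_le_mul_of_nonneg_left _ h6
      linarith
    have h8 : (((1000000000 + 693200000 * (Nat.log2 m + 1) : ℕ) : ℝ)) / 1000000000
        = 1 + (Nat.log2 m + 1 : ℕ) * 0.6932 := by
      push_cast
      ring
    rw [h8]
    linarith

/-- the inner sum -/
theorem ew_inner {p A B n : ℕ} (h3 : 3 ≤ p) (hpA : 2 * p + 2 ≤ A) (hA : A ≤ n) (hB : n ≤ B) :
    (∑ j ∈ Icc 1 (n / p - 1), corr n (p + j * p) / j) ≤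
      (∑ j ∈ Icc 1 (B / p - 1), (1 / (j : ℝ))) + 1 / ((A / p - 1 : ℕ) : ℝ) := by
  have hp : 0 < p := by omega
  have hAp : 2 ≤ A / p := (Nat.le_div_iff_mul_le hp).2 (by omega)
  have hAn : A / p ≤ n / p := Nat.div_le_div_right hA
  have hnB : n / p ≤ B / p := Nat.div_le_div_right hB
  have h1 : ∀ j ∈ Icc 1 (n / p - 1), corr n (p + j * p) / j ≤
      1 / (j : ℝ) + (if j = n / p - 1 then 1 / (j : ℝ) else 0) := by
    intro j hj
    rw [mem_Icc] at hj
    have hj' : (0 : ℝ) < j := by exact_mod_cast hj.1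
    unfold corr
    by_cases hjn : j = n / p - 1
    · rw [if_pos hjn]
      split_ifs
      · apply le_of_eq; ring
      · have : 0 < 1 / (j : ℝ) := by positivity
        linarith
    · rw [if_neg hjn, if_neg, add_zero]
      intro hc
      have h2 : j + 1 ≤ n / p - 1 := by omega
      have h4 : (j + 2) * p ≤ n := by
        calc (j + 2) * p ≤ (n / p) * p := Nat.mul_le_mul_right p (by omega)
          _ ≤ n := Nat.div_mul_le_self n p
      have h5 : (j + 2) * p = (p + j * p) + p := by ring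
      omega
  refine (Finset.sum_le_sum h1).trans ?_
  rw [Finset.sum_add_distrib]
  apply add_le_add
  · apply Finset.sum_le_sum_of_subset_of_nonneg
    · apply Finset.Icc_subset_Icc_right
      omega
    · intro i _ _
      positivity
  · rw [Finset.sum_ite_eq' (Icc 1 (n / p - 1)) (n / p - 1) (fun j => 1 / (j : ℝ))]
    rw [if_pos (by rw [mem_Icc]; omega)]
    apply one_div_le_one_div_of_le
    · have : 0 < A / p - 1 := by omega
      exact_mod_cast this
    · have : A / p - 1 ≤ n / p - 1 := by omega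
      exact_mod_cast this

/-- the pair sum -/
theorem ew_pair (P : Finset ℕ) {A n : ℕ} (hP : ∀ p ∈ P, 3 ≤ p ∧ 2 * p + 2 ≤ A) (hA : A ≤ n) :
    (∑ x ∈ (P ×ˢ P).filter (fun x => x.1 < x.2 ∧ x.1 + x.2 ≤ n),
        corr n (x.1 + x.2) / (x.1 * x.2 : ℝ)) =
      ((∑ p ∈ P, 1 / (p : ℝ)) ^ 2 - ∑ p ∈ P, 1 / (p : ℝ) ^ 2) / 2 := by
  have h1 : (∑ x ∈ (P ×ˢ P).filter (fun x => x.1 < x.2 ∧ x.1 + x.2 ≤ n),
        corr n (x.1 + x.2) / (x.1 * x.2 : ℝ)) =
      ∑ x ∈ (P ×ˢ P).filter (fun x => x.1 < x.2), 1 / (x.1 * x.2 : ℝ) := by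
    have h2 : (P ×ˢ P).filter (fun x => x.1 < x.2 ∧ x.1 + x.2 ≤ n) =
        (P ×ˢ P).filter (fun x => x.1 < x.2) := by
      apply Finset.filter_congr
      intro x hx
      rw [Finset.mem_product] at hx
      have := hP _ hx.1
      have := hP _ hx.2
      omega
    rw [h2]
    apply Finset.sum_congr rfl
    intro x hx
    rw [Finset.mem_filter, Finset.mem_product] at hx
    have := hP _ hx.1.1
    have := hP _ hx.1.2
    unfold corr
    rw [if_neg (by omega)]
  have h3 : (∑ x ∈ (P ×ˢ P).filter (fun x => x.2 < x.1), 1 / (x.1 * x.2 : ℝ)) =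
      ∑ x ∈ (P ×ˢ P).filter (fun x => x.1 < x.2), 1 / (x.1 * x.2 : ℝ) := by
    refine Finset.sum_bij' (fun x _ => (x.2, x.1)) (fun x _ => (x.2, x.1)) ?_ ?_ ?_ ?_ ?_
    · intro x hx
      rw [Finset.mem_filter, Finset.mem_product] at hx ⊢
      exact ⟨⟨hx.1.2, hx.1.1⟩, hx.2⟩
    · intro x hx
      rw [Finset.mem_filter, Finset.mem_product] at hx ⊢
      exact ⟨⟨hx.1.2, hx.1.1⟩, hx.2⟩
    · intro x _; rfl
    · intro x _; rfl
    · intro x _
      simp only
      rw [mul_comm]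
  have h4 : (∑ x ∈ (P ×ˢ P).filter (fun x => x.1 = x.2), 1 / (x.1 * x.2 : ℝ)) =
      ∑ p ∈ P, 1 / (p : ℝ) ^ 2 := by
    refine Finset.sum_bij' (fun x _ => x.1) (fun p _ => (p, p)) ?_ ?_ ?_ ?_ ?_
    · intro x hx
      rw [Finset.mem_filter, Finset.mem_product] at hx
      exact hx.1.1
    · intro p hp
      rw [Finset.mem_filter, Finset.mem_product]
      exact ⟨⟨hp, hp⟩, rfl⟩
    · intro x hx
      rw [Finset.mem_filter] at hx
      exact Prod.ext rfl hx.2
    · intro p _; rfl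
    · intro x hx
      rw [Finset.mem_filter] at hx
      rw [← hx.2, sq]
  have h5 : (∑ p ∈ P, 1 / (p : ℝ)) ^ 2 = ∑ x ∈ P ×ˢ P, 1 / (x.1 * x.2 : ℝ) := by
    rw [sq, Finset.sum_mul_sum, Finset.sum_product]
    apply Finset.sum_congr rfl
    intro i _
    apply Finset.sum_congr rfl
    intro j _
    rw [one_div_mul_one_div]
  have h6 : (∑ x ∈ P ×ˢ P, 1 / (x.1 * x.2 : ℝ)) =
      (∑ x ∈ (P ×ˢ P).filter (fun x => x.1 < x.2), 1 / (x.1 * x.2 : ℝ)) +
      ((∑ x ∈ (P ×ˢ P).filter (fun x => x.2 < x.1), 1 / (x.1 * x.2 : ℝ)) +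
       (∑ x ∈ (P ×ˢ P).filter (fun x => x.1 = x.2), 1 / (x.1 * x.2 : ℝ))) := by
    rw [Finset.sum_filter, Finset.sum_filter, Finset.sum_filter, ← Finset.sum_add_distrib,
      ← Finset.sum_add_distrib]
    apply Finset.sum_congr rfl
    intro x _
    rcases lt_trichotomy x.1 x.2 with h | h | h
    · rw [if_pos h, if_neg (by omega), if_neg (by omega)]; ring
    · rw [if_neg (by omega), if_neg (by omega), if_pos h]; ring
    · rw [if_neg (by omega), if_pos h, if_neg (by omega)]; ring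
  rw [h1, h5, h6, h3, h4]
  ring

theorem ew_term {p A B n : ℕ} (h3 : 3 ≤ p) (hpA : 2 * p + 2 ≤ A) (hA : A ≤ n) (hB : n ≤ B) :
    (1 / (p : ℝ) ^ 2) * (∑ j ∈ Icc 1 (n / p - 1), corr n (p + j * p) / j) -
      (1 / (p : ℝ) ^ 2) / 2 ≤ (ewT A B p : ℝ) / 1000000000 := by
  have hp : 0 < p := by omega
  have hAp : 2 ≤ A / p := (Nat.le_div_iff_mul_le hp).2 (by omega)
  have h1 := ew_inner h3 hpA hA hB
  have h2 := ewHarm_le (B / p - 1)
  have h4 := one_div_le_ceil (A / p - 1) (by omega)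
  have hp' : (0 : ℝ) < (p : ℝ) ^ 2 := by positivity
  set X := (∑ j ∈ Icc 1 (n / p - 1), corr n (p + j * p) / j) with hX
  have h5 : X - 1 / 2 ≤ ((ewH (B / p - 1) + (1000000000 / (A / p - 1) + 1) : ℕ) : ℝ) / 1000000000
      - 1 / 2 := by
    push_cast at h4 ⊢
    rw [add_div]
    linarith
  have h6 : ((ewH (B / p - 1) + (1000000000 / (A / p - 1) + 1) : ℕ) : ℝ) / 1000000000 - 1 / 2 ≤
      ((ewH (B / p - 1) + (1000000000 / (A / p - 1) + 1) - 500000000 : ℕ) : ℝ) / 1000000000 := by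
    have : ((ewH (B / p - 1) + (1000000000 / (A / p - 1) + 1) : ℕ) : ℝ) - 500000000 ≤
      ((ewH (B / p - 1) + (1000000000 / (A / p - 1) + 1) - 500000000 : ℕ) : ℝ) := by
      have h7 : ewH (B / p - 1) + (1000000000 / (A / p - 1) + 1) ≤
        (ewH (B / p - 1) + (1000000000 / (A / p - 1) + 1) - 500000000) + 500000000 := by omega
      have h8 : ((ewH (B / p - 1) + (1000000000 / (A / p - 1) + 1) : ℕ) : ℝ) ≤
        ((ewH (B / p - 1) + (1000000000 / (A / p - 1) + 1) - 500000000 : ℕ) : ℝ) + 500000000 := by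
        exact_mod_cast h7
      linarith
    linarith
  have h9 : ((ewH (B / p - 1) + (1000000000 / (A / p - 1) + 1) - 500000000 : ℕ) : ℝ) ≤
      (p : ℝ) ^ 2 * (ewT A B p : ℝ) := by
    have := Nat.lt_mul_div_succ
      (ewH (B / p - 1) + (1000000000 / (A / p - 1) + 1) - 500000000) (Nat.mul_pos hp hp)
    unfold ewT
    rw [sq]
    exact_mod_cast this.le
  have h10 : (1 / (p : ℝ) ^ 2) * X - (1 / (p : ℝ) ^ 2) / 2 = (X - 1 / 2) / (p : ℝ) ^ 2 := by
    field_simp
  rw [h10, div_le_iff₀ hp']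
  calc X - 1 / 2 ≤ ((ewH (B / p - 1) + (1000000000 / (A / p - 1) + 1) - 500000000 : ℕ) : ℝ)
        / 1000000000 := h5.trans h6
    _ ≤ ((p : ℝ) ^ 2 * (ewT A B p : ℝ)) / 1000000000 := by gcongr
    _ = (ewT A B p : ℝ) / 1000000000 * (p : ℝ) ^ 2 := by ring

theorem ew_window (L : List ℕ) (A B n : ℕ) (hnd : L.Nodup) (hprime : ∀ p ∈ L, p.Prime)
    (hchk : ewChk L A B = true) (hA : A ≤ n) (hB : n ≤ B) :
    ∃ P : Finset ℕ, Adm P n ∧ (7 / 25 : ℝ) ≤ LB P n := by
  unfold ewChk at hchk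
  simp only [Bool.and_eq_true, List.all_eq_true, decide_eq_true_eq] at hchk
  obtain ⟨⟨hall, hlen⟩, hnum⟩ := hchk
  refine ⟨L.toFinset, ?_, ?_⟩
  · intro p hp
    rw [List.mem_toFinset] at hp
    have h1 := hall p hp
    refine ⟨hprime p hp, (hprime p hp).odd_of_ne_two (by omega), by omega⟩
  · have hP : ∀ p ∈ L.toFinset, 3 ≤ p ∧ 2 * p + 2 ≤ A := fun p hp =>
      hall p (List.mem_toFinset.1 hp)
    unfold LB
    rw [ew_pair L.toFinset hP hA]
    rw [← List.sum_toFinset (fun p => 1000000000 / p) hnd] at hlen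
    rw [← List.sum_toFinset (fun p => 1000000000 / p) hnd,
      ← List.sum_toFinset (ewT A B) hnd] at hnum
    rw [← List.toFinset_card_of_nodup hnd] at hlen
    set P := L.toFinset with hPdef
    set s : ℕ := ∑ p ∈ P, 1000000000 / p with hs
    set t : ℕ := ∑ p ∈ P, ewT A B p with ht
    set S : ℝ := ∑ p ∈ P, 1 / (p : ℝ) with hS
    have h1 : (s : ℝ) / 1000000000 ≤ S := by
      rw [hs, hS, Nat.cast_sum, Finset.sum_div]
      exact Finset.sum_le_sum fun p hp => floor_le_one_div p (by have := hP p hp; omega)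
    have h2 : S ≤ 1 := by
      have h3 : S ≤ ∑ p ∈ P, ((1000000000 / p + 1 : ℕ) : ℝ) / 1000000000 :=
        Finset.sum_le_sum fun p hp => one_div_le_ceil p (by have := hP p hp; omega)
      rw [← Finset.sum_div, ← Nat.cast_sum, Finset.sum_add_distrib, Finset.sum_const,
        smul_eq_mul, mul_one] at h3
      have h4 : ((∑ p ∈ P, 1000000000 / p + P.card : ℕ) : ℝ) ≤ 1000000000 := by
        exact_mod_cast hlen
      refine h3.trans ?_
      rw [div_le_one (by norm_num)]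
      exact h4
    have h5 : (∑ p ∈ P, ((1 / (p : ℝ) ^ 2) *
        (∑ j ∈ Icc 1 (n / p - 1), corr n (p + j * p) / j) - (1 / (p : ℝ) ^ 2) / 2)) ≤
        (t : ℝ) / 1000000000 := by
      rw [ht, Nat.cast_sum, Finset.sum_div]
      exact Finset.sum_le_sum fun p hp => ew_term (hP p hp).1 (hP p hp).2 hA hB
    rw [Finset.sum_sub_distrib, ← Finset.sum_div] at h5
    rw [Finset.sum_sub_distrib]
    have h6 : ((s : ℝ) * s + 2000000000 * t + 560000000000000000) ≤ 2000000000 * s := by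
      exact_mod_cast hnum
    have h7 : (0 : ℝ) ≤ (s : ℝ) / 1000000000 := by positivity
    have h8 : (7 / 25 : ℝ) ≤ (s : ℝ) / 1000000000 - ((s : ℝ) / 1000000000) ^ 2 / 2
        - (t : ℝ) / 1000000000 := by
      have : (s : ℝ) / 1000000000 - ((s : ℝ) / 1000000000) ^ 2 / 2 - (t : ℝ) / 1000000000 =
        (2000000000 * s - (s * s + 2000000000 * t)) / 2000000000000000000 := by
        ring
      rw [this, le_div_iff₀ (by norm_num)]
      linarith
    have h9 : (s : ℝ) / 1000000000 - ((s : ℝ) / 1000000000) ^ 2 / 2 ≤ S - S ^ 2 / 2 := by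
      nlinarith
    linarith

/-- a simple primality test -/
def ewPr (p : ℕ) : Bool :=
  decide (2 ≤ p ∧ p < 784) && (List.range 28).all (fun d => decide (d < 2 ∨ p % d ≠ 0 ∨ p = d))

theorem ewPr_prime {p : ℕ} (h : ewPr p = true) : p.Prime := by
  unfold ewPr at h
  simp only [Bool.and_eq_true, List.all_eq_true, decide_eq_true_eq, List.mem_range] at h
  obtain ⟨⟨h2, hp⟩, hd⟩ := h
  rw [Nat.prime_def_minFac]
  refine ⟨h2, ?_⟩
  by_contra hne
  have hpr : p.minFac.Prime := Nat.minFac_prime (by omega)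
  have hdvd : p.minFac ∣ p := Nat.minFac_dvd p
  have hnp : ¬ p.Prime := fun hc => hne ((Nat.prime_def_minFac.1 hc).2)
  have hsq : p.minFac ^ 2 ≤ p := Nat.minFac_sq_le_self (by omega) hnp
  have hlt : p.minFac < 28 := by
    by_contra hc
    push Not at hc
    have : 28 ^ 2 ≤ p.minFac ^ 2 := Nat.pow_le_pow_left hc 2
    omega
  rcases hd _ hlt with h | h | h
  · exact absurd hpr.two_le (by omega)
  · exact h (Nat.mod_eq_zero_of_dvd hdvd)
  · exact hne h.symm

theorem LB_medium {n : ℕ} (h60 : 60 ≤ n) (h : n ≤ 4 * 10 ^ 9) :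
    ∃ P : Finset ℕ, Adm P n ∧ (7 / 25 : ℝ) ≤ LB P n := by
  have key : ∀ (L : List ℕ) (A B n : ℕ), L.Nodup → L.all ewPr = true → ewChk L A B = true →
      A ≤ n → n ≤ B → ∃ P : Finset ℕ, Adm P n ∧ (7 / 25 : ℝ) ≤ LB P n := by
    intro L A B n h1 h2 h3 h4 h5
    exact ew_window L A B n h1 (fun p hp => ewPr_prime (List.all_eq_true.1 h2 p hp)) h3 h4 h5
  rcases Nat.lt_or_ge n 70 with h1 | h1
  · exact key [7, 11, 13, 17, 19, 23, 29] 60 69 n (by decide) (by decide +kernel)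
      (by decide +kernel) h60 (by omega)
  rcases Nat.lt_or_ge n 99 with h2 | h2
  · exact key [7, 11, 13, 17, 19, 23, 29, 31] 70 98 n (by decide) (by decide +kernel)
      (by decide +kernel) h1 (by omega)
  rcases Nat.lt_or_ge n 307 with h3 | h3
  · exact key [11, 13, 17, 19, 23, 29, 31, 37, 41, 43, 47] 99 306 n (by decide)
      (by decide +kernel) (by decide +kernel) h2 (by omega)
  rcases Nat.lt_or_ge n 8498 with h4 | h4
  · exact key [19, 23, 29, 31, 37, 41, 43, 47, 53, 59, 61, 67, 71, 73, 79, 83, 89, 97, 101, 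
    103, 107, 109, 113, 127, 131, 137, 139, 149, 151] 307 8497 n (by decide +kernel)
      (by decide +kernel) (by decide +kernel) h3 (by omega)
  · exact key [53, 59, 61, 67, 71, 73, 79, 83, 89, 97, 101, 103, 107, 109, 113, 127, 131, 137, 
    139, 149, 151, 157, 163, 167, 173, 179, 181, 191, 193, 197, 199, 211, 223, 227, 
    229, 233, 239, 241, 251, 257, 263, 269, 271, 277, 281, 283, 293, 307, 311, 313, 
    317, 331, 337, 347, 349, 353, 359, 367, 373, 379, 383, 389, 397, 401, 409, 419, 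
    421, 431, 433, 439, 443, 449, 457, 461, 463, 467, 479, 487, 491, 499, 503, 509, 
    521, 523, 541, 547, 557, 563, 569, 571, 577, 587, 593, 599, 601, 607, 613, 617, 
    619, 631, 641, 643, 647, 653, 659, 661, 673, 677, 683, 691, 701, 709, 719, 727, 
    733, 739, 743, 751, 757] 8498 (4 * 10 ^ 9) n (by decide +kernel)
      (by decide +kernel) (by decide +kernel) h4 h

end Pool.Agent.ALT
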