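import Mathlib

/-! module ALT-J: Jordan's theorem for cycles of prime length -/

namespace Pool.Agent.ALT

open Equiv MulAction Equiv.Perm

variable {α : Type*} [Fintype α] [DecidableEq α]

/-- permutations fixing all points outside the support of `g` -/
def fixOut (g : Perm α) : Subgroup (Perm α) where
  carrier := {σ | ∀ x, x ∉ g.support → σ x = x}
  mul_mem' := by
    intro a b ha hb x hx
    rw [Perm.mul_apply, hb x hx, ha x hx]
  one_mem' := by
    intro x _
    rfl
  inv_mem' := by
    intro a ha x hx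
    rw [Perm.inv_eq_iff_eq]
    exact (ha x hx).symm

theorem mem_fixOut {g σ : Perm α} : σ ∈ fixOut g ↔ ∀ x, x ∉ g.support → σ x = x := Iff.rfl

theorem card_fixOut (g : Perm α) : Nat.card (fixOut g) = (g.support.card).factorial := by
  have e : Perm {x // x ∈ g.support} ≃ fixOut g :=
    (Perm.subtypeEquivSubtypePerm (fun x => x ∈ g.support)).trans
      (Equiv.subtypeEquivRight fun σ => by rw [mem_fixOut])
  rw [← Nat.card_congr e, Nat.card_perm, Nat.card_eq_fintype_card, Fintype.card_coe]

theorem factorization_factorial_prime {p : ℕ} (hp : p.Prime) :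
    (p.factorial).factorization p = 1 := by
  obtain ⟨q, rfl⟩ := Nat.exists_eq_succ_of_ne_zero hp.ne_zero
  rw [Nat.factorial_succ, Nat.factorization_mul (by omega) (Nat.factorial_ne_zero q)]
  rw [Finsupp.add_apply, hp.factorization_self]
  have : (q.factorial).factorization (q + 1) = 0 := by
    apply Nat.factorization_eq_zero_of_not_dvd
    intro h
    rw [hp.dvd_factorial] at h
    omega
  simp [this]

/-- Sylow argument: if `h ∈ G` preserves the support of `g`, some `k h`, `k ∈ G` trivial outside the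
support, normalises `⟨g⟩`. -/
theorem exists_normalizing {G : Subgroup (Perm α)} {p : ℕ} (hp : p.Prime)
    {g : Perm α} (hgc : g.IsCycle) (hgp : g.support.card = p) (hg : g ∈ G)
    {h : Perm α} (hh : h ∈ G) (hs : ∀ x, x ∉ g.support → h x ∉ g.support) :
    ∃ t ∈ G, (∀ x, x ∉ g.support → t x = h x) ∧ t * g * t⁻¹ ∈ Subgroup.zpowers g := by
  classical
  have : Fact p.Prime := ⟨hp⟩
  set K : Subgroup (Perm α) := G ⊓ fixOut g with hK
  have horder : orderOf g = p := by rw [hgc.orderOf, hgp]
  have hs' : ∀ x, x ∉ g.support → h⁻¹ x ∉ g.support := by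
    have hm : ∀ x ∈ (g.support)ᶜ, h x ∈ (g.support)ᶜ := by
      intro x hx
      rw [Finset.mem_compl] at hx ⊢
      exact hs x hx
    have himg : (g.support)ᶜ.image h = (g.support)ᶜ := by
      apply Finset.eq_of_subset_of_card_le
      · intro y hy
        obtain ⟨x, hx, rfl⟩ := Finset.mem_image.1 hy
        exact hm x hx
      · rw [Finset.card_image_of_injective _ h.injective]
    intro x hx
    have : x ∈ (g.support)ᶜ.image h := by rw [himg]; exact Finset.mem_compl.2 hx
    obtain ⟨y, hy, rfl⟩ := Finset.mem_image.1 this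
    have e : h⁻¹ (h y) = y := h.symm_apply_apply y
    rw [e]
    exact Finset.mem_compl.1 hy
  have hgK : g ∈ K := ⟨hg, fun x hx => by simpa using hx⟩
  have hcK : h * g * h⁻¹ ∈ K := by
    refine ⟨G.mul_mem (G.mul_mem hh hg) (G.inv_mem hh), ?_⟩
    intro x hx
    have : g (h⁻¹ x) = h⁻¹ x := by simpa using hs' x hx
    rw [Perm.mul_apply, Perm.mul_apply, this]
    exact h.apply_symm_apply x
  have hcard : (Nat.card K).factorization p = 1 := by
    have h1 : Nat.card K ∣ p.factorial := by
      have := Subgroup.card_dvd_of_le (inf_le_right : K ≤ fixOut g)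
      rwa [card_fixOut, hgp] at this
    have h2 : (Nat.card K).factorization p ≤ 1 := by
      rw [← factorization_factorial_prime hp]
      exact (Nat.factorization_le_iff_dvd (Nat.card_pos).ne' (Nat.factorial_ne_zero p)).2 h1 p
    have h3 : p ∣ Nat.card K := by
      have : orderOf (⟨g, hgK⟩ : K) ∣ Nat.card K := orderOf_dvd_natCard _
      rwa [Subgroup.orderOf_mk, horder] at this
    have h4 := (hp.dvd_iff_one_le_factorization (Nat.card_pos (α := K)).ne').1 h3
    omega
  have mk : ∀ (u : Perm α) (hu : u ∈ K), orderOf u = p →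
      Nat.card (Subgroup.zpowers (⟨u, hu⟩ : K)) = p ^ (Nat.card K).factorization p := by
    intro u hu ho
    rw [Nat.card_zpowers, Subgroup.orderOf_mk, ho, hcard, pow_one]
  have ho2 : orderOf (h * g * h⁻¹) = p := by
    rw [← horder]
    exact orderOf_injective (MulAut.conj h).toMonoidHom (MulAut.conj h).injective g
  set P : Sylow p K := Sylow.ofCard _ (mk g hgK horder) with hP
  set Q : Sylow p K := Sylow.ofCard _ (mk _ hcK ho2) with hQ
  obtain ⟨k, hk⟩ := MulAction.exists_smul_eq K Q P
  refine ⟨(k : Perm α) * h, G.mul_mem k.2.1 hh, ?_, ?_⟩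
  · intro x hx
    rw [Perm.mul_apply]
    exact k.2.2 _ (hs x hx)
  · have h5 : k * (⟨h * g * h⁻¹, hcK⟩ : K) * k⁻¹ ∈ (k • Q : Sylow p K) := by
      rw [← SetLike.mem_coe, Sylow.coe_smul, ← MulAut.conj_apply]
      refine Set.smul_mem_smul_set ?_
      exact Subgroup.mem_zpowers _
    rw [hk] at h5
    obtain ⟨i, hi⟩ := h5
    refine ⟨i, ?_⟩
    have := congrArg Subtype.val hi
    simp only [Subgroup.coe_mul, Subgroup.coe_inv, Subgroup.coe_zpow] at this
    simpa [mul_assoc] using this

omit [DecidableEq α] in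
/-- two elements normalising `⟨g⟩`: their commutator commutes with `g` -/
theorem comm_commute {g t₁ t₂ : Perm α} (h1 : t₁ * g * t₁⁻¹ ∈ Subgroup.zpowers g)
    (h2 : t₂ * g * t₂⁻¹ ∈ Subgroup.zpowers g) :
    Commute (t₁ * t₂ * t₁⁻¹ * t₂⁻¹) g := by
  obtain ⟨a, ha⟩ := h1
  obtain ⟨b, hb⟩ := h2
  simp only at ha hb
  have c1 : ∀ n : ℤ, t₁ * g ^ n * t₁⁻¹ = (g ^ a) ^ n := by
    intro n
    rw [ha, conj_zpow]
  have c2 : ∀ n : ℤ, t₂ * g ^ n * t₂⁻¹ = (g ^ b) ^ n := by
    intro n
    rw [hb, conj_zpow]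
  have e12 : (t₁ * t₂) * g * (t₁ * t₂)⁻¹ = (t₂ * t₁) * g * (t₂ * t₁)⁻¹ := by
    have l : (t₁ * t₂) * g * (t₁ * t₂)⁻¹ = t₁ * (t₂ * g * t₂⁻¹) * t₁⁻¹ := by group
    have r : (t₂ * t₁) * g * (t₂ * t₁)⁻¹ = t₂ * (t₁ * g * t₁⁻¹) * t₂⁻¹ := by group
    rw [l, r, ← hb, ← ha, c1, c2, ← zpow_mul, ← zpow_mul, mul_comm]
  set u := t₂ * t₁ with hu
  set c := t₁ * t₂ * t₁⁻¹ * t₂⁻¹ with hc
  have hcu : c * u = t₁ * t₂ := by rw [hc, hu]; group
  -- `c` commutes with `g' = u g u⁻¹`
  have hcg' : Commute c (u * g * u⁻¹) := by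
    have : c * (u * g * u⁻¹) * c⁻¹ = u * g * u⁻¹ := by
      have : c * (u * g * u⁻¹) * c⁻¹ = (c * u) * g * (c * u)⁻¹ := by group
      rw [this, hcu, e12]
    rw [Commute, SemiconjBy]
    calc c * (u * g * u⁻¹) = (c * (u * g * u⁻¹) * c⁻¹) * c := by group
      _ = u * g * u⁻¹ * c := by rw [this]
  -- `g ∈ ⟨g'⟩`
  have hg'mem : u * g * u⁻¹ ∈ Subgroup.zpowers g := by
    have r : u * g * u⁻¹ = t₂ * (t₁ * g * t₁⁻¹) * t₂⁻¹ := by rw [hu]; group
    rw [r, ← ha, c2, ← zpow_mul]
    exact ⟨_, rfl⟩
  have hle : Subgroup.zpowers (u * g * u⁻¹) ≤ Subgroup.zpowers g := by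
    rwa [Subgroup.zpowers_le]
  have hord : orderOf (u * g * u⁻¹) = orderOf g :=
    orderOf_injective (MulAut.conj u).toMonoidHom (MulAut.conj u).injective g
  have heq : Subgroup.zpowers (u * g * u⁻¹) = Subgroup.zpowers g := by
    apply Subgroup.eq_of_le_of_card_ge hle
    rw [Nat.card_zpowers, Nat.card_zpowers, hord]
  have hgmem : g ∈ Subgroup.zpowers (u * g * u⁻¹) := by
    rw [heq]; exact Subgroup.mem_zpowers g
  obtain ⟨i, hi⟩ := hgmem
  simp only at hi
  rw [← hi]
  exact hcg'.zpow_right i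

theorem jordan_prime {G : Subgroup (Perm α)}
    (hG : IsPreprimitive G α) {p : ℕ} (hp : p.Prime) (hp' : p + 3 ≤ Nat.card α)
    {g : Perm α} (hgc : g.IsCycle) (hgp : g.support.card = p) (hg : g ∈ G) :
    alternatingGroup α ≤ G := by
  classical
  obtain ⟨m, hm⟩ : ∃ m, Nat.card α = p + (m + 3) := ⟨Nat.card α - p - 3, by omega⟩
  have hncard : ((g.support : Set α)ᶜ).ncard = m + 3 := by
    have h := Set.ncard_add_ncard_compl (g.support : Set α)
    rw [Set.ncard_coe_finset, hgp, hm] at h
    omega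
  have hmult : IsMultiplyPretransitive G α (m + 3) := by
    have h1 : IsMultiplyPreprimitive G α ((m + 2) + 2) := by
      apply hG.isMultiplyPreprimitive (s := (g.support : Set α)ᶜ) hncard
      · have := hp.two_le
        omega
      · have := isPretransitive_of_isCycle_mem hgc hg
        apply IsPreprimitive.of_prime_card
        convert! hp
        rw [Nat.card_eq_fintype_card, Fintype.card_subtype, ← hgp]
        apply congr_arg
        ext x
        simp [SubMulAction.mem_ofFixingSubgroup_iff]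
    have h2 : IsMultiplyPretransitive G α ((m + 2) + 2) :=
      IsMultiplyPreprimitive.isMultiplyPretransitive ..
    have hle : ((m + 2) + 2 : ℕ) ≤ Nat.card α := by
      have := hp.two_le
      omega
    exact isMultiplyPretransitive_of_le (n := (m + 2) + 2) (by omega) hle
  -- an enumeration of the complement
  have hcardΔ : Fintype.card {x // x ∉ g.support} = m + 3 := by
    have : (Finset.univ.filter (fun x => x ∉ g.support)).card = m + 3 := by
      rw [← hncard, ← Set.ncard_coe_finset]
      congr 1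
      ext x
      simp
    rw [Fintype.card_subtype]
    exact this
  let e : Fin (m + 3) ≃ {x // x ∉ g.support} := (Fintype.equivFinOfCardEq hcardΔ).symm
  -- realise swaps on the complement
  have real : ∀ a b : α, a ∉ g.support → b ∉ g.support →
      ∃ t ∈ G, (∀ x, x ∉ g.support → t x = swap a b x) ∧
        t * g * t⁻¹ ∈ Subgroup.zpowers g := by
    intro a b ha hb
    let x : Fin (m + 3) ↪ α := e.toEmbedding.trans (Function.Embedding.subtype _)
    let y : Fin (m + 3) ↪ α := x.trans (swap a b).toEmbedding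
    obtain ⟨h, hh⟩ := MulAction.exists_smul_eq G x y
    have hval : ∀ z, z ∉ g.support → (h : Perm α) z = swap a b z := by
      intro z hz
      obtain ⟨i, hi⟩ := e.surjective ⟨z, hz⟩
      have h1 : x i = z := by
        change ((e i : {x // x ∉ g.support}) : α) = z
        rw [hi]
      have h2 := DFunLike.congr_fun hh i
      have h3 : (h : Perm α) (x i) = y i := h2
      rw [h1] at h3
      rw [h3]
      change swap a b (x i) = _
      rw [h1]
    have hs : ∀ z, z ∉ g.support → (h : Perm α) z ∉ g.support := by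
      intro z hz
      rw [hval z hz]
      by_cases hza : z = a
      · rw [hza, swap_apply_left]; exact hb
      by_cases hzb : z = b
      · rw [hzb, swap_apply_right]; exact ha
      rw [swap_apply_of_ne_of_ne hza hzb]; exact hz
    obtain ⟨t, ht, h1, h2⟩ := exists_normalizing hp hgc hgp hg h.2 hs
    exact ⟨t, ht, fun z hz => by rw [h1 z hz, hval z hz], h2⟩
  -- three points
  set a := (e ⟨0, by omega⟩ : {x // x ∉ g.support}) with ha
  set b := (e ⟨1, by omega⟩ : {x // x ∉ g.support}) with hb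
  set c := (e ⟨2, by omega⟩ : {x // x ∉ g.support}) with hc
  have hab : (a : α) ≠ b := by
    intro h
    have := e.injective (Subtype.ext h)
    simp at this
  have hac : (a : α) ≠ c := by
    intro h
    have := e.injective (Subtype.ext h)
    simp at this
  have hbc : (b : α) ≠ c := by
    intro h
    have := e.injective (Subtype.ext h)
    simp at this
  obtain ⟨t₁, ht₁, v₁, n₁⟩ := real a b a.2 b.2
  obtain ⟨t₂, ht₂, v₂, n₂⟩ := real a c a.2 c.2
  set w := t₁ * t₂ * t₁⁻¹ * t₂⁻¹ with hw
  have hwG : w ∈ G := G.mul_mem (G.mul_mem (G.mul_mem ht₁ ht₂) (G.inv_mem ht₁)) (G.inv_mem ht₂)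
  have hcomm : Commute w g := comm_commute n₁ n₂
  have stab : ∀ {x y : α}, x ∉ g.support → y ∉ g.support → ∀ z, z ∉ g.support →
      swap x y z ∉ g.support := by
    intro x y hx hy z hz
    by_cases hza : z = x
    · rw [hza, swap_apply_left]; exact hy
    by_cases hzb : z = y
    · rw [hzb, swap_apply_right]; exact hx
    rw [swap_apply_of_ne_of_ne hza hzb]; exact hz
  have inv₁ : ∀ z, z ∉ g.support → t₁⁻¹ z = swap (a : α) b z := by
    intro z hz
    rw [Perm.inv_eq_iff_eq, v₁ _ (stab a.2 b.2 z hz), swap_apply_self]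
  have inv₂ : ∀ z, z ∉ g.support → t₂⁻¹ z = swap (a : α) c z := by
    intro z hz
    rw [Perm.inv_eq_iff_eq, v₂ _ (stab a.2 c.2 z hz), swap_apply_self]
  have hwval : ∀ z, z ∉ g.support →
      w z = (swap (a : α) b * swap (a : α) c * (swap (a : α) b * swap (a : α) c)) z := by
    intro z hz
    have s1 := stab a.2 c.2 z hz
    have s2 := stab a.2 b.2 _ s1
    have s3 := stab a.2 c.2 _ s2
    simp only [hw, Perm.mul_apply]
    rw [inv₂ z hz, inv₁ _ s1, v₂ _ s2, v₁ _ s3]
  -- `w` acts on the support of `g` as a power of `g`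
  obtain ⟨x₀, hx₀⟩ : ∃ x₀, x₀ ∈ g.support := by
    have : 0 < g.support.card := by rw [hgp]; exact hp.pos
    exact Finset.card_pos.1 this
  have hwx₀ : w x₀ ∈ g.support := by
    rw [mem_support] at hx₀ ⊢
    intro h
    apply hx₀
    have : w (g x₀) = g (w x₀) := DFunLike.congr_fun hcomm.eq x₀
    rw [h] at this
    exact w.injective this
  obtain ⟨i, hi⟩ := hgc.exists_zpow_eq (mem_support.1 hx₀) (mem_support.1 hwx₀)
  have hwsupp : ∀ y, y ∈ g.support → w y = (g ^ i) y := by
    intro y hy
    obtain ⟨j, hj⟩ := hgc.exists_zpow_eq (mem_support.1 hx₀) (mem_support.1 hy)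
    rw [← hj]
    have h1 : w ((g ^ j) x₀) = (g ^ j) (w x₀) :=
      DFunLike.congr_fun (hcomm.zpow_right j).eq x₀
    rw [h1, ← hi, ← Perm.mul_apply, ← Perm.mul_apply, ← zpow_add, ← zpow_add, add_comm]
  have hfinal : g ^ (-i) * w
      = swap (a : α) b * swap (a : α) c * (swap (a : α) b * swap (a : α) c) := by
    ext y
    by_cases hy : y ∈ g.support
    · have ne : ∀ z : {x // x ∉ g.support}, y ≠ z := by
        rintro ⟨z, hz⟩ rfl
        exact hz hy
      have r : (swap (a : α) b * swap (a : α) c * (swap (a : α) b * swap (a : α) c)) y = y := by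
        simp only [Perm.mul_apply]
        rw [swap_apply_of_ne_of_ne (ne a) (ne c), swap_apply_of_ne_of_ne (ne a) (ne b),
          swap_apply_of_ne_of_ne (ne a) (ne c), swap_apply_of_ne_of_ne (ne a) (ne b)]
      rw [r, Perm.mul_apply, hwsupp y hy, ← Perm.mul_apply, ← zpow_add]
      simp
    · rw [← hwval y hy, Perm.mul_apply]
      have hwy : w y ∉ g.support := by
        rw [hwval y hy]
        simp only [Perm.mul_apply]
        exact stab a.2 b.2 _ (stab a.2 c.2 _ (stab a.2 b.2 _ (stab a.2 c.2 _ hy)))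
      have : g (w y) = w y := by simpa using hwy
      exact zpow_apply_eq_self_of_apply_eq_self this (-i)
  have h3 : IsThreeCycle (g ^ (-i) * w) := by
    rw [hfinal]
    exact (isThreeCycle_swap_mul_swap_same hab hac hbc).isThreeCycle_sq
  exact alternatingGroup_le_of_isPreprimitive_of_isThreeCycle_mem hG h3
    (G.mul_mem (G.zpow_mem hg _) hwG)

end Pool.Agent.ALT
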