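import Pool.Agent.ALT.Base3

/-! module ALT-K1: permutations without cycles of length `≤ k` -/

namespace Pool.Agent.ALT

open Equiv Finset

noncomputable def qq (k m : ℕ) : ℝ := avg m (ind (fun μ => ∀ i ∈ μ, k < i))

noncomputable def rr (k m : ℕ) : ℝ := avg m (fun μ => sg μ * ind (fun μ => ∀ i ∈ μ, k < i) μ)

theorem qq_zero (k : ℕ) : qq k 0 = 1 := by
  unfold qq
  rw [← avC_c_zero, avC_zero, ind_pos (by simp)]
  norm_num

theorem rr_zero (k : ℕ) : rr k 0 = 1 := by
  unfold rr
  rw [← avC_c_zero, avC_zero, ind_pos (by simp)]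
  simp [sg]

theorem ind_cons (k l : ℕ) (μ : Multiset ℕ) :
    ind (fun μ => ∀ i ∈ μ, k < i) (l ::ₘ μ) =
      if k < l then ind (fun μ => ∀ i ∈ μ, k < i) μ else 0 := by
  by_cases hl : k < l
  · rw [if_pos hl]
    by_cases hμ : ∀ i ∈ μ, k < i
    · have e1 : ind (fun μ => ∀ i ∈ μ, k < i) μ = 1 := ind_pos hμ
      rw [e1, ind_pos]
      intro i hi
      rcases Multiset.mem_cons.1 hi with rfl | hi
      · exact hl
      · exact hμ i hi
    · have e1 : ind (fun μ => ∀ i ∈ μ, k < i) μ = 0 := ind_neg hμ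
      rw [e1, ind_neg]
      intro h
      exact hμ (fun i hi => h i (Multiset.mem_cons_of_mem hi))
  · rw [if_neg hl, ind_neg]
    intro h
    exact hl (h l (Multiset.mem_cons_self l μ))

theorem ka_sg_cons (l : ℕ) (μ : Multiset ℕ) : sg (l ::ₘ μ) = (-1) ^ (l + 1) * sg μ := by
  unfold sg
  rw [Multiset.sum_cons, Multiset.card_cons, ← pow_add]
  congr 1
  ring

theorem avg_const_zero (n : ℕ) : avg n (fun _ => 0) = 0 := by
  unfold avg; simp

theorem avg_mul_left' (n : ℕ) (a : ℝ) (f : Multiset ℕ → ℝ) :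
    avg n (fun μ => a * f μ) = a * avg n f := by
  unfold avg
  rw [← Finset.mul_sum, mul_div_assoc]

theorem qq_rec (k m : ℕ) : (m : ℝ) * qq k m = ∑ l ∈ Icc (k + 1) m, qq k (m - l) := by
  unfold qq
  rw [← avC_c_zero, avC_rec]
  have hsub : Icc (k + 1) m ⊆ Icc 1 m := Finset.Icc_subset_Icc (by omega) le_rfl
  rw [← Finset.sum_subset hsub]
  · refine Finset.sum_congr rfl (fun l hl => ?_)
    rw [Finset.mem_Icc] at hl
    rw [zero_mul, avC_c_zero]
    congr 1
    funext μ
    rw [ind_cons, if_pos (by omega)]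
  · intro l hl hl'
    rw [Finset.mem_Icc] at hl hl'
    rw [zero_mul, avC_c_zero]
    have : (fun μ : Multiset ℕ => ind (fun μ => ∀ i ∈ μ, k < i) (l ::ₘ μ)) = fun _ => 0 := by
      funext μ
      rw [ind_cons, if_neg (by omega)]
    rw [this, avg_const_zero]

theorem rr_rec (k m : ℕ) :
    (m : ℝ) * rr k m = ∑ l ∈ Icc (k + 1) m, (-1) ^ (l + 1) * rr k (m - l) := by
  unfold rr
  rw [← avC_c_zero, avC_rec]
  have hsub : Icc (k + 1) m ⊆ Icc 1 m := Finset.Icc_subset_Icc (by omega) le_rfl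
  rw [← Finset.sum_subset hsub]
  · refine Finset.sum_congr rfl (fun l hl => ?_)
    rw [Finset.mem_Icc] at hl
    rw [zero_mul, avC_c_zero, ← avg_mul_left']
    congr 1
    funext μ
    rw [ind_cons, if_pos (by omega), ka_sg_cons]
    ring
  · intro l hl hl'
    rw [Finset.mem_Icc] at hl hl'
    rw [zero_mul, avC_c_zero]
    have : (fun μ : Multiset ℕ => sg (l ::ₘ μ) * ind (fun μ => ∀ i ∈ μ, k < i) (l ::ₘ μ)) =
        fun _ => 0 := by
      funext μ
      rw [ind_cons, if_neg (by omega), mul_zero]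
    rw [this, avg_const_zero]

theorem qq_eq_zero {k m : ℕ} (h1 : 1 ≤ m) (h : m ≤ k) : qq k m = 0 := by
  have := qq_rec k m
  rw [Finset.Icc_eq_empty (by omega), Finset.sum_empty] at this
  have hm : (m : ℝ) ≠ 0 := by positivity
  exact (mul_eq_zero.1 this).resolve_left hm

theorem abs_rr_le (k m : ℕ) : |rr k m| ≤ qq k m := by
  unfold rr qq avg
  rw [abs_div, abs_of_nonneg (by positivity : (0 : ℝ) ≤ (m.factorial : ℝ))]
  gcongr
  refine (Finset.abs_sum_le_sum_abs _ _).trans (Finset.sum_le_sum (fun σ _ => ?_))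
  rw [abs_mul, abs_of_nonneg (ind_nonneg _ _)]
  have : |sg (pt σ)| = 1 := by
    unfold sg
    rw [abs_pow, abs_neg, abs_one, one_pow]
  rw [this, one_mul]

theorem qq_nonneg (k m : ℕ) : 0 ≤ qq k m := (abs_nonneg _).trans (abs_rr_le k m)

theorem rr_eq_zero {k m : ℕ} (h1 : 1 ≤ m) (h : m ≤ k) : rr k m = 0 := by
  have := abs_rr_le k m
  rw [qq_eq_zero h1 h] at this
  exact abs_eq_zero.1 (le_antisymm this (abs_nonneg _))

theorem qq_lower {k m : ℕ} (hk : 1 ≤ k) (h : k < m) : 1 / (2 * k + 1 : ℝ) ≤ qq k m := by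
  induction m using Nat.strong_induction_on with
  | _ m ih =>
    have hm : (0 : ℝ) < m := by
      have : 0 < m := by omega
      exact_mod_cast this
    have hrec := qq_rec k m
    have hk' : (0 : ℝ) < 2 * k + 1 := by positivity
    by_cases h2 : m ≤ 2 * k + 1
    · have h3 : (1 : ℝ) ≤ ∑ l ∈ Icc (k + 1) m, qq k (m - l) := by
        have hmem : m ∈ Icc (k + 1) m := Finset.mem_Icc.2 ⟨by omega, le_rfl⟩
        have := Finset.single_le_sum (f := fun l => qq k (m - l)) (fun l _ => qq_nonneg k (m - l)) hmem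
        simpa [qq_zero] using this
      rw [← hrec] at h3
      have h4 : (m : ℝ) ≤ 2 * k + 1 := by exact_mod_cast h2
      rw [div_le_iff₀ hk']
      have h5 := qq_nonneg k m
      nlinarith
    · have hsub : insert m (Icc (k + 1) (m - k - 1)) ⊆ Icc (k + 1) m := by
        intro l hl
        rcases Finset.mem_insert.1 hl with rfl | hl
        · exact Finset.mem_Icc.2 ⟨by omega, le_rfl⟩
        · rw [Finset.mem_Icc] at hl ⊢
          omega
      have hnot : m ∉ Icc (k + 1) (m - k - 1) := by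
        rw [Finset.mem_Icc]; omega
      have h3 : 1 + ((m - 2 * k - 1 : ℕ) : ℝ) * (1 / (2 * k + 1 : ℝ)) ≤
          ∑ l ∈ Icc (k + 1) m, qq k (m - l) := by
        refine le_trans ?_ (Finset.sum_le_sum_of_subset_of_nonneg hsub
          (fun l _ _ => qq_nonneg k (m - l)))
        rw [Finset.sum_insert hnot, Nat.sub_self, qq_zero]
        have hc : (m - 2 * k - 1 : ℕ) = (Icc (k + 1) (m - k - 1)).card := by
          rw [Nat.card_Icc]; omega
        rw [hc, ← nsmul_eq_mul, ← Finset.sum_const]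
        gcongr with l hl
        rw [Finset.mem_Icc] at hl
        exact ih (m - l) (by omega) (by omega)
      rw [← hrec] at h3
      have h4 : ((m - 2 * k - 1 : ℕ) : ℝ) = m - 2 * k - 1 := by
        rw [Nat.cast_sub (by omega), Nat.cast_sub (by omega)]
        push_cast; ring
      rw [h4] at h3
      have h5 : 1 + ((m : ℝ) - 2 * k - 1) * (1 / (2 * k + 1 : ℝ)) = m * (1 / (2 * k + 1 : ℝ)) := by
        field_simp
        ring
      rw [h5] at h3
      exact le_of_mul_le_mul_left h3 hm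

theorem qq_upper {k m : ℕ} (hk : 1 ≤ k) (h : 1 ≤ m) : qq k m ≤ 1 / (k + 1 : ℝ) := by
  induction m using Nat.strong_induction_on with
  | _ m ih =>
    have hm : (0 : ℝ) < m := by exact_mod_cast h
    have hk' : (0 : ℝ) < k + 1 := by positivity
    by_cases h1 : m ≤ k
    · rw [qq_eq_zero h h1]; positivity
    · have hrec := qq_rec k m
      have hins : Icc (k + 1) m = insert m (Icc (k + 1) (m - 1)) := by
        ext l
        rw [Finset.mem_insert, Finset.mem_Icc, Finset.mem_Icc]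
        omega
      have hnot : m ∉ Icc (k + 1) (m - 1) := by
        rw [Finset.mem_Icc]; omega
      have h3 : ∑ l ∈ Icc (k + 1) m, qq k (m - l) ≤
          1 + ((m - 2 * k - 1 : ℕ) : ℝ) * (1 / (k + 1 : ℝ)) := by
        rw [hins, Finset.sum_insert hnot, Nat.sub_self, qq_zero]
        have hsub : Icc (k + 1) (m - k - 1) ⊆ Icc (k + 1) (m - 1) :=
          Finset.Icc_subset_Icc le_rfl (by omega)
        rw [← Finset.sum_subset hsub]
        · have hc : (m - 2 * k - 1 : ℕ) = (Icc (k + 1) (m - k - 1)).card := by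
            rw [Nat.card_Icc]; omega
          rw [hc, ← nsmul_eq_mul, ← Finset.sum_const]
          gcongr with l hl
          rw [Finset.mem_Icc] at hl
          exact ih (m - l) (by omega) (by omega)
        · intro l hl hl'
          rw [Finset.mem_Icc] at hl hl'
          exact qq_eq_zero (by omega) (by omega)
      rw [← hrec] at h3
      have h5 : 1 + ((m - 2 * k - 1 : ℕ) : ℝ) * (1 / (k + 1 : ℝ)) ≤ m * (1 / (k + 1 : ℝ)) := by
        rw [mul_one_div, mul_one_div, ← sub_nonneg]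
        have h6 : (m : ℝ) / (k + 1) - (1 + ((m - 2 * k - 1 : ℕ) : ℝ) / (k + 1)) =
            ((m : ℝ) - (k + 1) - ((m - 2 * k - 1 : ℕ) : ℝ)) / (k + 1) := by
          field_simp
          ring
        rw [h6]
        refine div_nonneg ?_ hk'.le
        have h7 : (k + 1) + (m - 2 * k - 1) ≤ m := by omega
        have h8 : ((k : ℝ) + 1) + ((m - 2 * k - 1 : ℕ) : ℝ) ≤ m := by exact_mod_cast h7
        linarith
      exact le_of_mul_le_mul_left (h3.trans h5) hm

/-- two consecutive values -/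
theorem rr_two {k m : ℕ} (h : k + 1 ≤ m) (hk : 1 ≤ k) :
    (m : ℝ) * rr k m + (m - 1 : ℝ) * rr k (m - 1) = (-1) ^ k * rr k (m - k - 1) := by
  obtain ⟨n, rfl⟩ : ∃ n, m = n + 1 := ⟨m - 1, by omega⟩
  have hIcc : ∀ a b : ℕ, Icc a b = Ico a (b + 1) := by
    intro a b; ext x; rw [Finset.mem_Icc, Finset.mem_Ico]; omega
  have h1 := rr_rec k (n + 1)
  have h2 := rr_rec k n
  rw [hIcc, Finset.sum_eq_sum_Ico_succ_bot (by omega : k + 1 < n + 1 + 1),
    ← Finset.sum_Ico_add' (fun l => (-1 : ℝ) ^ (l + 1) * rr k (n + 1 - l)) (k + 1) (n + 1) 1] at h1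
  rw [hIcc] at h2
  rw [Nat.add_sub_cancel]
  have h3 : ((n + 1 : ℕ) : ℝ) - 1 = (n : ℝ) := by push_cast; ring
  rw [h3, h1, h2, add_assoc, ← Finset.sum_add_distrib]
  have h4 : ∑ x ∈ Ico (k + 1) (n + 1), ((-1 : ℝ) ^ (x + 1 + 1) * rr k (n + 1 - (x + 1)) +
      (-1) ^ (x + 1) * rr k (n - x)) = 0 := by
    refine Finset.sum_eq_zero (fun x _ => ?_)
    rw [Nat.add_sub_add_right, pow_succ (-1 : ℝ) (x + 1)]
    ring
  rw [h4, add_zero]
  have h5 : n + 1 - (k + 1) = n + 1 - k - 1 := by omega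
  rw [h5, pow_succ, pow_succ]
  ring

end Pool.Agent.ALT
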