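import Pool.Agent.ALT.KA

/-! module ALT-K2: distribution of the number of points in short cycles -/

namespace Pool.Agent.ALT

open Equiv Finset

lemma kb_split (k s n : ℕ) (hsk : s ≤ k) (hn : s ≤ n) (T A B : ℕ → ℝ)
    (hT : ∀ l ∈ Icc 1 n, T l = if l ≤ s then A l else if k < l ∧ l ≤ n - s then B l else 0) :
    ∑ l ∈ Icc 1 n, T l = ∑ l ∈ Icc 1 s, A l + ∑ l ∈ Icc (k + 1) (n - s), B l := by
  have h1 : ∑ l ∈ Icc 1 n, T l = ∑ l ∈ Icc 1 n, (if l ≤ s then A l else 0)
      + ∑ l ∈ Icc 1 n, (if k < l ∧ l ≤ n - s then B l else 0) := by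
    rw [← Finset.sum_add_distrib]
    apply Finset.sum_congr rfl
    intro l hl
    rw [hT l hl]
    by_cases h : l ≤ s
    · have h2 : ¬ (k < l ∧ l ≤ n - s) := by omega
      rw [if_pos h, if_pos h, if_neg h2, add_zero]
    · rw [if_neg h, if_neg h, zero_add]
  rw [h1, ← Finset.sum_filter, ← Finset.sum_filter]
  congr 1
  · apply Finset.sum_congr _ (fun _ _ => rfl)
    ext l
    simp only [Finset.mem_filter, Finset.mem_Icc]
    omega
  · apply Finset.sum_congr _ (fun _ _ => rfl)
    ext l
    simp only [Finset.mem_filter, Finset.mem_Icc]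
    omega

lemma kb_short_cons_le {k l : ℕ} (h : l ≤ k) (μ : Multiset ℕ) :
    ((l ::ₘ μ).filter (· ≤ k)).sum = l + (μ.filter (· ≤ k)).sum := by
  rw [Multiset.filter_cons_of_pos (p := (· ≤ k)) μ h, Multiset.sum_cons]

lemma kb_short_cons_gt {k l : ℕ} (h : k < l) (μ : Multiset ℕ) :
    ((l ::ₘ μ).filter (· ≤ k)).sum = (μ.filter (· ≤ k)).sum := by
  have h' : ¬ l ≤ k := by omega
  rw [Multiset.filter_cons_of_neg (p := (· ≤ k)) μ h']

lemma kb_short_le (k : ℕ) (μ : Multiset ℕ) : (μ.filter (· ≤ k)).sum ≤ μ.sum := by
  induction μ using Multiset.induction_on with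
  | empty => simp
  | cons a μ ih =>
    by_cases h : a ≤ k
    · rw [kb_short_cons_le h, Multiset.sum_cons]; omega
    · rw [kb_short_cons_gt (by omega), Multiset.sum_cons]; omega

lemma kb_short_zero (k : ℕ) (μ : Multiset ℕ) (h0 : ∀ i ∈ μ, 0 < i) :
    (μ.filter (· ≤ k)).sum = 0 ↔ ∀ i ∈ μ, k < i := by
  rw [Multiset.sum_eq_zero_iff]
  constructor
  · intro h i hi
    by_contra hk
    have h1 := h i (Multiset.mem_filter.2 ⟨hi, by omega⟩)
    have h2 := h0 i hi
    omega
  · intro h i hi
    have h1 := Multiset.mem_filter.1 hi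
    have h2 := h i h1.1
    omega

lemma kb_ind_congr {p q : Multiset ℕ → Prop} {μ ν : Multiset ℕ} (h : p μ ↔ q ν) :
    ind p μ = ind q ν := by
  by_cases hp : p μ
  · rw [ind_pos hp, ind_pos (h.1 hp)]
  · rw [ind_neg hp, ind_neg (fun hq => hp (h.2 hq))]

lemma kb_sg_cons (l : ℕ) (μ : Multiset ℕ) : sg (l ::ₘ μ) = (-1) ^ (l + 1) * sg μ := by
  unfold sg
  rw [Multiset.sum_cons, Multiset.card_cons, ← pow_add]
  congr 1
  ring

lemma kb_avg_congr {n : ℕ} {f g : Multiset ℕ → ℝ}
    (h : ∀ μ : Multiset ℕ, μ.sum = n → (∀ i ∈ μ, 0 < i) → f μ = g μ) :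
    avg n f = avg n g := by
  rw [← avC_c_zero, ← avC_c_zero]
  exact avC_congr h

lemma kb_avg_zero {n : ℕ} {f : Multiset ℕ → ℝ}
    (h : ∀ μ : Multiset ℕ, μ.sum = n → (∀ i ∈ μ, 0 < i) → f μ = 0) :
    avg n f = 0 := by
  rw [kb_avg_congr (g := fun _ => (0 : ℝ) * 1) (by intro μ h1 h2; rw [h μ h1 h2]; ring)]
  rw [← avC_c_zero, avC_mul_left, zero_mul]

lemma kb_avg_mul (n : ℕ) (a : ℝ) (f : Multiset ℕ → ℝ) :
    avg n (fun μ => a * f μ) = a * avg n f := by
  rw [← avC_c_zero, avC_mul_left, avC_c_zero]

lemma kb_avg_rec (n : ℕ) (f : Multiset ℕ → ℝ) :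
    (n : ℝ) * avg n f = ∑ l ∈ Icc 1 n, avg (n - l) (fun μ => f (l ::ₘ μ)) := by
  rw [← avC_c_zero, avC_rec]
  apply Finset.sum_congr rfl
  intro l _
  rw [zero_mul, avC_c_zero]

theorem avg_short {k s n : ℕ} (hk : 1 ≤ k) (hs : s ≤ k) (hn : s ≤ n) :
    avg n (ind (fun μ => (μ.filter (· ≤ k)).sum = s)) = qq k (n - s) := by
  induction n using Nat.strong_induction_on generalizing s with
  | _ n ih =>
    rcases Nat.eq_zero_or_pos s with h0 | hpos
    · subst h0
      unfold qq
      apply kb_avg_congr
      intro μ _ h0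
      exact kb_ind_congr (kb_short_zero k μ h0)
    · have hnpos : 0 < n := by omega
      have h1 := kb_avg_rec n (ind (fun μ => (μ.filter (· ≤ k)).sum = s))
      rw [kb_split k s n hs hn _ (fun _ => qq k (n - s)) (fun l => qq k (n - s - l))] at h1
      · rw [← qq_rec, Finset.sum_const, Nat.card_Icc, nsmul_eq_mul, Nat.add_sub_cancel,
          ← add_mul] at h1
        have h2 : ((s : ℝ) + ((n - s : ℕ) : ℝ)) = n := by
          rw [Nat.cast_sub hn]; ring
        rw [h2] at h1
        exact mul_left_cancel₀ (by positivity) h1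
      · intro l hl
        rw [Finset.mem_Icc] at hl
        show avg (n - l) (fun μ => ind (fun μ => (μ.filter (· ≤ k)).sum = s) (l ::ₘ μ)) = _
        split_ifs with h2 h3
        · have h4 := ih (n - l) (by omega) (s := s - l) (by omega) (by omega)
          have h5 : n - l - (s - l) = n - s := by omega
          rw [h5] at h4
          rw [← h4]
          apply kb_avg_congr
          intro μ _ _
          apply kb_ind_congr
          rw [kb_short_cons_le (by omega)]
          omega
        · have h4 := ih (n - l) (by omega) (s := s) hs (by omega)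
          have h5 : n - l - s = n - s - l := by omega
          rw [h5] at h4
          rw [← h4]
          apply kb_avg_congr
          intro μ _ _
          apply kb_ind_congr
          rw [kb_short_cons_gt (by omega)]
        · apply kb_avg_zero
          intro μ hμ _
          apply ind_neg
          by_cases h4 : l ≤ k
          · rw [kb_short_cons_le h4]
            omega
          · rw [kb_short_cons_gt (by omega)]
            have h5 := kb_short_le k μ
            omega

lemma kb_alt_sum (s : ℕ) (hs : 1 ≤ s) :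
    ∑ l ∈ Icc 1 s, ((-1 : ℝ) ^ (l + 1) * if s - l ≤ 1 then 1 else 0)
      = if s ≤ 1 then (s : ℝ) else 0 := by
  rcases Nat.eq_or_lt_of_le hs with h1 | h1
  · subst h1
    simp
  · rw [if_neg (by omega)]
    have h2 : ∀ l ∈ Icc 1 s, ((-1 : ℝ) ^ (l + 1) * if s - l ≤ 1 then 1 else 0) =
        (if l = s then (-1 : ℝ) ^ (s + 1) else 0) + (if l = s - 1 then (-1 : ℝ) ^ s else 0) := by
      intro l hl
      rw [Finset.mem_Icc] at hl
      by_cases h3 : l = s
      · subst h3
        rw [if_pos (by omega), if_pos rfl, if_neg (by omega)]; ring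
      · by_cases h4 : l = s - 1
        · rw [if_pos (by omega), if_neg h3, if_pos h4, h4]
          rw [Nat.sub_add_cancel hs]; ring
        · rw [if_neg (by omega), if_neg h3, if_neg h4]; ring
    rw [Finset.sum_congr rfl h2, Finset.sum_add_distrib, Finset.sum_ite_eq', Finset.sum_ite_eq',
      if_pos (Finset.mem_Icc.2 ⟨hs, le_rfl⟩), if_pos (Finset.mem_Icc.2 ⟨by omega, by omega⟩)]
    ring

theorem avg_sg_short {k s n : ℕ} (hk : 1 ≤ k) (hs : s ≤ k) (hn : s ≤ n) :
    avg n (fun μ => sg μ * ind (fun μ => (μ.filter (· ≤ k)).sum = s) μ)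
      = if s ≤ 1 then rr k (n - s) else 0 := by
  induction n using Nat.strong_induction_on generalizing s with
  | _ n ih =>
    rcases Nat.eq_zero_or_pos s with h0 | hpos
    · subst h0
      rw [if_pos (by omega)]
      unfold rr
      apply kb_avg_congr
      intro μ _ h0
      show sg μ * ind (fun μ => (μ.filter (· ≤ k)).sum = 0) μ =
        sg μ * ind (fun μ => ∀ i ∈ μ, k < i) μ
      rw [kb_ind_congr (p := fun μ => (μ.filter (· ≤ k)).sum = 0)
        (q := fun μ => ∀ i ∈ μ, k < i) (kb_short_zero k μ h0)]
    · have hnpos : 0 < n := by omega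
      have h1 := kb_avg_rec n (fun μ => sg μ * ind (fun μ => (μ.filter (· ≤ k)).sum = s) μ)
      rw [kb_split k s n hs hn _
        (fun l => rr k (n - s) * ((-1 : ℝ) ^ (l + 1) * if s - l ≤ 1 then 1 else 0))
        (fun l => (if s ≤ 1 then 1 else 0) * ((-1 : ℝ) ^ (l + 1) * rr k (n - s - l)))] at h1
      · rw [← Finset.mul_sum, ← Finset.mul_sum, ← rr_rec, kb_alt_sum s hpos] at h1
        have h2 : ((n - s : ℕ) : ℝ) = n - s := Nat.cast_sub hn
        rw [h2] at h1
        have hn0 : (n : ℝ) ≠ 0 := by positivity
        apply mul_left_cancel₀ hn0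
        rw [h1]
        split_ifs
        · ring
        · ring
      · intro l hl
        rw [Finset.mem_Icc] at hl
        show avg (n - l) (fun μ => sg (l ::ₘ μ) *
          ind (fun μ => (μ.filter (· ≤ k)).sum = s) (l ::ₘ μ)) = _
        by_cases h2 : l ≤ s
        · rw [if_pos h2]
          have h4 := ih (n - l) (by omega) (s := s - l) (by omega) (by omega)
          have h5 : n - l - (s - l) = n - s := by omega
          rw [h5] at h4
          have h6 : avg (n - l) (fun μ => sg (l ::ₘ μ) *
              ind (fun μ => (μ.filter (· ≤ k)).sum = s) (l ::ₘ μ)) =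
              avg (n - l) (fun μ => (-1 : ℝ) ^ (l + 1) *
                (sg μ * ind (fun μ => (μ.filter (· ≤ k)).sum = s - l) μ)) := by
            apply kb_avg_congr
            intro μ _ _
            have h7 : ind (fun μ => (μ.filter (· ≤ k)).sum = s) (l ::ₘ μ) =
                ind (fun μ => (μ.filter (· ≤ k)).sum = s - l) μ := by
              apply kb_ind_congr
              rw [kb_short_cons_le (by omega)]
              omega
            show sg (l ::ₘ μ) * ind (fun μ => (μ.filter (· ≤ k)).sum = s) (l ::ₘ μ) = _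
            rw [h7, kb_sg_cons]
            ring
          rw [h6, kb_avg_mul, h4]
          split_ifs
          · ring
          · ring
        · rw [if_neg h2]
          by_cases h3 : k < l ∧ l ≤ n - s
          · rw [if_pos h3]
            have h4 := ih (n - l) (by omega) (s := s) hs (by omega)
            have h5 : n - l - s = n - s - l := by omega
            rw [h5] at h4
            have h6 : avg (n - l) (fun μ => sg (l ::ₘ μ) *
                ind (fun μ => (μ.filter (· ≤ k)).sum = s) (l ::ₘ μ)) =
                avg (n - l) (fun μ => (-1 : ℝ) ^ (l + 1) *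
                  (sg μ * ind (fun μ => (μ.filter (· ≤ k)).sum = s) μ)) := by
              apply kb_avg_congr
              intro μ _ _
              have h7 : ind (fun μ => (μ.filter (· ≤ k)).sum = s) (l ::ₘ μ) =
                  ind (fun μ => (μ.filter (· ≤ k)).sum = s) μ := by
                apply kb_ind_congr
                rw [kb_short_cons_gt (by omega)]
              show sg (l ::ₘ μ) * ind (fun μ => (μ.filter (· ≤ k)).sum = s) (l ::ₘ μ) = _
              rw [h7, kb_sg_cons]
              ring
            rw [h6, kb_avg_mul, h4]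
            split_ifs
            · ring
            · ring
          · rw [if_neg h3]
            apply kb_avg_zero
            intro μ hμ _
            have h7 : ind (fun μ => (μ.filter (· ≤ k)).sum = s) (l ::ₘ μ) = 0 := by
              apply ind_neg
              by_cases h4 : l ≤ k
              · rw [kb_short_cons_le h4]
                omega
              · rw [kb_short_cons_gt (by omega)]
                have h5 := kb_short_le k μ
                omega
            rw [h7, mul_zero]

end Pool.Agent.ALT
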