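import Pool.Agent.ALT.KB

/-! module ALT-K3: `k`-sets -/

namespace Pool.Agent.ALT

open Equiv Finset

namespace KCaux

theorem ind_lt (k : ℕ) (g : Multiset ℕ → ℕ) (μ : Multiset ℕ) :
    ind (fun μ => g μ < k) μ = ∑ s ∈ range k, ind (fun μ => g μ = s) μ := by
  by_cases h : g μ < k
  · rw [ind_pos h, Finset.sum_eq_single (g μ)]
    · exact (ind_pos (p := fun μ' => g μ' = g μ) rfl).symm
    · intro s _ hs
      exact ind_neg (p := fun μ' => g μ' = s) (fun h' => hs h'.symm)
    · intro hn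
      exact absurd (mem_range.2 h) hn
  · rw [ind_neg h, Finset.sum_eq_zero]
    intro s hs
    refine ind_neg (p := fun μ' => g μ' = s) (fun h' => h ?_)
    rw [h']
    exact mem_range.1 hs

theorem avC_split (n k : ℕ) (g : Multiset ℕ → ℕ) :
    avC n 1 (ind (fun μ => g μ < k)) =
      ∑ s ∈ range k, (avg n (ind (fun μ => g μ = s)) +
        avg n (fun μ => sg μ * ind (fun μ => g μ = s) μ)) := by
  unfold avC avg
  simp_rw [← add_div]
  rw [← Finset.sum_div]
  congr 1
  simp_rw [← Finset.sum_add_distrib]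
  rw [Finset.sum_comm]
  refine Finset.sum_congr rfl fun σ _ => ?_
  rw [ind_lt, Finset.mul_sum]
  refine Finset.sum_congr rfl fun s _ => ?_
  ring

theorem value {n k : ℕ} (hk : 1 ≤ k) (hkn : 2 * k ≤ n) :
    avC n 1 (ind (fun μ => (μ.filter (· ≤ k)).sum < k)) =
      ∑ s ∈ range k, (qq k (n - s) + if s ≤ 1 then rr k (n - s) else 0) := by
  rw [avC_split n k fun μ => (μ.filter (· ≤ k)).sum]
  refine Finset.sum_congr rfl fun s hs => ?_
  have h1 := mem_range.1 hs
  rw [avg_short hk (by omega) (by omega), avg_sg_short hk (by omega) (by omega)]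

theorem qq_sum {n k : ℕ} (hk : 1 ≤ k) (hkn : 2 * k ≤ n) :
    (k : ℝ) / (2 * k + 1) ≤ ∑ s ∈ range k, qq k (n - s) := by
  have h : ∑ _s ∈ range k, (1 / (2 * k + 1 : ℝ)) ≤ ∑ s ∈ range k, qq k (n - s) := by
    refine Finset.sum_le_sum fun s hs => ?_
    have h1 := mem_range.1 hs
    exact qq_lower hk (by omega)
  rw [Finset.sum_const, card_range, nsmul_eq_mul] at h
  rw [mul_one_div] at h
  exact h

/-- two values of the correction -/
theorem corr {n k : ℕ} (hk : 2 ≤ k) (hkn : 2 * k ≤ n) :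
    -(2 / (n * (k + 1) : ℝ)) ≤ rr k n + rr k (n - 1) := by
  have hn : (0 : ℝ) < n := by exact_mod_cast (by omega : 0 < n)
  have hk0 : (0 : ℝ) < (k : ℝ) + 1 := by positivity
  have h1 := rr_two (k := k) (m := n) (by omega) (by omega)
  have h2 : |rr k (n - 1)| ≤ 1 / (k + 1 : ℝ) :=
    (abs_rr_le k (n - 1)).trans (qq_upper (by omega) (by omega))
  have h3 : |rr k (n - k - 1)| ≤ 1 / (k + 1 : ℝ) :=
    (abs_rr_le k (n - k - 1)).trans (qq_upper (by omega) (by omega))
  have h4 : (n : ℝ) * (rr k n + rr k (n - 1)) = rr k (n - 1) + (-1) ^ k * rr k (n - k - 1) := by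
    linarith
  have h5 : |(-1 : ℝ) ^ k * rr k (n - k - 1)| ≤ 1 / (k + 1 : ℝ) := by
    rw [abs_mul, abs_pow, abs_neg, abs_one, one_pow, one_mul]
    exact h3
  have h6 := (abs_le.1 h2).1
  have h7 := (abs_le.1 h5).1
  have h8 : -(2 / (k + 1 : ℝ)) ≤ (n : ℝ) * (rr k n + rr k (n - 1)) := by
    rw [h4]
    have : (2 : ℝ) / (k + 1) = 1 / (k + 1) + 1 / (k + 1) := by ring
    rw [this]
    linarith
  have h9 : (2 : ℝ) / (n * (k + 1)) = (2 / (k + 1)) / n := by
    rw [div_div, mul_comm (n : ℝ)]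
  rw [h9, ← neg_div, div_le_iff₀ hn]
  linarith

theorem value_two {n k : ℕ} (hk : 2 ≤ k) (hkn : 2 * k ≤ n) :
    avC n 1 (ind (fun μ => (μ.filter (· ≤ k)).sum < k)) =
      ∑ s ∈ range k, qq k (n - s) + (rr k n + rr k (n - 1)) := by
  rw [value (by omega) hkn, Finset.sum_add_distrib]
  congr 1
  obtain ⟨j, rfl⟩ := Nat.exists_eq_add_of_le hk
  rw [Finset.sum_range_add]
  have h1 : ∑ x ∈ range j, (if 2 + x ≤ 1 then rr (2 + j) (n - (2 + x)) else 0) = 0 := by
    refine Finset.sum_eq_zero fun x _ => ?_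
    rw [if_neg (by omega)]
  rw [h1, add_zero, Finset.sum_range_succ, Finset.sum_range_one]
  simp

theorem rr_one_small : rr 1 0 = 1 ∧ rr 1 1 = 0 ∧ rr 1 2 = -1 / 2 ∧ rr 1 3 = 1 / 3 ∧
    rr 1 4 = -1 / 8 ∧ rr 1 5 = 1 / 30 ∧ rr 1 6 = -1 / 144 := by
  have h0 := rr_zero 1
  have h1 : rr 1 1 = 0 := rr_eq_zero le_rfl le_rfl
  have e2 := rr_two (k := 1) (m := 2) (by norm_num) le_rfl
  have e3 := rr_two (k := 1) (m := 3) (by norm_num) le_rfl
  have e4 := rr_two (k := 1) (m := 4) (by norm_num) le_rfl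
  have e5 := rr_two (k := 1) (m := 5) (by norm_num) le_rfl
  have e6 := rr_two (k := 1) (m := 6) (by norm_num) le_rfl
  norm_num at e2 e3 e4 e5 e6
  have h2 : rr 1 2 = -1 / 2 := by linarith
  have h3 : rr 1 3 = 1 / 3 := by linarith
  have h4 : rr 1 4 = -1 / 8 := by linarith
  have h5 : rr 1 5 = 1 / 30 := by linarith
  have h6 : rr 1 6 = -1 / 144 := by linarith
  exact ⟨h0, h1, h2, h3, h4, h5, h6⟩

theorem abs_rr_one (m : ℕ) (hm : 5 ≤ m) : |rr 1 m| ≤ 1 / 30 := by
  induction m using Nat.strong_induction_on with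
  | _ m ih =>
    obtain ⟨-, -, -, -, -, h5, h6⟩ := rr_one_small
    rcases Nat.lt_or_ge m 7 with h | h
    · have : m = 5 ∨ m = 6 := by omega
      rcases this with rfl | rfl
      · rw [h5]; norm_num
      · rw [h6]; norm_num [abs_le]
    · have a1 := abs_le.1 (ih (m - 1) (by omega) (by omega))
      have a2 := abs_le.1 (ih (m - 1 - 1) (by omega) (by omega))
      have e := rr_two (k := 1) (m := m) (by omega) le_rfl
      have hm0 : (7 : ℝ) ≤ m := by exact_mod_cast h
      rw [pow_one] at e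
      rw [abs_le]
      constructor
      · by_contra hcon
        push Not at hcon
        nlinarith [a1.1, a1.2, a2.1, a2.2, mul_le_mul_of_nonneg_left a1.2 (by linarith : (0 : ℝ) ≤ m - 1)]
      · by_contra hcon
        push Not at hcon
        nlinarith [a1.1, a1.2, a2.1, a2.2, mul_le_mul_of_nonneg_left a1.1 (by linarith : (0 : ℝ) ≤ m - 1)]

end KCaux

open KCaux in
theorem kset_bound {n k : ℕ} (hn : 5 ≤ n) (hk : 1 ≤ k) (hkn : 2 * k ≤ n) :
    (7 / 25 : ℝ) ≤ avC n 1 (ind (fun μ => (μ.filter (· ≤ k)).sum < k)) := by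
  rcases Nat.lt_or_ge k 2 with h | h
  · obtain rfl : k = 1 := by omega
    rw [value le_rfl hkn]
    have h1 := qq_sum (n := n) (k := 1) le_rfl hkn
    rw [Finset.sum_range_one] at h1 ⊢
    have h2 := (abs_le.1 (abs_rr_one n hn)).1
    norm_num at h1 ⊢
    linarith
  · rw [value_two h hkn]
    rcases Nat.lt_or_ge n 6 with h6 | h6
    · obtain rfl : n = 5 := by omega
      obtain rfl : k = 2 := by omega
      have q0 := qq_zero 2
      have q1 : qq 2 1 = 0 := qq_eq_zero le_rfl (by norm_num)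
      have q2 : qq 2 2 = 0 := qq_eq_zero (by norm_num) le_rfl
      have r0 := rr_zero 2
      have r1 : rr 2 1 = 0 := rr_eq_zero le_rfl (by norm_num)
      have r2 : rr 2 2 = 0 := rr_eq_zero (by norm_num) le_rfl
      have eq5 := qq_rec 2 5
      have eq4 := qq_rec 2 4
      have er5 := rr_rec 2 5
      have er4 := rr_rec 2 4
      have i5 : Icc (2 + 1) 5 = {3, 4, 5} := by decide
      have i4 : Icc (2 + 1) 4 = {3, 4} := by decide
      rw [i5] at eq5 er5
      rw [i4] at eq4 er4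
      norm_num [q0, q1, q2, r0, r1, r2] at eq5 eq4 er5 er4
      rw [Finset.sum_range_succ, Finset.sum_range_one]
      norm_num
      linarith
    · have h1 := qq_sum (n := n) (k := k) (by omega) hkn
      have h2 := corr h hkn
      have hk2 : (2 : ℝ) ≤ k := by exact_mod_cast h
      have hn6 : (6 : ℝ) ≤ n := by exact_mod_cast h6
      rcases Nat.lt_or_ge k 3 with h3 | h3
      · obtain rfl : k = 2 := by omega
        have h4 : (2 : ℝ) / (n * ((2 : ℕ) + 1)) ≤ 1 / 9 := by
          rw [div_le_div_iff₀ (by positivity) (by norm_num)]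
          push_cast
          linarith
        have h5 : ((2 : ℕ) : ℝ) / (2 * (2 : ℕ) + 1) = 2 / 5 := by norm_num
        rw [h5] at h1
        linarith
      · have hk3 : (3 : ℝ) ≤ k := by exact_mod_cast h3
        have h4 : (2 : ℝ) / (n * (k + 1)) ≤ 1 / 12 := by
          rw [div_le_div_iff₀ (by positivity) (by norm_num)]
          nlinarith
        have h5 : (3 : ℝ) / 7 ≤ (k : ℝ) / (2 * k + 1) := by
          rw [div_le_div_iff₀ (by norm_num) (by positivity)]
          linarith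
        linarith

end Pool.Agent.ALT
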