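import Pool.Agent.ALT.Orb1

/-! module ALT-O2: invariant sets and invariant partitions -/

namespace Pool.Agent.ALT

open Equiv Finset

/-- If `σ` preserves a `k`-set, at least `k` points lie in cycles of length `≤ k`. -/
theorem invariant_kset {n k : ℕ} (σ : Perm (Fin n)) (S : Finset (Fin n)) (hk : S.card = k)
    (hS : ∀ x ∈ S, σ x ∈ S) : k ≤ ((pt σ).filter (· ≤ k)).sum := by
  have hsum := ptOn_sum σ hS
  have hle : ptOn σ S ≤ (pt σ).filter (· ≤ k) := by
    rw [Multiset.le_filter]
    refine ⟨ptOn_le σ S, fun i hi => ?_⟩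
    have := Multiset.single_le_sum (fun _ _ => Nat.zero_le _) i hi
    omega
  obtain ⟨ρ, hρ⟩ := Multiset.le_iff_exists_add.1 hle
  rw [hρ, Multiset.sum_add]
  omega

theorem mem_orbF_iff {n : ℕ} (σ : Perm (Fin n)) (x y : Fin n) : y ∈ orbF σ x ↔ σ.SameCycle x y := by
  unfold orbF
  simp

theorem zpow_comm_aux {n b : ℕ} {σ : Perm (Fin n)} {β : Fin n → Fin b} {τ : Perm (Fin b)}
    (hτ : ∀ x, β (σ x) = τ (β x)) (k : ℤ) (x : Fin n) : β ((σ ^ k) x) = (τ ^ k) (β x) := by
  have hinv : ∀ x, β (σ⁻¹ x) = τ⁻¹ (β x) := by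
    intro x
    have h := hτ (σ⁻¹ x)
    rw [show σ (σ⁻¹ x) = x by simp] at h
    rw [h]
    simp
  induction k using Int.induction_on with
  | zero => simp
  | succ i ih =>
    rw [add_comm, zpow_add, zpow_add, zpow_one, zpow_one, Equiv.Perm.mul_apply,
      Equiv.Perm.mul_apply, hτ, ih]
  | pred i ih =>
    rw [sub_eq_add_neg, add_comm, zpow_add, zpow_add, zpow_neg_one, zpow_neg_one,
      Equiv.Perm.mul_apply, Equiv.Perm.mul_apply, hinv, ih]

theorem orbF_eq_of_sameCycle {n : ℕ} {σ : Perm (Fin n)} {x y : Fin n} (h : σ.SameCycle x y) :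
    orbF σ x = orbF σ y := by
  ext z
  rw [mem_orbF_iff, mem_orbF_iff]
  exact ⟨fun h' => h.symm.trans h', fun h' => h.trans h'⟩

/-- If `σ` permutes the fibres of `β`, all of which have `a` elements, `b` of them, then every
cycle length of `σ` satisfies `Blk`. -/
theorem blk_of_block_system {n a b : ℕ} (σ : Perm (Fin n)) (β : Fin n → Fin b)
    (hβ : ∀ i, (univ.filter (fun x => β x = i)).card = a)
    (τ : Perm (Fin b)) (hτ : ∀ x, β (σ x) = τ (β x))
    {l : ℕ} (hl : l ∈ pt σ) : Blk a b l ((pt σ).erase l) := by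
  classical
  obtain ⟨x, hx⟩ := (mem_pt_iff σ l).1 hl
  set O := orbF σ x with hO
  set D := orbF τ (β x) with hD
  have hOl : O.card = l := by rw [hO, card_orbF, hx]
  have hmap : ∀ y ∈ O, β y ∈ D := by
    intro y hy
    rw [hO, mem_orbF_iff] at hy
    obtain ⟨k, rfl⟩ := hy
    rw [hD, mem_orbF_iff]
    exact ⟨k, (zpow_comm_aux hτ k x).symm⟩
  set d := D.card with hd
  set e := (O.filter (fun y => β y = β x)).card with he
  have hconst : ∀ i ∈ D, (O.filter (fun y => β y = i)).card = e := by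
    intro i hi
    rw [hD, mem_orbF_iff] at hi
    obtain ⟨k, rfl⟩ := hi
    symm
    rw [he]
    refine Finset.card_bij (fun y _ => (σ ^ k) y) ?_ ?_ ?_
    · intro y hy
      rw [Finset.mem_filter] at hy ⊢
      refine ⟨?_, by rw [zpow_comm_aux hτ, hy.2]⟩
      have h1 := hy.1
      rw [hO, mem_orbF_iff] at h1 ⊢
      exact h1.trans ⟨k, rfl⟩
    · intro y _ z _ hyz
      exact (σ ^ k).injective hyz
    · intro z hz
      rw [Finset.mem_filter] at hz
      refine ⟨(σ ^ (-k)) z, ?_, ?_⟩
      · rw [Finset.mem_filter]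
        refine ⟨?_, ?_⟩
        · have h1 := hz.1
          rw [hO, mem_orbF_iff] at h1 ⊢
          exact h1.trans ⟨-k, rfl⟩
        · rw [zpow_comm_aux hτ, hz.2, ← Equiv.Perm.mul_apply, ← zpow_add]
          simp
      · rw [← Equiv.Perm.mul_apply, ← zpow_add]
        simp
  have hle : l = d * e := by
    rw [← hOl, Finset.card_eq_sum_card_fiberwise (f := β) (t := D) (fun y hy => hmap y hy),
      Finset.sum_congr rfl hconst, Finset.sum_const, smul_eq_mul]
  have hea : e ≤ a := by
    rw [← hβ (β x), he]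
    apply Finset.card_le_card
    intro y hy
    rw [Finset.mem_filter] at hy ⊢
    exact ⟨Finset.mem_univ _, hy.2⟩
  have hdb : d ≤ b := by
    have := Finset.card_le_univ D
    rwa [Fintype.card_fin] at this
  set U : Finset (Fin n) := univ.filter (fun y => β y ∈ D) with hU
  set S : Finset (Fin n) := U \ O with hS
  have hOU : O ⊆ U := by
    intro y hy
    rw [hU, Finset.mem_filter]
    exact ⟨Finset.mem_univ _, hmap y hy⟩
  have hUc : U.card = d * a := by
    rw [Finset.card_eq_sum_card_fiberwise (f := β) (t := D) (fun y hy => by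
      have h1 : y ∈ U := hy
      rw [hU, Finset.mem_filter] at h1
      exact h1.2)]
    have : ∀ i ∈ D, (U.filter (fun y => β y = i)).card = a := by
      intro i hi
      rw [← hβ i]
      congr 1
      ext y
      constructor
      · intro h
        exact Finset.mem_filter.2 ⟨Finset.mem_univ _, (Finset.mem_filter.1 h).2⟩
      · intro h
        have h2 := (Finset.mem_filter.1 h).2
        exact Finset.mem_filter.2 ⟨Finset.mem_filter.2 ⟨Finset.mem_univ _, by rwa [h2]⟩, h2⟩
    rw [Finset.sum_congr rfl this, Finset.sum_const, smul_eq_mul]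
  have hSc : S.card = d * (a - e) := by
    rw [hS, Finset.card_sdiff_of_subset hOU, hUc, hOl, hle, Nat.mul_sub]
  have hSinv : ∀ y ∈ S, σ y ∈ S := by
    intro y hy
    rw [hS, Finset.mem_sdiff] at hy ⊢
    obtain ⟨h1, h2⟩ := hy
    constructor
    · rw [hU, Finset.mem_filter] at h1 ⊢
      refine ⟨Finset.mem_univ _, ?_⟩
      rw [hτ, hD, mem_orbF_iff]
      have h3 := h1.2
      rw [hD, mem_orbF_iff] at h3
      exact h3.trans ⟨1, by simp⟩
    · intro h3
      apply h2
      rw [hO, mem_orbF_iff] at h3 ⊢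
      exact h3.trans ⟨-1, by simp⟩
  refine ⟨d, e, hle.symm, hea, hdb, ptOn σ S, ?_, ?_, ?_⟩
  · rw [← hx]
    apply ptOn_le_erase
    intro y hy hxy
    rw [hS, Finset.mem_sdiff] at hy
    exact hy.2 (by rw [hO, mem_orbF_iff]; exact hxy)
  · intro i hi
    obtain ⟨y, hy, hyi⟩ := mem_ptOn σ hi
    rw [hS, Finset.mem_sdiff, hU, Finset.mem_filter, hD, mem_orbF_iff] at hy
    have hsc : τ.SameCycle (β x) (β y) := hy.1.2
    have h1 : d = Function.minimalPeriod τ (β y) := by
      rw [hd, hD, orbF_eq_of_sameCycle hsc, card_orbF]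
    rw [h1]
    apply Function.IsPeriodicPt.minimalPeriod_dvd
    have h2 : Function.IsPeriodicPt σ i y := by
      rw [← hyi]
      exact Function.isPeriodicPt_minimalPeriod σ y
    have h3 : (σ ^ i) y = y := by
      have := h2.eq
      rwa [Equiv.Perm.iterate_eq_pow] at this
    show τ^[i] (β y) = β y
    rw [Equiv.Perm.iterate_eq_pow]
    have h4 := zpow_comm_aux hτ (i : ℤ) y
    rw [zpow_natCast, zpow_natCast, h3] at h4
    exact h4.symm
  · rw [ptOn_sum σ hSinv, hSc]

end Pool.Agent.ALT
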