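import Pool.Agent.ALT.Defs

/-! module ALT-N6 -/

namespace Pool.Agent.ALT

open Equiv

namespace N6

/-- list of images -/
def L (σ : Perm (Fin 6)) : List ℕ := List.ofFn fun i => ((σ i : Fin 6) : ℕ)

/-- composition of lists of images -/
def cp (a b : List ℕ) : List ℕ := b.map fun i => a.getD i 0

theorem L_getD (σ : Perm (Fin 6)) (i : Fin 6) : (L σ).getD (i : ℕ) 0 = σ i := by
  unfold L
  rw [List.getD_eq_getElem _ _ (by rw [List.length_ofFn]; exact i.isLt), List.getElem_ofFn]

theorem L_mul (σ τ : Perm (Fin 6)) : L (σ * τ) = cp (L σ) (L τ) := by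
  unfold cp
  conv_rhs => arg 2; unfold L
  rw [List.map_ofFn]
  unfold L
  congr 1
  funext i
  simp only [Function.comp_apply, Perm.mul_apply]
  exact (L_getD σ (τ i)).symm

theorem L_inj {σ τ : Perm (Fin 6)} (h : L σ = L τ) : σ = τ := by
  ext i
  rw [← L_getD σ i, ← L_getD τ i, h]

def idl : List ℕ := [0, 1, 2, 3, 4, 5]

theorem L_one : L 1 = idl := by
  decide

def ne (l : List ℕ) (i : ℕ) : ℕ := if l.getD i 0 = i then 0 else 1

/-- exactly three points are moved -/
def three (l : List ℕ) : Bool :=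
  ne l 0 + ne l 1 + ne l 2 + ne l 3 + ne l 4 + ne l 5 == 3

theorem three_L {σ : Perm (Fin 6)} (h : three (L σ) = true) : σ.IsThreeCycle := by
  rw [← card_support_eq_three_iff]
  have h1 : σ.support.card = ∑ i : Fin 6, ne (L σ) i := by
    unfold Perm.support
    rw [Finset.card_filter]
    refine Finset.sum_congr rfl fun i _ => ?_
    unfold ne
    rw [L_getD]
    by_cases hi : σ i = i
    · simp [hi]
    · have : ((σ i : Fin 6) : ℕ) ≠ i := fun h => hi (Fin.ext h)
      simp [hi, this]
  rw [h1, Fin.sum_univ_six]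
  exact of_decide_eq_true (by simpa [three] using h)

def c1 : List ℕ := [1, 2, 3, 4, 0, 5]
def c2 : List ℕ := [2, 3, 4, 0, 1, 5]
def c3 : List ℕ := [3, 4, 0, 1, 2, 5]

def sq (l : List ℕ) : List ℕ := cp l l

/-- the check for one list of images -/
def chk (x : List ℕ) : Bool :=
  cp (cp x x) (cp x x) != idl || cp x x == idl ||
  three (sq (cp (cp (cp (cp (cp c1 (cp x x)) c2) (cp x x)) c3) (cp x x))) ||
  three (sq (cp (cp (cp (cp (cp c1 x) c2) (cp x x)) c1) (cp x x))) ||
  three (sq (cp (cp (cp (cp (cp c1 x) c2) (cp x (cp x x))) c2) (cp x (cp x x)))) ||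
  three (sq (cp (cp (cp (cp (cp c1 x) c1) (cp x (cp x x))) c2) (cp x (cp x x)))) ||
  three (sq (cp (cp (cp (cp (cp c2 x) c2) x) c3) (cp x x))) ||
  three (sq (cp (cp (cp c2 x) c2) (cp x x)))

/-- a Boolean check on `0, ..., 5` -/
def all6 (p : ℕ → Bool) : Bool := p 0 && p 1 && p 2 && p 3 && p 4 && p 5

theorem all6_spec {p : ℕ → Bool} (h : all6 p = true) (a : Fin 6) : p a.val = true := by
  simp only [all6, Bool.and_eq_true] at h
  obtain ⟨⟨⟨⟨⟨h0, h1⟩, h2⟩, h3⟩, h4⟩, h5⟩ := h
  fin_cases a
  · exact h0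
  · exact h1
  · exact h2
  · exact h3
  · exact h4
  · exact h5

def run : Bool :=
  all6 fun a => (a == 0) || all6 fun b => (b == 1 || b == a) ||
    all6 fun c => (c == 2 || c == a || c == b) ||
    all6 fun d => (d == 3 || d == a || d == b || d == c) ||
    all6 fun e => (e == 4 || e == a || e == b || e == c || e == d) ||
    all6 fun f => (f == 5 || f == a || f == b || f == c || f == d || f == e) ||
      chk [a, b, c, d, e, f]

theorem run_true : run = true := by decide +kernel

theorem all_chk {a b c d e f : Fin 6} (ha : a ≠ 0) (hb : b ≠ 1 ∧ b ≠ a)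
    (hc : c ≠ 2 ∧ c ≠ a ∧ c ≠ b) (hd : d ≠ 3 ∧ d ≠ a ∧ d ≠ b ∧ d ≠ c)
    (he : e ≠ 4 ∧ e ≠ a ∧ e ≠ b ∧ e ≠ c ∧ e ≠ d)
    (hf : f ≠ 5 ∧ f ≠ a ∧ f ≠ b ∧ f ≠ c ∧ f ≠ d ∧ f ≠ e) :
    chk [a.val, b.val, c.val, d.val, e.val, f.val] = true := by
  have key : ∀ (u v : Fin 6), u ≠ v → (u.val == v.val) = false := by
    intro u v huv
    rw [beq_eq_false_iff_ne]
    exact fun h => huv (Fin.ext h)
  have key' : ∀ (u : Fin 6) (m : ℕ) (hm : m < 6), u ≠ ⟨m, hm⟩ → (u.val == m) = false := by
    intro u m hm h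
    rw [beq_eq_false_iff_ne]
    exact fun h' => h (Fin.ext h')
  have h1 := all6_spec run_true a
  rw [key' a 0 (by decide) ha, Bool.false_or] at h1
  have h2 := all6_spec h1 b
  simp only [key' b 1 (by decide) hb.1, key b a hb.2, Bool.false_or] at h2
  have h3 := all6_spec h2 c
  simp only [key' c 2 (by decide) hc.1, key c a hc.2.1, key c b hc.2.2, Bool.false_or] at h3
  have h4 := all6_spec h3 d
  simp only [key' d 3 (by decide) hd.1, key d a hd.2.1, key d b hd.2.2.1, key d c hd.2.2.2,
    Bool.false_or] at h4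
  have h5 := all6_spec h4 e
  simp only [key' e 4 (by decide) he.1, key e a he.2.1, key e b he.2.2.1, key e c he.2.2.2.1,
    key e d he.2.2.2.2, Bool.false_or] at h5
  have h6 := all6_spec h5 f
  simp only [key' f 5 (by decide) hf.1, key f a hf.2.1, key f b hf.2.2.1, key f c hf.2.2.2.1,
    key f d hf.2.2.2.2.1, key f e hf.2.2.2.2.2, Bool.false_or] at h6
  exact h6

/-- the standard `5`-cycle -/
def c0 : Perm (Fin 6) := List.formPerm [0, 1, 2, 3, 4]

theorem L_c0 : L c0 = c1 := by decide

theorem cycleType_c0 : c0.cycleType = {5} := by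
  have h : c0.IsCycle := List.isCycle_formPerm (by decide) (by decide)
  rw [h.cycleType]
  have : c0.support.card = 5 := by decide
  rw [this]

theorem core0 {x : Perm (Fin 6)} (hx : x.cycleType = {4, 2}) :
    ∃ t ∈ Subgroup.closure {c0, x}, t.IsThreeCycle := by
  have hord : orderOf x = 4 := by
    rw [← Perm.lcm_cycleType, hx]
    decide
  have h4 : x ^ 4 = 1 := by rw [← hord]; exact pow_orderOf_eq_one x
  have h2 : x ^ 2 ≠ 1 := by
    intro h
    have := orderOf_dvd_of_pow_eq_one h
    rw [hord] at this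
    revert this
    decide
  have hsup : x.support = Finset.univ := by
    apply Finset.eq_univ_of_card
    rw [← Perm.sum_cycleType, hx]
    decide
  have hne : ∀ i, x i ≠ i := by
    intro i
    have : i ∈ x.support := by rw [hsup]; exact Finset.mem_univ i
    exact Perm.mem_support.1 this
  have hinj : ∀ i j, i ≠ j → x i ≠ x j := fun i j hij h => hij (x.injective h)
  have hchk := all_chk (a := x 0) (b := x 1) (c := x 2) (d := x 3) (e := x 4) (f := x 5)
    (hne 0) ⟨hne 1, hinj _ _ (by decide)⟩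
    ⟨hne 2, hinj _ _ (by decide), hinj _ _ (by decide)⟩
    ⟨hne 3, hinj _ _ (by decide), hinj _ _ (by decide), hinj _ _ (by decide)⟩
    ⟨hne 4, hinj _ _ (by decide), hinj _ _ (by decide), hinj _ _ (by decide),
      hinj _ _ (by decide)⟩
    ⟨hne 5, hinj _ _ (by decide), hinj _ _ (by decide), hinj _ _ (by decide),
      hinj _ _ (by decide), hinj _ _ (by decide)⟩
  have hL : [(x 0).val, (x 1).val, (x 2).val, (x 3).val, (x 4).val, (x 5).val] = L x := by
    unfold L
    simp [List.ofFn_succ]
  rw [hL] at hchk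
  have hc : c0 ∈ Subgroup.closure {c0, x} := Subgroup.subset_closure (by simp)
  have hxm : x ∈ Subgroup.closure {c0, x} := Subgroup.subset_closure (by simp)
  have hc2 : c2 = L (c0 * c0) := by rw [L_mul, L_c0]; decide
  have hc3 : c3 = L (c0 * (c0 * c0)) := by rw [L_mul, L_mul, L_c0]; decide
  unfold chk at hchk
  rw [← L_one, hc2, hc3, ← L_c0] at hchk
  unfold sq at hchk
  simp only [← L_mul, Bool.or_eq_true, bne_iff_ne, beq_iff_eq, or_assoc] at hchk
  rcases hchk with h | h | h | h | h | h | h | h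
  · exfalso
    apply h
    have h5 : x * x * (x * x) = 1 := by
      rw [← h4]
      simp only [pow_succ, pow_zero, one_mul, mul_assoc]
    rw [h5]
  · exfalso
    apply h2
    rw [pow_two]
    exact L_inj h
  all_goals
    refine ⟨_, ?_, three_L h⟩
    repeat' first | with_reducible exact hc | with_reducible exact hxm | apply mul_mem

end N6

theorem n6_core {c x : Perm (Fin 6)} (hc : pt c = {5, 1}) (hx : pt x = {4, 2}) :
    ∃ t ∈ Subgroup.closure {c, x}, t.IsThreeCycle := by
  have hc' : c.cycleType = {5} := by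
    have h := Perm.filter_parts_partition_eq_cycleType (σ := c)
    unfold pt at hc
    rw [← h, hc]
    decide
  have hx' : x.cycleType = {4, 2} := by
    have h := Perm.filter_parts_partition_eq_cycleType (σ := x)
    unfold pt at hx
    rw [← h, hx]
    decide
  obtain ⟨g, hg⟩ := isConj_iff.1 (Perm.isConj_iff_cycleType_eq.2 (hc'.trans N6.cycleType_c0.symm))
  obtain ⟨t, ht, h3⟩ := N6.core0 (x := g * x * g⁻¹) (by rw [Perm.cycleType_conj, hx'])
  refine ⟨g⁻¹ * t * g, ?_, ?_⟩
  · have h1 : Subgroup.closure {N6.c0, g * x * g⁻¹} ≤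
        (Subgroup.closure {c, x}).comap (MulAut.conj g⁻¹).toMonoidHom := by
      rw [Subgroup.closure_le]
      intro y hy
      rcases hy with rfl | rfl
      · rw [SetLike.mem_coe, Subgroup.mem_comap]
        have : (MulAut.conj g⁻¹).toMonoidHom N6.c0 = c := by
          rw [← hg]
          simp [mul_assoc]
        rw [this]
        exact Subgroup.subset_closure (by simp)
      · rw [SetLike.mem_coe, Subgroup.mem_comap]
        have : (MulAut.conj g⁻¹).toMonoidHom (g * x * g⁻¹) = x := by
          simp [mul_assoc]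
        rw [this]
        exact Subgroup.subset_closure (by simp)
    have h2 := h1 ht
    rw [Subgroup.mem_comap] at h2
    have h4 : (MulAut.conj g⁻¹).toMonoidHom t = g⁻¹ * t * g := by simp
    rwa [h4] at h2
  · have h5 : (g⁻¹ * t * g).cycleType = t.cycleType := by
      have := Perm.cycleType_conj (σ := t) (τ := g⁻¹)
      rwa [inv_inv] at this
    unfold Perm.IsThreeCycle at h3 ⊢
    rw [h5, h3]

end Pool.Agent.ALT
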