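import Pool.Agent.ALT.Base1

/-! module ALT-N7 -/

namespace Pool.Agent.ALT

open Equiv

namespace N7

/-- force the evaluation of a natural number in the kernel -/
def force {α : Type} (n : ℕ) (f : ℕ → α) : α :=
  Nat.rec (motive := fun _ => α) (f 0) (fun k _ => f (k + 1)) n

theorem force_eq {α : Type} (n : ℕ) (f : ℕ → α) : force n f = f n := by
  cases n <;> rfl

/-- digit `i` of `a` in base `8` -/
def dg (a i : ℕ) : ℕ := a / 8 ^ i % 8

/-- composition of coded functions -/
def comp (a b : ℕ) : ℕ :=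
  dg a (dg b 0) + 8 * dg a (dg b 1) + 64 * dg a (dg b 2) + 512 * dg a (dg b 3) +
    4096 * dg a (dg b 4) + 32768 * dg a (dg b 5) + 262144 * dg a (dg b 6)

/-- code of a function -/
def enc (f : Fin 7 → Fin 7) : ℕ :=
  (f 0 : ℕ) + 8 * (f 1 : ℕ) + 64 * (f 2 : ℕ) + 512 * (f 3 : ℕ) + 4096 * (f 4 : ℕ) +
    32768 * (f 5 : ℕ) + 262144 * (f 6 : ℕ)

theorem dg_enc (f : Fin 7 → Fin 7) (i : Fin 7) : dg (enc f) i = f i := by
  have h0 := (f 0).2
  have h1 := (f 1).2
  have h2 := (f 2).2
  have h3 := (f 3).2
  have h4 := (f 4).2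
  have h5 := (f 5).2
  have h6 := (f 6).2
  unfold dg enc
  fin_cases i
  · show _ / 8 ^ 0 % 8 = ((f 0 : Fin 7) : ℕ); omega
  · show _ / 8 ^ 1 % 8 = ((f 1 : Fin 7) : ℕ); omega
  · show _ / 8 ^ 2 % 8 = ((f 2 : Fin 7) : ℕ); omega
  · show _ / 8 ^ 3 % 8 = ((f 3 : Fin 7) : ℕ); omega
  · show _ / 8 ^ 4 % 8 = ((f 4 : Fin 7) : ℕ); omega
  · show _ / 8 ^ 5 % 8 = ((f 5 : Fin 7) : ℕ); omega
  · show _ / 8 ^ 6 % 8 = ((f 6 : Fin 7) : ℕ); omega

theorem comp_enc (f g : Fin 7 → Fin 7) : comp (enc f) (enc g) = enc (f ∘ g) := by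
  have h : ∀ i : Fin 7, dg (enc f) (dg (enc g) i) = f (g i) := by
    intro i; rw [dg_enc g i, dg_enc f (g i)]
  have h0 := h 0
  have h1 := h 1
  have h2 := h 2
  have h3 := h 3
  have h4 := h 4
  have h5 := h 5
  have h6 := h 6
  simp only [Fin.isValue, Fin.val_zero, Fin.val_one] at h0 h1
  change dg (enc f) (dg (enc g) 2) = _ at h2
  change dg (enc f) (dg (enc g) 3) = _ at h3
  change dg (enc f) (dg (enc g) 4) = _ at h4
  change dg (enc f) (dg (enc g) 5) = _ at h5
  change dg (enc f) (dg (enc g) 6) = _ at h6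
  unfold comp
  rw [h0, h1, h2, h3, h4, h5, h6]
  rfl

/-- code of a permutation -/
def encP (σ : Perm (Fin 7)) : ℕ := enc σ

theorem encP_mul (σ τ : Perm (Fin 7)) : encP (σ * τ) = comp (encP σ) (encP τ) := by
  unfold encP
  rw [comp_enc]
  rfl

/-- the code of the identity -/
def idc : ℕ := 0 + 8 * 1 + 64 * 2 + 512 * 3 + 4096 * 4 + 32768 * 5 + 262144 * 6

theorem encP_one : encP 1 = idc := rfl

/-- power -/
def pwc (a : ℕ) : ℕ → ℕ
  | 0 => idc
  | k + 1 => force (pwc a k) fun b => comp a b

theorem encP_pow (σ : Perm (Fin 7)) (k : ℕ) : encP (σ ^ k) = pwc (encP σ) k := by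
  induction k with
  | zero => simp [pwc, encP_one]
  | succ k ih => rw [pow_succ', encP_mul, ih, pwc, force_eq]

/-- the words -/
def wv {G : Type*} [Group G] (c x : G) : List (ℕ × ℕ) → G
  | [] => 1
  | (i, j) :: l => (c ^ i * x ^ j) * wv c x l

/-- the words on codes -/
def wc (c x : ℕ) : List (ℕ × ℕ) → ℕ
  | [] => idc
  | (i, j) :: l => force (pwc c i) fun a => force (pwc x j) fun b => force (comp a b) fun ab =>
      force (wc c x l) fun r => comp ab r

theorem encP_wv (c x : Perm (Fin 7)) (l : List (ℕ × ℕ)) :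
    encP (wv c x l) = wc (encP c) (encP x) l := by
  induction l with
  | nil => rfl
  | cons a l ih =>
    obtain ⟨i, j⟩ := a
    simp only [wv, wc, force_eq]
    rw [encP_mul, encP_mul, encP_pow, encP_pow, ih]

theorem wv_mem {G : Type*} [Group G] (c x : G) (l : List (ℕ × ℕ)) :
    wv c x l ∈ Subgroup.closure {c, x} := by
  induction l with
  | nil => exact Subgroup.one_mem _
  | cons a l ih =>
    obtain ⟨i, j⟩ := a
    exact Subgroup.mul_mem _ (Subgroup.mul_mem _
      (Subgroup.pow_mem _ (Subgroup.subset_closure (by simp)) _)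
      (Subgroup.pow_mem _ (Subgroup.subset_closure (by simp)) _)) ih

theorem wv_conj {G : Type*} [Group G] (g c x : G) (l : List (ℕ × ℕ)) :
    wv (g * c * g⁻¹) (g * x * g⁻¹) l = g * wv c x l * g⁻¹ := by
  induction l with
  | nil => simp [wv]
  | cons a l ih =>
    obtain ⟨i, j⟩ := a
    simp only [wv]
    rw [ih, conj_pow, conj_pow]
    group

/-- number of points not fixed -/
def cnt (n : ℕ) : ℕ :=
  (if dg n 0 = 0 then 0 else 1) + (if dg n 1 = 1 then 0 else 1) + (if dg n 2 = 2 then 0 else 1) +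
  (if dg n 3 = 3 then 0 else 1) + (if dg n 4 = 4 then 0 else 1) + (if dg n 5 = 5 then 0 else 1) +
  (if dg n 6 = 6 then 0 else 1)

theorem cnt_encP (σ : Perm (Fin 7)) : σ.support.card = cnt (encP σ) := by
  have h : ∀ i : Fin 7, (if dg (encP σ) i = i then 0 else 1) = if σ i ≠ i then 1 else 0 := by
    intro i
    unfold encP
    rw [dg_enc]
    by_cases hi : σ i = i
    · simp [hi]
    · have : ((σ i : Fin 7) : ℕ) ≠ (i : ℕ) := fun h => hi (Fin.ext h)
      simp [hi, this]
  have h0 := h 0
  have h1 := h 1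
  have h2 := h 2
  have h3 := h 3
  have h4 := h 4
  have h5 := h 5
  have h6 := h 6
  change (if dg (encP σ) 0 = 0 then 0 else 1) = _ at h0
  change (if dg (encP σ) 1 = 1 then 0 else 1) = _ at h1
  change (if dg (encP σ) 2 = 2 then 0 else 1) = _ at h2
  change (if dg (encP σ) 3 = 3 then 0 else 1) = _ at h3
  change (if dg (encP σ) 4 = 4 then 0 else 1) = _ at h4
  change (if dg (encP σ) 5 = 5 then 0 else 1) = _ at h5
  change (if dg (encP σ) 6 = 6 then 0 else 1) = _ at h6
  unfold cnt
  rw [h0, h1, h2, h3, h4, h5, h6]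
  have : σ.support = Finset.univ.filter fun i => σ i ≠ i := by ext; simp
  rw [this, Finset.card_filter, Fin.sum_univ_seven]

/-- the list of words -/
def words : List (List (ℕ × ℕ)) :=
  [[(1,1),(1,2),(2,3)], [(1,2),(2,3),(1,4)], [(2,3),(3,2)], [(2,1),(5,1),(4,2)],
   [(1,1),(2,3),(6,3)], [(1,1),(1,3),(6,4)], [(1,1),(6,2),(6,3)], [(1,1),(1,4),(1,2)]]

/-- the code of the standard `7`-cycle -/
def c0 : ℕ := 1 + 8 * 2 + 64 * 3 + 512 * 4 + 4096 * 5 + 32768 * 6 + 262144 * 0

/-- test of one word -/
def tst (x : ℕ) (l : List (ℕ × ℕ)) : Bool :=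
  force (wc c0 x l) fun m => force (comp m m) fun m2 => force (comp m2 m2) fun m4 =>
    Nat.beq (cnt m4) 3

/-- test of all words -/
def ok (x : ℕ) : Bool := force x fun y => words.any (tst y)

/-- a function which is a `5`-cycle -/
def cyc (a b c d e : Fin 7) (i : Fin 7) : Fin 7 :=
  if i = a then b else if i = b then c else if i = c then d else if i = d then e else
    if i = e then a else i

/-- the whole check -/
def chk : Bool :=
  (List.finRange 7).all fun a => (List.finRange 7).all fun b => (!decide (a < b)) ||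
    (List.finRange 7).all fun c => (!decide (a < c)) || decide (b = c) ||
      (List.finRange 7).all fun d => (!decide (a < d)) || decide (b = d) || decide (c = d) ||
        (List.finRange 7).all fun e => (!decide (a < e)) || decide (b = e) || decide (c = e) ||
          decide (d = e) || ok (enc (cyc a b c d e))

set_option maxRecDepth 100000 in
theorem chk_true : chk = true := by
  decide +kernel

theorem all_ok (a b c d e : Fin 7) (h1 : a < b) (h2 : a < c) (h3 : a < d) (h4 : a < e)
    (h5 : b ≠ c) (h6 : b ≠ d) (h7 : b ≠ e) (h8 : c ≠ d) (h9 : c ≠ e) (h10 : d ≠ e) :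
    ok (enc (cyc a b c d e)) = true := by
  have h := chk_true
  unfold chk at h
  rw [List.all_eq_true] at h
  have ha := h a (List.mem_finRange a)
  rw [List.all_eq_true] at ha
  have hb := ha b (List.mem_finRange b)
  rw [decide_eq_true h1, Bool.not_true, Bool.false_or, List.all_eq_true] at hb
  have hc := hb c (List.mem_finRange c)
  rw [decide_eq_true h2, Bool.not_true, Bool.false_or, decide_eq_false h5, Bool.false_or,
    List.all_eq_true] at hc
  have hd := hc d (List.mem_finRange d)
  rw [decide_eq_true h3, Bool.not_true, Bool.false_or, decide_eq_false h6, Bool.false_or,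
    decide_eq_false h8, Bool.false_or, List.all_eq_true] at hd
  have he := hd e (List.mem_finRange e)
  rw [decide_eq_true h4, Bool.not_true, Bool.false_or, decide_eq_false h7, Bool.false_or,
    decide_eq_false h9, Bool.false_or, decide_eq_false h10, Bool.false_or] at he
  exact he

/-- a cycle with support of size `5` is a `cyc` with smallest point first -/
theorem exists_cyc (y : Perm (Fin 7)) (hy : y.cycleType = {5}) :
    ∃ a b c d e : Fin 7, a < b ∧ a < c ∧ a < d ∧ a < e ∧ b ≠ c ∧ b ≠ d ∧ b ≠ e ∧ c ≠ d ∧ c ≠ e ∧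
      d ≠ e ∧ (y : Fin 7 → Fin 7) = cyc a b c d e := by
  have hcyc : y.IsCycle := by
    rw [← Perm.card_cycleType_eq_one, hy]; rfl
  have hcard : y.support.card = 5 := by
    have h := hcyc.cycleType
    rw [hy] at h
    exact (Multiset.singleton_inj.1 h).symm
  have hord : orderOf y = 5 := by rw [hcyc.orderOf, hcard]
  have hne : y.support.Nonempty := by rw [← Finset.card_pos, hcard]; norm_num
  set a := y.support.min' hne with ha
  have hamem : a ∈ y.support := Finset.min'_mem _ _
  have hay : y a ≠ a := Perm.mem_support.1 hamem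
  have hmin : ∀ z ∈ y.support, a ≤ z := fun z hz => Finset.min'_le _ _ hz
  have hpow : ∀ k : ℕ, ((y ^ k) a = a ↔ 5 ∣ k) := by
    intro k
    rw [← hcyc.pow_eq_one_iff' hay, ← hord, orderOf_dvd_iff_pow_eq_one]
  have hmem : ∀ k : ℕ, (y ^ k) a ∈ y.support := by
    intro k
    exact Perm.pow_apply_mem_support.2 hamem
  have hinj : ∀ j k : ℕ, j < k → k < 5 → (y ^ j) a ≠ (y ^ k) a := by
    intro j k hjk hk h
    have h1 : (y ^ (k - j)) a = a := by
      apply (y ^ j).injective
      rw [← Perm.mul_apply, ← pow_add, Nat.add_sub_cancel' hjk.le, ← h]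
    rw [hpow] at h1
    have := Nat.le_of_dvd (by omega) h1
    omega
  have hlt : ∀ k : ℕ, 0 < k → k < 5 → a < (y ^ k) a := by
    intro k h0 hk
    refine lt_of_le_of_ne (hmin _ (hmem k)) ?_
    have := hinj 0 k h0 hk
    simpa using this
  have hsucc : ∀ k : ℕ, y ((y ^ k) a) = (y ^ (k + 1)) a := by
    intro k; rw [pow_succ', Perm.mul_apply]
  have h5 : (y ^ 5) a = a := (hpow 5).2 (dvd_refl _)
  have hsupp : y.support = {a, (y ^ 1) a, (y ^ 2) a, (y ^ 3) a, (y ^ 4) a} := by
    symm
    apply Finset.eq_of_subset_of_card_le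
    · intro z hz
      simp only [Finset.mem_insert, Finset.mem_singleton] at hz
      rcases hz with rfl | rfl | rfl | rfl | rfl
      · exact hamem
      · exact hmem 1
      · exact hmem 2
      · exact hmem 3
      · exact hmem 4
    · rw [hcard]
      have e01 := (hlt 1 (by norm_num) (by norm_num)).ne
      have e02 := (hlt 2 (by norm_num) (by norm_num)).ne
      have e03 := (hlt 3 (by norm_num) (by norm_num)).ne
      have e04 := (hlt 4 (by norm_num) (by norm_num)).ne
      have e12 := hinj 1 2 (by norm_num) (by norm_num)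
      have e13 := hinj 1 3 (by norm_num) (by norm_num)
      have e14 := hinj 1 4 (by norm_num) (by norm_num)
      have e23 := hinj 2 3 (by norm_num) (by norm_num)
      have e24 := hinj 2 4 (by norm_num) (by norm_num)
      have e34 := hinj 3 4 (by norm_num) (by norm_num)
      rw [Finset.card_insert_of_notMem (by
          simp only [Finset.mem_insert, Finset.mem_singleton]; tauto),
        Finset.card_insert_of_notMem (by
          simp only [Finset.mem_insert, Finset.mem_singleton]; tauto),
        Finset.card_insert_of_notMem (by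
          simp only [Finset.mem_insert, Finset.mem_singleton]; tauto),
        Finset.card_insert_of_notMem (by
          simp only [Finset.mem_singleton]; tauto), Finset.card_singleton]
  refine ⟨a, (y ^ 1) a, (y ^ 2) a, (y ^ 3) a, (y ^ 4) a, hlt 1 (by norm_num) (by norm_num),
    hlt 2 (by norm_num) (by norm_num), hlt 3 (by norm_num) (by norm_num),
    hlt 4 (by norm_num) (by norm_num), hinj 1 2 (by norm_num) (by norm_num),
    hinj 1 3 (by norm_num) (by norm_num), hinj 1 4 (by norm_num) (by norm_num),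
    hinj 2 3 (by norm_num) (by norm_num), hinj 2 4 (by norm_num) (by norm_num),
    hinj 3 4 (by norm_num) (by norm_num), ?_⟩
  funext i
  unfold cyc
  split_ifs with g1 g2 g3 g4 g5
  · rw [g1, pow_one]
  · rw [g2, hsucc]
  · rw [g3, hsucc]
  · rw [g4, hsucc]
  · rw [g5, hsucc, h5]
  · by_contra hi
    have : i ∈ y.support := Perm.mem_support.2 hi
    rw [hsupp] at this
    simp only [Finset.mem_insert, Finset.mem_singleton] at this
    tauto

end N7

open N7 in
theorem n7_core {c x : Perm (Fin 7)} (hc : pt c = {7}) (hx : pt x = {5, 1, 1}) :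
    ∃ t ∈ Subgroup.closure {c, x}, t.IsThreeCycle := by
  have hc' : c.cycleType = {7} := by
    rw [← Perm.filter_parts_partition_eq_cycleType]
    change Multiset.filter (fun n => 2 ≤ n) (pt c) = _
    rw [hc]; rfl
  have hx' : x.cycleType = {5} := by
    rw [← Perm.filter_parts_partition_eq_cycleType]
    change Multiset.filter (fun n => 2 ≤ n) (pt x) = _
    rw [hx]; rfl
  have hconj : IsConj c (finRotate 7) := by
    rw [Perm.isConj_iff_cycleType_eq, hc', cycleType_finRotate (n := 5)]
  obtain ⟨g, hg⟩ := isConj_iff.1 hconj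
  set y := g * x * g⁻¹ with hy
  have hyt : y.cycleType = {5} := by rw [hy, Perm.cycleType_conj, hx']
  obtain ⟨a, b, c', d, e, h1, h2, h3, h4, h5, h6, h7, h8, h9, h10, hfun⟩ := exists_cyc y hyt
  have hok := all_ok a b c' d e h1 h2 h3 h4 h5 h6 h7 h8 h9 h10
  rw [← hfun] at hok
  change ok (encP y) = true at hok
  unfold ok at hok
  rw [force_eq, List.any_eq_true] at hok
  obtain ⟨l, _, hl⟩ := hok
  have hc0 : encP (finRotate 7) = c0 := by decide
  unfold tst at hl
  simp only [force_eq] at hl
  rw [← hc0, ← encP_wv, ← encP_mul, ← encP_mul, ← cnt_encP] at hl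
  have hl' := Nat.eq_of_beq_eq_true hl
  have ht := card_support_eq_three_iff.1 hl'
  rw [← hg, hy, wv_conj] at ht
  refine ⟨wv c x l * wv c x l * (wv c x l * wv c x l),
    Subgroup.mul_mem _ (Subgroup.mul_mem _ (wv_mem c x l) (wv_mem c x l))
      (Subgroup.mul_mem _ (wv_mem c x l) (wv_mem c x l)), ?_⟩
  unfold Perm.IsThreeCycle at ht ⊢
  have : g * wv c x l * g⁻¹ * (g * wv c x l * g⁻¹) * (g * wv c x l * g⁻¹ * (g * wv c x l * g⁻¹)) =
      g * (wv c x l * wv c x l * (wv c x l * wv c x l)) * g⁻¹ := by group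
  rw [this, Perm.cycleType_conj] at ht
  exact ht

end Pool.Agent.ALT
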