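import Pool.Agent.ALT.Base1
import Pool.Agent.ALT.Jordan

/-! module ALT-P: primitive groups contain no element with `E_p` -/

namespace Pool.Agent.ALT

open Equiv MulAction Equiv.Perm

theorem not_Ep_of_primitive {n p : ℕ} {G : Subgroup (Perm (Fin n))}
    (hG : IsPreprimitive G (Fin n)) (hGA : ¬ alternatingGroup (Fin n) ≤ G)
    (hp : p.Prime) (hpn : p + 3 ≤ n) {g : Perm (Fin n)} (hg : g ∈ G) : ¬ Ep p (pt g) := by
  rintro ⟨h1, h2⟩
  have hpt : pt g = g.cycleType + Multiset.replicate (Fintype.card (Fin n) - g.support.card) 1 :=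
    parts_partition
  have hcount : g.cycleType.count p = 1 := by
    rw [hpt, Multiset.count_add] at h1
    have : Multiset.count p (Multiset.replicate (Fintype.card (Fin n) - g.support.card) 1) = 0 := by
      rw [Multiset.count_eq_zero]
      intro h
      exact hp.one_lt.ne' (Multiset.eq_of_mem_replicate h)
    omega
  have hmem : p ∈ g.cycleType := by
    rw [← Multiset.one_le_count_iff_mem, hcount]
  obtain ⟨c, τ, hgc, hdis, hc, hcard⟩ := mem_cycleType_iff.1 hmem
  have htype : g.cycleType = {p} + τ.cycleType := by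
    rw [hgc, hdis.cycleType_mul, hc.cycleType, hcard]
  have hnd : ∀ i ∈ τ.cycleType, ¬ p ∣ i := by
    intro i hi hdvd
    have hig : i ∈ g.cycleType := by rw [htype]; exact Multiset.mem_add.2 (Or.inr hi)
    have : i = p := h2 i (by rw [hpt]; exact Multiset.mem_add.2 (Or.inl hig)) hdvd
    subst this
    rw [htype, Multiset.count_add, Multiset.count_singleton_self] at hcount
    have : 1 ≤ τ.cycleType.count i := Multiset.one_le_count_iff_mem.2 hi
    omega
  set N := τ.cycleType.prod with hN
  have hcop : N.Coprime p := by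
    rw [Nat.coprime_comm, hp.coprime_iff_not_dvd]
    intro h
    obtain ⟨i, hi, hd⟩ := hp.prime.exists_mem_multiset_dvd h
    exact hnd i hi hd
  have hτ : τ ^ N = 1 := by
    rw [← orderOf_dvd_iff_pow_eq_one, ← lcm_cycleType]
    exact Multiset.lcm_dvd.2 fun i hi => Multiset.dvd_prod hi
  have hpow : g ^ N = c ^ N := by
    rw [hgc, hdis.commute.mul_pow, hτ, mul_one]
  have hco : N.Coprime (orderOf c) := by rw [hc.orderOf, hcard]; exact hcop
  apply hGA
  refine jordan_prime hG hp (by simpa using hpn) (g := g ^ N) ?_ ?_ (G.pow_mem hg N)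
  · rw [hpow]
    exact hc.pow_iff.2 hco
  · rw [hpow, support_pow_coprime hco, hcard]

end Pool.Agent.ALT
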