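import Pool.Agent.ALT.Base4
import Pool.Agent.ALT.Prim
import Pool.Agent.ALT.N6
import Pool.Agent.ALT.N7

/-! module ALT-N5: primitive groups of degree 5, 6, 7 -/

namespace Pool.Agent.ALT

open Equiv MulAction

private theorem altsmall_wt {μ : Multiset ℕ} {z : ℕ}
    (h : μ.prod * ∏ i ∈ μ.toFinset, (μ.count i).factorial = z) : wt μ = 1 / (z : ℝ) := by
  subst h
  unfold wt
  push_cast
  rfl

private theorem altsmall_three {n : ℕ} {K : Subgroup (Perm (Fin n))}
    (hK : IsPreprimitive K (Fin n)) (hKA : ¬ alternatingGroup (Fin n) ≤ K) {g : Perm (Fin n)}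
    (hg : g ∈ K) {μ : Multiset ℕ} (hμ : μ.filter (2 ≤ ·) = {3}) : pt g ≠ μ := by
  intro h
  apply hKA
  refine Perm.alternatingGroup_le_of_isPreprimitive_of_isThreeCycle_mem hK ?_ hg
  unfold Perm.IsThreeCycle
  rw [← Perm.filter_parts_partition_eq_cycleType]
  change (pt g).filter (2 ≤ ·) = {3}
  rw [h]
  exact hμ

private theorem altsmall_closure {n : ℕ} {K : Subgroup (Perm (Fin n))}
    (hK : IsPreprimitive K (Fin n)) (hKA : ¬ alternatingGroup (Fin n) ≤ K) {c g : Perm (Fin n)}
    (hc : c ∈ K) (hg : g ∈ K) (h : ∃ t ∈ Subgroup.closure {c, g}, t.IsThreeCycle) : False := by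
  obtain ⟨t, ht, h3⟩ := h
  apply hKA
  refine Perm.alternatingGroup_le_of_isPreprimitive_of_isThreeCycle_mem hK h3 ?_
  refine (Subgroup.closure_le K).2 ?_ ht
  rintro x (rfl | rfl)
  · exact hc
  · exact hg

theorem small_prim {n : ℕ} (h5 : 5 ≤ n) (h7 : n ≤ 7) {K : Subgroup (Perm (Fin n))}
    (hK : IsPreprimitive K (Fin n)) (hKA : ¬ alternatingGroup (Fin n) ≤ K) :
    ∃ p : Multiset ℕ → Prop, (7 / 25 : ℝ) ≤ avC n 1 (ind p) ∧ ∀ g ∈ K, ¬ p (pt g) := by
  obtain rfl | rfl | rfl : n = 5 ∨ n = 6 ∨ n = 7 := by omega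
  · refine ⟨fun μ => μ = {3, 1, 1}, ?_, fun g hg h => altsmall_three hK hKA hg (by decide) h⟩
    refine le_trans ?_ (avC_ge_list (n := 5) [{3, 1, 1}] (by decide) ?_ (ind_nonneg _) ?_)
    · simp only [List.map_cons, List.map_nil, List.sum_cons, List.sum_nil]
      rw [altsmall_wt (μ := {3, 1, 1}) (z := 6) (by decide)]
      norm_num
    · decide
    · intro μ hμ
      apply ind_pos
      simpa using hμ
  · by_cases h : ∃ c ∈ K, pt c = {5, 1}
    · obtain ⟨c, hc, hc5⟩ := h
      refine ⟨fun μ => μ = {4, 2} ∨ μ = {3, 1, 1, 1}, ?_, ?_⟩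
      · refine le_trans ?_ (avC_ge_list (n := 6) [{4, 2}, {3, 1, 1, 1}] (by decide) ?_
          (ind_nonneg _) ?_)
        · simp only [List.map_cons, List.map_nil, List.sum_cons, List.sum_nil]
          rw [altsmall_wt (μ := {4, 2}) (z := 8) (by decide),
            altsmall_wt (μ := {3, 1, 1, 1}) (z := 18) (by decide)]
          norm_num
        · decide
        · intro μ hμ
          apply ind_pos
          simpa using hμ
      · rintro g hg (h | h)
        · exact altsmall_closure hK hKA hc hg (n6_core hc5 h)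
        · exact altsmall_three hK hKA hg (by decide) h
    · push Not at h
      refine ⟨fun μ => μ = {5, 1}, ?_, fun g hg => h g hg⟩
      refine le_trans ?_ (avC_ge_list (n := 6) [{5, 1}] (by decide) ?_ (ind_nonneg _) ?_)
      · simp only [List.map_cons, List.map_nil, List.sum_cons, List.sum_nil]
        rw [altsmall_wt (μ := {5, 1}) (z := 5) (by decide)]
        norm_num
      · decide
      · intro μ hμ
        apply ind_pos
        simpa using hμ
  · by_cases h : ∃ c ∈ K, pt c = {7}
    · obtain ⟨c, hc, hc7⟩ := h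
      refine ⟨fun μ => μ = {5, 1, 1} ∨ μ = {3, 1, 1, 1, 1} ∨ μ = {3, 2, 2}, ?_, ?_⟩
      · refine le_trans ?_ (avC_ge_list (n := 7) [{5, 1, 1}, {3, 1, 1, 1, 1}, {3, 2, 2}] (by decide)
          ?_ (ind_nonneg _) ?_)
        · simp only [List.map_cons, List.map_nil, List.sum_cons, List.sum_nil]
          rw [altsmall_wt (μ := {5, 1, 1}) (z := 10) (by decide),
            altsmall_wt (μ := {3, 1, 1, 1, 1}) (z := 72) (by decide),
            altsmall_wt (μ := {3, 2, 2}) (z := 24) (by decide)]
          norm_num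
        · decide
        · intro μ hμ
          apply ind_pos
          simpa using hμ
      · rintro g hg (h | h | h)
        · exact altsmall_closure hK hKA hc hg (n7_core hc7 h)
        · exact altsmall_three hK hKA hg (by decide) h
        · apply not_Ep_of_primitive hK hKA (p := 3) (by norm_num) (by norm_num) hg
          rw [h]
          exact ⟨by decide, by decide⟩
    · push Not at h
      refine ⟨fun μ => μ = {7}, ?_, fun g hg => h g hg⟩
      refine le_trans ?_ (avC_ge_list (n := 7) [{7}] (by decide) ?_ (ind_nonneg _) ?_)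
      · simp only [List.map_cons, List.map_nil, List.sum_cons, List.sum_nil]
        rw [altsmall_wt (μ := {7}) (z := 7) (by decide)]
        norm_num
      · decide
      · intro μ hμ
        apply ind_pos
        simpa using hμ

end Pool.Agent.ALT
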