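import Mathlib

/-! module ALT-G: intransitive, imprimitive, primitive -/

namespace Pool.Agent.ALT

open Equiv MulAction Finset
open scoped Pointwise

theorem tri_intrans {n : ℕ} (K : Subgroup (Perm (Fin n))) (hT : ¬ IsPretransitive K (Fin n)) :
    ∃ S : Finset (Fin n), 1 ≤ S.card ∧ 2 * S.card ≤ n ∧ ∀ σ ∈ K, ∀ x ∈ S, σ x ∈ S := by
  classical
  obtain ⟨x, y, hxy⟩ : ∃ x y : Fin n, y ∉ orbit K x := by
    by_contra hcon
    push Not at hcon
    exact hT ⟨fun x y => hcon x y⟩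
  set O : Finset (Fin n) := univ.filter (fun z => z ∈ orbit K x) with hO
  have hmemO : ∀ z, z ∈ O ↔ z ∈ orbit K x := by intro z; simp [hO]
  have hinv : ∀ σ ∈ K, ∀ z, z ∈ O → σ z ∈ O := by
    intro σ hσ z hz
    rw [hmemO] at hz ⊢
    obtain ⟨g, hg⟩ := hz
    refine ⟨⟨σ, hσ⟩ * g, ?_⟩
    change (⟨σ, hσ⟩ * g : K) • x = σ z
    rw [mul_smul]
    change (⟨σ, hσ⟩ : K) • (g • x) = σ z
    have : g • x = z := hg
    rw [this]
    rfl
  have hinv' : ∀ σ ∈ K, ∀ z, z ∈ Oᶜ → σ z ∈ Oᶜ := by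
    intro σ hσ z hz
    rw [Finset.mem_compl] at hz ⊢
    intro hc
    apply hz
    have := hinv σ⁻¹ (K.inv_mem hσ) (σ z) hc
    simpa using this
  have hx : x ∈ O := by rw [hmemO]; exact mem_orbit_self x
  have hy : y ∈ Oᶜ := by rw [Finset.mem_compl, hmemO]; exact hxy
  have hc : O.card + Oᶜ.card = n := by
    have := Finset.card_add_card_compl O
    rwa [Fintype.card_fin] at this
  by_cases h2 : 2 * O.card ≤ n
  · exact ⟨O, Finset.card_pos.2 ⟨x, hx⟩, h2, hinv⟩
  · exact ⟨Oᶜ, Finset.card_pos.2 ⟨y, hy⟩, by omega, hinv'⟩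

theorem tri_block {n : ℕ} (K : Subgroup (Perm (Fin n))) (hT : IsPretransitive K (Fin n))
    (B : Set (Fin n)) (hB : IsBlock K B) (hB1 : ¬ B.Subsingleton) (hB2 : B ≠ Set.univ) :
    ∃ a b : ℕ, 2 ≤ a ∧ 2 ≤ b ∧ n = a * b ∧ ∃ β : Fin n → Fin b,
      (∀ i, (univ.filter (fun x => β x = i)).card = a) ∧
      ∀ σ ∈ K, ∃ τ : Perm (Fin b), ∀ x, β (σ x) = τ (β x) := by
  classical
  obtain ⟨b₀, hb₀⟩ : B.Nonempty := by
    by_contra hne
    rw [Set.not_nonempty_iff_eq_empty] at hne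
    exact hB1 (hne ▸ Set.subsingleton_empty)
  have hex : ∀ x : Fin n, ∃ C : orbit K B, x ∈ (C : Set (Fin n)) := by
    intro x
    obtain ⟨g, hg⟩ := exists_smul_eq K b₀ x
    exact ⟨⟨g • B, g, rfl⟩, ⟨b₀, hb₀, hg⟩⟩
  have huniq : ∀ (x : Fin n) (C D : orbit K B), x ∈ (C : Set (Fin n)) → x ∈ (D : Set (Fin n)) →
      C = D := by
    rintro x ⟨_, g, rfl⟩ ⟨_, g', rfl⟩ h1 h2
    apply Subtype.ext
    by_contra hne
    exact Set.disjoint_left.1 (hB hne) h1 h2
  choose f hf using hex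
  have hfin : Finite (orbit K B) := Subtype.finite
  let e : orbit K B ≃ Fin (Nat.card (orbit K B)) := Finite.equivFin _
  have hfib : ∀ i, (univ.filter (fun x => e (f x) = i)).card = B.ncard := by
    intro i
    have h1 : ((univ.filter (fun x => e (f x) = i) : Finset (Fin n)) : Set (Fin n)) =
        ((e.symm i : orbit K B) : Set (Fin n)) := by
      ext x
      simp only [coe_filter, mem_univ, true_and]
      constructor
      · intro hx
        have hx' : e (f x) = i := hx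
        have h2 : e.symm i = f x := by rw [← hx', Equiv.symm_apply_apply]
        rw [h2]
        exact hf x
      · intro hx
        change e (f x) = i
        rw [← e.apply_symm_apply i]
        congr 1
        exact huniq x _ _ (hf x) hx
    rw [← Set.ncard_coe_finset, h1]
    obtain ⟨g, hg⟩ := (e.symm i).2
    rw [← hg]
    exact Set.ncard_smul_set g B
  have hn : n = B.ncard * Nat.card (orbit K B) := by
    have h1 := Finset.card_eq_sum_card_fiberwise (f := fun x => e (f x)) (s := univ) (t := univ)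
      (fun x _ => Finset.mem_coe.2 (Finset.mem_univ _))
    rw [Finset.card_univ, Fintype.card_fin] at h1
    simp only [hfib, Finset.sum_const, Finset.card_univ, Fintype.card_fin, smul_eq_mul] at h1
    exact h1.trans (mul_comm _ _)
  have ha : 2 ≤ B.ncard := by
    by_contra hlt
    apply hB1
    rw [← Set.ncard_le_one_iff_subsingleton]
    omega
  have hb : 2 ≤ Nat.card (orbit K B) := by
    by_contra hlt
    have hpos : 0 < Nat.card (orbit K B) := Nat.card_pos_iff.2 ⟨⟨⟨B, mem_orbit_self B⟩⟩, hfin⟩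
    have h1 : Nat.card (orbit K B) = 1 := by omega
    rw [h1, mul_one] at hn
    apply hB2
    rw [Set.eq_univ_iff_ncard, Nat.card_eq_fintype_card, Fintype.card_fin]
    exact hn.symm
  refine ⟨B.ncard, Nat.card (orbit K B), ha, hb, hn, fun x => e (f x), hfib, ?_⟩
  intro σ hσ
  refine ⟨(e.symm.trans (MulAction.toPerm (⟨σ, hσ⟩ : K))).trans e, ?_⟩
  intro x
  simp only [Equiv.trans_apply, Equiv.symm_apply_apply, MulAction.toPerm_apply]
  congr 1
  refine huniq (σ x) _ _ (hf (σ x)) ?_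
  rw [MulAction.orbit.coe_smul]
  exact ⟨x, hf x, rfl⟩

theorem trichotomy {n : ℕ} (_hn : 2 ≤ n) (K : Subgroup (Perm (Fin n))) :
    (∃ S : Finset (Fin n), 1 ≤ S.card ∧ 2 * S.card ≤ n ∧ ∀ σ ∈ K, ∀ x ∈ S, σ x ∈ S) ∨
    (∃ a b : ℕ, 2 ≤ a ∧ 2 ≤ b ∧ n = a * b ∧ ∃ β : Fin n → Fin b,
      (∀ i, (univ.filter (fun x => β x = i)).card = a) ∧
      ∀ σ ∈ K, ∃ τ : Perm (Fin b), ∀ x, β (σ x) = τ (β x)) ∨
    IsPreprimitive K (Fin n) := by
  by_cases hT : IsPretransitive K (Fin n)
  · by_cases hP : ∀ B : Set (Fin n), IsBlock K B → IsTrivialBlock B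
    · right; right
      exact { exists_smul_eq := hT.exists_smul_eq, isTrivialBlock_of_isBlock := fun {B} hB => hP B hB }
    · right; left
      push Not at hP
      obtain ⟨B, hB, hnt⟩ := hP
      unfold IsTrivialBlock at hnt
      push Not at hnt
      exact tri_block K hT B hB (by simpa using hnt.1) hnt.2
  · left
    exact tri_intrans K hT

end Pool.Agent.ALT
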