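import Pool.Agent.ALT.Blk
import Pool.Agent.ALT.KC
import Pool.Agent.ALT.Orb2
import Pool.Agent.ALT.EC
import Pool.Agent.ALT.ES
import Pool.Agent.ALT.EM
import Pool.Agent.ALT.EW
import Pool.Agent.ALT.EL2
import Pool.Agent.ALT.Tri
import Pool.Agent.ALT.Small

/-! assembly -/

namespace Pool.Agent.ALT

open Equiv MulAction Finset

theorem ep_bound {n : ℕ} (h8 : 8 ≤ n) : (7 / 25 : ℝ) ≤ avC n 1 (ind (EE n)) := by
  rcases Nat.lt_or_ge n 14 with h | h
  · exact ep_small h8 (by omega)
  have : ∃ P : Finset ℕ, Adm P n ∧ (7 / 25 : ℝ) ≤ LB P n := by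
    rcases Nat.lt_or_ge n 60 with h1 | h1
    · exact LB_small h (by omega)
    rcases Nat.lt_or_ge n (4 * 10 ^ 9) with h2 | h2
    · exact LB_medium h1 h2.le
    · exact LB_large h2
  obtain ⟨P, hP, hL⟩ := this
  exact hL.trans (avC_Ep_ge P hP)

/-- for every subgroup of `S_n` not containing `A_n` some event of probability `≥ 7/25` in `A_n`
is missed -/
theorem exists_event {n : ℕ} (hn : 5 ≤ n) (K : Subgroup (Perm (Fin n)))
    (hK : ¬ alternatingGroup (Fin n) ≤ K) :
    ∃ p : Multiset ℕ → Prop, (7 / 25 : ℝ) ≤ avC n 1 (ind p) ∧ ∀ g ∈ K, ¬ p (pt g) := by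
  rcases trichotomy (by omega) K with ⟨S, h1, h2, hS⟩ | ⟨a, b, ha, hb, rfl, β, hβ, hK'⟩ | hprim
  · refine ⟨_, kset_bound hn h1 h2, fun g hg => ?_⟩
    have := invariant_kset g S rfl (hS g hg)
    exact not_lt.2 this
  · refine ⟨_, blk_bound ha hb hn, fun g hg => ?_⟩
    obtain ⟨τ, hτ⟩ := hK' g hg
    rintro ⟨l, hl, h⟩
    exact h (blk_of_block_system g β hβ τ hτ hl)
  · rcases Nat.lt_or_ge n 8 with h | h
    · exact small_prim hn (by omega) hprim hK
    · refine ⟨EE n, ep_bound h, fun g hg => ?_⟩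
      rintro ⟨p, hp, hpn, hE⟩
      exact not_Ep_of_primitive hprim hK hp hpn hg hE

/-- derangement proportion for coset actions of `A_n` -/
theorem der_coset {n : ℕ} (hn : 5 ≤ n) (H : Subgroup (alternatingGroup (Fin n))) (hH : H ≠ ⊤) :
    (7 / 25 : ℝ) * Nat.card (alternatingGroup (Fin n))
      ≤ Nat.card {g : alternatingGroup (Fin n) // ∀ x, x⁻¹ * g * x ∉ H} := by
  set K : Subgroup (Perm (Fin n)) := H.map (alternatingGroup (Fin n)).subtype with hKdef
  have hK : ¬ alternatingGroup (Fin n) ≤ K := by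
    intro hle
    apply hH
    rw [eq_top_iff]
    intro g _
    have : (g : Perm (Fin n)) ∈ K := hle g.2
    obtain ⟨h, hh, e⟩ := this
    have : h = g := Subtype.ext e
    exact this ▸ hh
  obtain ⟨p, hp, hpK⟩ := exists_event hn K hK
  have hcard : (0 : ℝ) ≤ Nat.card (alternatingGroup (Fin n)) := Nat.cast_nonneg _
  calc (7 / 25 : ℝ) * Nat.card (alternatingGroup (Fin n))
      ≤ avC n 1 (ind p) * Nat.card (alternatingGroup (Fin n)) :=
        mul_le_mul_of_nonneg_right hp hcard
    _ = (Nat.card {g : alternatingGroup (Fin n) // p (pt (g : Perm (Fin n)))} : ℝ) :=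
        avC_ind_eq (by omega) p
    _ ≤ _ := by
        have : Nat.card {g : alternatingGroup (Fin n) // p (pt (g : Perm (Fin n)))}
            ≤ Nat.card {g : alternatingGroup (Fin n) // ∀ x, x⁻¹ * g * x ∉ H} := by
          refine Nat.card_le_card_of_injective
            (fun g => ⟨g.1, fun x hx => ?_⟩) ?_
          · refine hpK ((x⁻¹ * g.1 * x : alternatingGroup (Fin n)) : Perm (Fin n))
              ⟨_, hx, rfl⟩ ?_
            have e : ((x⁻¹ * g.1 * x : alternatingGroup (Fin n)) : Perm (Fin n))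
                = (x : Perm (Fin n))⁻¹ * (g.1 : Perm (Fin n)) * ((x : Perm (Fin n))⁻¹)⁻¹ := by
              rw [inv_inv]; rfl
            rw [e, pt_conj]
            exact g.2
          · intro g g' h
            have h' := congrArg Subtype.val h
            exact Subtype.ext h'
        exact_mod_cast this

/-- **Main theorem.** Every transitive action of a group isomorphic to `A_n` (`n ≥ 5`) on a finite
set with at least two points has a proportion of derangements `≥ 7/25`. -/
theorem main {n : ℕ} (hn : 5 ≤ n) {G : Type*} [Group G] (φ : G ≃* alternatingGroup (Fin n))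
    {Ω : Type*} [MulAction G Ω] [IsPretransitive G Ω] [Nontrivial Ω] :
    (7 / 25 : ℝ) * Nat.card G ≤ Nat.card {g : G // ∀ ω : Ω, g • ω ≠ ω} := by
  obtain ⟨ω₀, ω₁, hω⟩ := exists_pair_ne Ω
  set H : Subgroup (alternatingGroup (Fin n)) := (stabilizer G ω₀).map φ.toMonoidHom with hH
  have memH : ∀ g : G, φ g ∈ H ↔ g • ω₀ = ω₀ := by
    intro g
    constructor
    · rintro ⟨g', hg', e⟩
      have : g' = g := φ.injective e
      subst this
      exact hg'
    · intro h
      exact ⟨g, h, rfl⟩
  have hne : H ≠ ⊤ := by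
    intro htop
    obtain ⟨g, hg⟩ := exists_smul_eq G ω₀ ω₁
    have : φ g ∈ H := by rw [htop]; trivial
    rw [memH, hg] at this
    exact hω this.symm
  have hmain := der_coset hn H hne
  have hcG : Nat.card G = Nat.card (alternatingGroup (Fin n)) := Nat.card_congr φ.toEquiv
  rw [hcG]
  refine hmain.trans (le_of_eq ?_)
  have e : {g : alternatingGroup (Fin n) // ∀ x, x⁻¹ * g * x ∉ H}
      ≃ {g : G // ∀ ω : Ω, g • ω ≠ ω} := by
    refine (Equiv.subtypeEquiv φ.toEquiv ?_).symm
    intro g
    constructor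
    · intro hg x hx
      obtain ⟨y, rfl⟩ := φ.surjective x
      have h1 : φ (y⁻¹ * g * y) ∈ H := by
        simpa using hx
      rw [memH] at h1
      refine hg (y • ω₀) ?_
      rw [mul_smul, mul_smul, inv_smul_eq_iff] at h1
      exact h1
    · intro hg ω hω'
      obtain ⟨y, rfl⟩ := exists_smul_eq G ω₀ ω
      refine hg (φ y) ?_
      have h1 : φ (y⁻¹ * g * y) ∈ H := by
        rw [memH, mul_smul, mul_smul, hω', inv_smul_smul]
      simpa using h1
  exact_mod_cast Nat.card_congr e

end Pool.Agent.ALT
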