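import Pool.Agent.ALT.Base1

/-! module ALT-O1: cycle type through orbits -/

namespace Pool.Agent.ALT

open Equiv Finset

open Classical in
/-- the orbit of `x` -/
noncomputable def orbF {n : ℕ} (σ : Perm (Fin n)) (x : Fin n) : Finset (Fin n) :=
  univ.filter (fun y => σ.SameCycle x y)

/-- orbits of `σ` as finsets -/
noncomputable def orb {n : ℕ} (σ : Perm (Fin n)) : Finset (Finset (Fin n)) :=
  univ.image (orbF σ)

theorem mem_orbF {n : ℕ} (σ : Perm (Fin n)) (x y : Fin n) :
    y ∈ orbF σ x ↔ σ.SameCycle x y := by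
  classical
  simp [orbF]

theorem self_mem_orbF {n : ℕ} (σ : Perm (Fin n)) (x : Fin n) : x ∈ orbF σ x :=
  (mem_orbF σ x x).2 (Perm.SameCycle.refl σ x)

theorem orbF_eq_iff {n : ℕ} (σ : Perm (Fin n)) (x y : Fin n) :
    orbF σ x = orbF σ y ↔ σ.SameCycle x y := by
  constructor
  · intro h
    rw [← mem_orbF, h]
    exact self_mem_orbF σ y
  · intro h
    ext z
    rw [mem_orbF, mem_orbF]
    exact ⟨fun hz => h.symm.trans hz, fun hz => h.trans hz⟩

theorem card_orbF {n : ℕ} (σ : Perm (Fin n)) (x : Fin n) :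
    (orbF σ x).card = Function.minimalPeriod σ x := by
  classical
  have h1 : Function.minimalPeriod σ x = Function.minimalPeriod (σ • ·) x := rfl
  rw [h1, MulAction.minimalPeriod_eq_card, Fintype.card_of_subtype (orbF σ x)]
  intro y
  rw [mem_orbF, MulAction.mem_orbit_iff]
  constructor
  · rintro ⟨i, hi⟩
    exact ⟨⟨σ ^ i, Subgroup.zpow_mem_zpowers σ i⟩, hi⟩
  · rintro ⟨⟨g, hg⟩, hgx⟩
    obtain ⟨i, rfl⟩ := Subgroup.mem_zpowers_iff.1 hg
    exact ⟨i, hgx⟩

theorem orbF_eq_support {n : ℕ} (σ : Perm (Fin n)) {x : Fin n} (hx : σ x ≠ x) :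
    orbF σ x = (σ.cycleOf x).support := by
  ext y
  rw [mem_orbF, Perm.mem_support_cycleOf_iff' hx]

theorem orbF_eq_singleton {n : ℕ} (σ : Perm (Fin n)) {x : Fin n} (hx : σ x = x) :
    orbF σ x = {x} := by
  ext y
  rw [mem_orbF, mem_singleton]
  constructor
  · rintro ⟨i, hi⟩
    rw [Perm.zpow_apply_eq_self_of_apply_eq_self hx] at hi
    exact hi.symm
  · rintro rfl
    exact Perm.SameCycle.refl σ y

theorem pt_eq_orb {n : ℕ} (σ : Perm (Fin n)) : pt σ = (orb σ).val.map Finset.card := by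
  classical
  have hsplit : orb σ = σ.cycleFactorsFinset.image Perm.support ∪
      ((univ.filter fun x => σ x = x).image fun x => ({x} : Finset (Fin n))) := by
    ext O
    simp only [orb, mem_image, mem_univ, true_and, mem_union, mem_filter]
    constructor
    · rintro ⟨x, rfl⟩
      by_cases hx : σ x = x
      · right
        exact ⟨x, hx, (orbF_eq_singleton σ hx).symm⟩
      · left
        exact ⟨σ.cycleOf x, Perm.cycleOf_mem_cycleFactorsFinset_iff.2 (Perm.mem_support.2 hx),
          (orbF_eq_support σ hx).symm⟩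
    · rintro (⟨f, hf, rfl⟩ | ⟨x, hx, rfl⟩)
      · obtain ⟨x, hx⟩ := (Perm.mem_cycleFactorsFinset_iff.1 hf).1.nonempty_support
        have h1 := Perm.cycle_is_cycleOf hx hf
        have h2 : σ x ≠ x := Perm.mem_support.1 (Perm.mem_cycleFactorsFinset_support_le hf hx)
        exact ⟨x, by rw [orbF_eq_support σ h2, ← h1]⟩
      · exact ⟨x, orbF_eq_singleton σ hx⟩
  have hdisj : Disjoint (σ.cycleFactorsFinset.image Perm.support)
      ((univ.filter fun x => σ x = x).image fun x => ({x} : Finset (Fin n))) := by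
    rw [Finset.disjoint_left]
    intro O hO hO'
    obtain ⟨f, hf, rfl⟩ := mem_image.1 hO
    obtain ⟨x, hx, hx'⟩ := mem_image.1 hO'
    have h1 := (Perm.mem_cycleFactorsFinset_iff.1 hf).1.two_le_card_support
    rw [← hx', card_singleton] at h1
    omega
  rw [hsplit]
  have h3 : (σ.cycleFactorsFinset.image Perm.support ∪
      ((univ.filter fun x => σ x = x).image fun x => ({x} : Finset (Fin n)))).val =
      (σ.cycleFactorsFinset.image Perm.support).val +
      ((univ.filter fun x => σ x = x).image fun x => ({x} : Finset (Fin n))).val := by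
    rw [← Finset.disjUnion_eq_union _ _ hdisj]
    rfl
  rw [h3, Multiset.map_add]
  rw [Finset.image_val_of_injOn (s := σ.cycleFactorsFinset) (f := Perm.support) ?_,
    Finset.image_val_of_injOn (s := univ.filter fun x => σ x = x)
      (f := fun x => ({x} : Finset (Fin n))) (fun x _ y _ h => Finset.singleton_injective h)]
  · rw [Multiset.map_map, Multiset.map_map]
    unfold pt
    rw [Perm.parts_partition, Perm.cycleType_def]
    congr 1
    have h4 : (Finset.card ∘ fun x : Fin n => ({x} : Finset (Fin n))) = fun _ => 1 := by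
      funext x
      simp
    rw [h4, Multiset.map_const']
    congr 1
    rw [← Finset.card_compl]
    change _ = (univ.filter fun x => σ x = x).card
    congr 1
    ext x
    simp [Perm.mem_support]
  · intro f hf g hg hfg
    obtain ⟨x, hx⟩ := (Perm.mem_cycleFactorsFinset_iff.1 hf).1.nonempty_support
    have h1 := Perm.cycle_is_cycleOf hx hf
    have hx' : x ∈ g.support := by
      have : f.support = g.support := hfg
      rw [← this]; exact hx
    have h2 := Perm.cycle_is_cycleOf hx' hg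
    rw [h1, h2]

/-- cycle lengths inside an invariant set -/
noncomputable def ptOn {n : ℕ} (σ : Perm (Fin n)) (S : Finset (Fin n)) : Multiset ℕ :=
  ((orb σ).filter (· ⊆ S)).val.map Finset.card

theorem ptOn_le {n : ℕ} (σ : Perm (Fin n)) (S : Finset (Fin n)) : ptOn σ S ≤ pt σ := by
  rw [pt_eq_orb]
  exact Multiset.map_le_map (Finset.val_le_iff.2 (Finset.filter_subset _ _))

theorem ptOn_sum {n : ℕ} (σ : Perm (Fin n)) {S : Finset (Fin n)} (hS : ∀ x ∈ S, σ x ∈ S) :
    (ptOn σ S).sum = S.card := by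
  classical
  -- the orbit of a point of `S` lies in `S`
  have hpow : ∀ (i : ℕ) x, x ∈ S → (σ ^ i) x ∈ S := by
    intro i
    induction i with
    | zero => intro x hx; simpa using hx
    | succ i ih =>
      intro x hx
      rw [pow_succ', Perm.mul_apply]
      exact hS _ (ih x hx)
  have hsub : ∀ x ∈ S, orbF σ x ⊆ S := by
    intro x hx y hy
    obtain ⟨i, -, hi⟩ := Perm.SameCycle.exists_pow_eq' ((mem_orbF σ x y).1 hy)
    rw [← hi]
    exact hpow i x hx
  have h1 : (ptOn σ S).sum = ∑ O ∈ (orb σ).filter (· ⊆ S), O.card := rfl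
  rw [h1, ← Finset.card_biUnion]
  · congr 1
    ext y
    simp only [mem_biUnion, mem_filter]
    constructor
    · rintro ⟨O, ⟨-, hO⟩, hy⟩
      exact hO hy
    · intro hy
      exact ⟨orbF σ y, ⟨mem_image_of_mem _ (mem_univ _), hsub y hy⟩, self_mem_orbF σ y⟩
  · intro O hO O' hO' hne
    obtain ⟨x, -, rfl⟩ := mem_image.1 (mem_filter.1 hO).1
    obtain ⟨x', -, rfl⟩ := mem_image.1 (mem_filter.1 hO').1
    change Disjoint (orbF σ x) (orbF σ x')
    rw [Finset.disjoint_left]
    intro y hy hy'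
    apply hne
    rw [orbF_eq_iff]
    exact ((mem_orbF σ x y).1 hy).trans ((mem_orbF σ x' y).1 hy').symm

theorem mem_ptOn {n : ℕ} (σ : Perm (Fin n)) {S : Finset (Fin n)} {i : ℕ} (hi : i ∈ ptOn σ S) :
    ∃ x ∈ S, Function.minimalPeriod σ x = i := by
  obtain ⟨O, hO, rfl⟩ := Multiset.mem_map.1 hi
  have hO' := mem_filter.1 (Finset.mem_def.2 hO)
  obtain ⟨x, -, rfl⟩ := mem_image.1 hO'.1
  exact ⟨x, hO'.2 (self_mem_orbF σ x), (card_orbF σ x).symm⟩

theorem mem_pt_iff {n : ℕ} (σ : Perm (Fin n)) (i : ℕ) :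
    i ∈ pt σ ↔ ∃ x, Function.minimalPeriod σ x = i := by
  rw [pt_eq_orb, Multiset.mem_map]
  constructor
  · rintro ⟨O, hO, rfl⟩
    obtain ⟨x, -, rfl⟩ := mem_image.1 (Finset.mem_def.2 hO)
    exact ⟨x, (card_orbF σ x).symm⟩
  · rintro ⟨x, rfl⟩
    exact ⟨orbF σ x, Finset.mem_def.1 (mem_image_of_mem _ (mem_univ _)), card_orbF σ x⟩

/-- an invariant set disjoint from the cycle of `x` -/
theorem ptOn_le_erase {n : ℕ} (σ : Perm (Fin n)) {S : Finset (Fin n)} {x : Fin n}
    (hx : ∀ y ∈ S, ¬ σ.SameCycle x y) :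
    ptOn σ S ≤ (pt σ).erase (Function.minimalPeriod σ x) := by
  classical
  have hO : orbF σ x ∈ orb σ := mem_image_of_mem _ (mem_univ _)
  have h1 : ((orb σ).erase (orbF σ x)).val.map Finset.card =
      (pt σ).erase (Function.minimalPeriod σ x) := by
    rw [pt_eq_orb, ← card_orbF, Finset.erase_val]
    exact Multiset.map_erase_of_mem _ _ hO
  rw [← h1]
  refine Multiset.map_le_map (Finset.val_le_iff.2 fun O hO => ?_)
  rw [mem_filter] at hO
  refine mem_erase.2 ⟨?_, hO.1⟩
  rintro rfl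
  exact hx x (hO.2 (self_mem_orbF σ x)) (Perm.SameCycle.refl σ x)

end Pool.Agent.ALT
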